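import Pool.Agent.Gen.F5.X1C2D3Cm5.S000
import Pool.Agent.Gen.F5.X1C2D3Cm5.S001
import Pool.Agent.Gen.F5.X1C2D3Cm5.S002
import Pool.Agent.Gen.F5.X1C2D3Cm5.S003

set_option autoImplicit false
set_option maxRecDepth 100000

namespace Pool.Agent.Gen.F5.X1C2D3Cm5

open Pool.Agent.Helper72.F5

def n0 : Cl (O (nat_lit 5)) (R (nat_lit 14465))
    (p (nat_lit 0xc9) (nat_lit 0) (p (nat_lit 0xb000c) (nat_lit 0) (p (nat_lit 0x200014) (nat_lit 1) (p (nat_lit 0x200004) (nat_lit 0) (p (nat_lit 0x89) (nat_lit 1) (p (nat_lit 0x101) (nat_lit 1) (p (nat_lit 0xc1) (nat_lit 1) (p (nat_lit 0x119) (nat_lit 1) (p (nat_lit 0xd1) (nat_lit 0) (p (nat_lit 0x81) (nat_lit 0) (p (nat_lit 0x41) (nat_lit 1) (p (nat_lit 0x10a0b0a89889a) (nat_lit 0) (p (nat_lit 0x98a8a09081a) (nat_lit 0) (p (nat_lit 0x109080988879a) (nat_lit 0) (p (nat_lit 0x8878908071a) (nat_lit 0) (p (nat_lit 0x8000000000800080887868a) (nat_lit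 0) (p (nat_lit 0x10888070602) (nat_lit 0) (p (nat_lit 0x807868582) (nat_lit 0) (p (nat_lit 0x10587060502) (nat_lit 0) (p (nat_lit 0x506858482) (nat_lit 0) (p (nat_lit 0x16000c) (nat_lit 0) (p (nat_lit 0x68612) (nat_lit 0) (p (nat_lit 0x50592) (nat_lit 0) (p (nat_lit 0x38512) (nat_lit 0) (p (nat_lit 0x50392) (nat_lit 0) (p (nat_lit 0x38312) (nat_lit 0) (p (nat_lit 0x20292) (nat_lit 0) (p (nat_lit 0x38112) (nat_lit 0) (p (nat_lit 0x20092) (nat_lit 0) (p (nat_lit 0x8012) (nat_lit 0) pn)))))))))))))))))))))))))))))) :=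
  Cl.node (nat_lit 0xc1) (nat_lit 2) (by decide +kernel) (ClAll.succ (ClAll.succ ClAll.zero s126) s127)

def n1 : Cl (O (nat_lit 5)) (R (nat_lit 14465))
    (p (nat_lit 0xb000c) (nat_lit 0) (p (nat_lit 0x200004) (nat_lit 1) (p (nat_lit 0x109) (nat_lit 1) (p (nat_lit 0x101) (nat_lit 0) (p (nat_lit 0x81) (nat_lit 1) (p (nat_lit 0xc1) (nat_lit 1) (p (nat_lit 0x119) (nat_lit 1) (p (nat_lit 0xd1) (nat_lit 0) (p (nat_lit 0x89) (nat_lit 0) (p (nat_lit 0x41) (nat_lit 0) (p (nat_lit 0x10a0b0a89889a) (nat_lit 0) (p (nat_lit 0x98a8a09081a) (nat_lit 0) (p (nat_lit 0x109080988879a) (nat_lit 0) (p (nat_lit 0x8878908071a) (nat_lit 0) (p (nat_lit 0x8000000000800080887868a) (nat_lit 0) (p (nat_lit 0x10888070602) (nat_lit 0) (p (nat_lit 0x807868582) (nat_lit 0) (p (nat_lit 0x10587060502) (nat_lit 0) (p (nat_lit 0x506858482) (nat_lit 0) (p (nat_lit 0x16000c) (nat_lit 0) (p (nat_lit 0x68612) (nat_lit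 0) (p (nat_lit 0x50592) (nat_lit 0) (p (nat_lit 0x38512) (nat_lit 0) (p (nat_lit 0x50392) (nat_lit 0) (p (nat_lit 0x38312) (nat_lit 0) (p (nat_lit 0x20292) (nat_lit 0) (p (nat_lit 0x38112) (nat_lit 0) (p (nat_lit 0x20092) (nat_lit 0) (p (nat_lit 0x8012) (nat_lit 0) pn))))))))))))))))))))))))))))) :=
  Cl.node (nat_lit 0x200014) (nat_lit 2) (by decide +kernel) (ClAll.succ (ClAll.succ ClAll.zero s23) s24)

def n2 : Cl (O (nat_lit 5)) (R (nat_lit 14465))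
    (p (nat_lit 0xb000c) (nat_lit 0) (p (nat_lit 0x200014) (nat_lit 1) (p (nat_lit 0x200004) (nat_lit 0) (p (nat_lit 0xc1) (nat_lit 0) (p (nat_lit 0x81) (nat_lit 1) (p (nat_lit 0x101) (nat_lit 1) (p (nat_lit 0x111) (nat_lit 0) (p (nat_lit 0xd1) (nat_lit 1) (p (nat_lit 0x89) (nat_lit 0) (p (nat_lit 0x41) (nat_lit 0) (p (nat_lit 0x10a0b0a89889a) (nat_lit 0) (p (nat_lit 0x98a8a09081a) (nat_lit 0) (p (nat_lit 0x109080988879a) (nat_lit 0) (p (nat_lit 0x8878908071a) (nat_lit 0) (p (nat_lit 0x8000000000800080887868a) (nat_lit 0) (p (nat_lit 0x10888070602) (nat_lit 0) (p (nat_lit 0x807868582) (nat_lit 0) (p (nat_lit 0x10587060502) (nat_lit 0) (p (nat_lit 0x506858482) (nat_lit 0) (p (nat_lit 0x16000c) (nat_lit 0) (p (nat_lit 0x68612) (nat_lit 0) (p (nat_lit 0x50592) (nat_lit 0) (p (nat_lit 0x38512) (nat_lit 0) (p (nat_lit 0x50392) (nat_lit 0) (p (nat_lit 0x38312) (nat_lit 0) (p (nat_lit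 0x20292) (nat_lit 0) (p (nat_lit 0x38112) (nat_lit 0) (p (nat_lit 0x20092) (nat_lit 0) (p (nat_lit 0x8012) (nat_lit 0) pn))))))))))))))))))))))))))))) :=
  Cl.node (nat_lit 0x119) (nat_lit 2) (by decide +kernel) (ClAll.succ (ClAll.succ ClAll.zero s43) s44)

def n3 : Cl (O (nat_lit 5)) (R (nat_lit 14465))
    (p (nat_lit 0xb000c) (nat_lit 0) (p (nat_lit 0x200014) (nat_lit 0) (p (nat_lit 0x200004) (nat_lit 0) (p (nat_lit 0xd1) (nat_lit 1) (p (nat_lit 0x109) (nat_lit 1) (p (nat_lit 0x101) (nat_lit 0) (p (nat_lit 0x119) (nat_lit 0) (p (nat_lit 0xc9) (nat_lit 0) (p (nat_lit 0x89) (nat_lit 1) (p (nat_lit 0x41) (nat_lit 0) (p (nat_lit 0x10a0b0a89889a) (nat_lit 0) (p (nat_lit 0x98a8a09081a) (nat_lit 0) (p (nat_lit 0x109080988879a) (nat_lit 0) (p (nat_lit 0x8878908071a) (nat_lit 0) (p (nat_lit 0x8000000000800080887868a) (nat_lit 0) (p (nat_lit 0x10888070602) (nat_lit 0) (p (nat_lit 0x807868582)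 (nat_lit 0) (p (nat_lit 0x10587060502) (nat_lit 0) (p (nat_lit 0x506858482) (nat_lit 0) (p (nat_lit 0x16000c) (nat_lit 0) (p (nat_lit 0x68612) (nat_lit 0) (p (nat_lit 0x50592) (nat_lit 0) (p (nat_lit 0x38512) (nat_lit 0) (p (nat_lit 0x50392) (nat_lit 0) (p (nat_lit 0x38312) (nat_lit 0) (p (nat_lit 0x20292) (nat_lit 0) (p (nat_lit 0x38112) (nat_lit 0) (p (nat_lit 0x20092) (nat_lit 0) (p (nat_lit 0x8012) (nat_lit 0) pn))))))))))))))))))))))))))))) :=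
  Cl.node (nat_lit 0x41) (nat_lit 2) (by decide +kernel) (ClAll.succ (ClAll.succ ClAll.zero s62) s63)

def n4 : Cl (O (nat_lit 5)) (R (nat_lit 14465))
    (p (nat_lit 0xb000c) (nat_lit 0) (p (nat_lit 0x200014) (nat_lit 1) (p (nat_lit 0x200004) (nat_lit 0) (p (nat_lit 0x89) (nat_lit 1) (p (nat_lit 0xc1) (nat_lit 1) (p (nat_lit 0x101) (nat_lit 1) (p (nat_lit 0x119) (nat_lit 0) (p (nat_lit 0xd1) (nat_lit 0) (p (nat_lit 0x81) (nat_lit 0) (p (nat_lit 0x41) (nat_lit 1) (p (nat_lit 0x10a0b0a89889a) (nat_lit 0) (p (nat_lit 0x98a8a09081a) (nat_lit 0) (p (nat_lit 0x109080988879a) (nat_lit 0) (p (nat_lit 0x8878908071a) (nat_lit 0) (p (nat_lit 0x8000000000800080887868a) (nat_lit 0) (p (nat_lit 0x10888070602) (nat_lit 0) (p (nat_lit 0x807868582) (nat_lit 0) (p (nat_lit 0x10587060502) (nat_lit 0) (p (nat_lit 0x506858482) (nat_lit 0) (p (nat_lit 0x16000c) (nat_lit 0) (p (nat_lit 0x68612) (nat_lit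 0) (p (nat_lit 0x50592) (nat_lit 0) (p (nat_lit 0x38512) (nat_lit 0) (p (nat_lit 0x50392) (nat_lit 0) (p (nat_lit 0x38312) (nat_lit 0) (p (nat_lit 0x20292) (nat_lit 0) (p (nat_lit 0x38112) (nat_lit 0) (p (nat_lit 0x20092) (nat_lit 0) (p (nat_lit 0x8012) (nat_lit 0) pn))))))))))))))))))))))))))))) :=
  Cl.node (nat_lit 0x109) (nat_lit 2) (by decide +kernel) (ClAll.succ (ClAll.succ ClAll.zero s107) s108)

def n5 : Cl (O (nat_lit 5)) (R (nat_lit 14465))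
    (p (nat_lit 0xb000c) (nat_lit 0) (p (nat_lit 0x200004) (nat_lit 1) (p (nat_lit 0x109) (nat_lit 1) (p (nat_lit 0x89) (nat_lit 1) (p (nat_lit 0xc9) (nat_lit 1) (p (nat_lit 0xc1) (nat_lit 0) (p (nat_lit 0x119) (nat_lit 1) (p (nat_lit 0xd1) (nat_lit 0) (p (nat_lit 0x81) (nat_lit 0) (p (nat_lit 0x41) (nat_lit 1) (p (nat_lit 0x10a0b0a89889a) (nat_lit 0) (p (nat_lit 0x98a8a09081a) (nat_lit 0) (p (nat_lit 0x109080988879a) (nat_lit 0) (p (nat_lit 0x8878908071a) (nat_lit 0) (p (nat_lit 0x8000000000800080887868a) (nat_lit 0) (p (nat_lit 0x10888070602) (nat_lit 0) (p (nat_lit 0x807868582) (nat_lit 0) (p (nat_lit 0x10587060502) (nat_lit 0) (p (nat_lit 0x506858482) (nat_lit 0) (p (nat_lit 0x16000c) (nat_lit 0) (p (nat_lit 0x68612) (nat_lit 0) (p (nat_lit 0x50592) (nat_lit 0) (p (nat_lit 0x38512) (nat_lit 0) (p (nat_lit 0x50392) (nat_lit 0) (p (nat_lit 0x38312) (nat_lit 0) (p (nat_lit 0x20292)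 (nat_lit 0) (p (nat_lit 0x38112) (nat_lit 0) (p (nat_lit 0x20092) (nat_lit 0) (p (nat_lit 0x8012) (nat_lit 0) pn))))))))))))))))))))))))))))) :=
  Cl.node (nat_lit 0x200014) (nat_lit 2) (by decide +kernel) (ClAll.succ (ClAll.succ ClAll.zero s116) s117)

def n6 : Cl (O (nat_lit 5)) (R (nat_lit 14465))
    (p (nat_lit 0xb000c) (nat_lit 0) (p (nat_lit 0x200014) (nat_lit 1) (p (nat_lit 0x200004) (nat_lit 0) (p (nat_lit 0x89) (nat_lit 1) (p (nat_lit 0x101) (nat_lit 1) (p (nat_lit 0xc1) (nat_lit 1) (p (nat_lit 0x119) (nat_lit 1) (p (nat_lit 0xd1) (nat_lit 0) (p (nat_lit 0x81) (nat_lit 0) (p (nat_lit 0x41) (nat_lit 1) (p (nat_lit 0x10a0b0a89889a) (nat_lit 0) (p (nat_lit 0x98a8a09081a) (nat_lit 0) (p (nat_lit 0x109080988879a) (nat_lit 0) (p (nat_lit 0x8878908071a) (nat_lit 0) (p (nat_lit 0x8000000000800080887868a) (nat_lit 0) (p (nat_lit 0x10888070602) (nat_lit 0) (p (nat_lit 0x807868582)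 (nat_lit 0) (p (nat_lit 0x10587060502) (nat_lit 0) (p (nat_lit 0x506858482) (nat_lit 0) (p (nat_lit 0x16000c) (nat_lit 0) (p (nat_lit 0x68612) (nat_lit 0) (p (nat_lit 0x50592) (nat_lit 0) (p (nat_lit 0x38512) (nat_lit 0) (p (nat_lit 0x50392) (nat_lit 0) (p (nat_lit 0x38312) (nat_lit 0) (p (nat_lit 0x20292) (nat_lit 0) (p (nat_lit 0x38112) (nat_lit 0) (p (nat_lit 0x20092) (nat_lit 0) (p (nat_lit 0x8012) (nat_lit 0) pn))))))))))))))))))))))))))))) :=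
  Cl.node (nat_lit 0xc9) (nat_lit 2) (by decide +kernel) (ClAll.succ (ClAll.succ ClAll.zero n0) s128)

def n7 : Cl (O (nat_lit 5)) (R (nat_lit 14465))
    (p (nat_lit 0xb000c) (nat_lit 0) (p (nat_lit 0x200014) (nat_lit 1) (p (nat_lit 0x200004) (nat_lit 0) (p (nat_lit 0xc9) (nat_lit 0) (p (nat_lit 0x89) (nat_lit 1) (p (nat_lit 0x101) (nat_lit 1) (p (nat_lit 0x111) (nat_lit 0) (p (nat_lit 0xd1) (nat_lit 1) (p (nat_lit 0x81) (nat_lit 0) (p (nat_lit 0x41) (nat_lit 1) (p (nat_lit 0x10a0b0a89889a) (nat_lit 0) (p (nat_lit 0x98a8a09081a) (nat_lit 0) (p (nat_lit 0x109080988879a) (nat_lit 0) (p (nat_lit 0x8878908071a) (nat_lit 0) (p (nat_lit 0x8000000000800080887868a) (nat_lit 0) (p (nat_lit 0x10888070602) (nat_lit 0) (p (nat_lit 0x807868582) (nat_lit 0) (p (nat_lit 0x10587060502) (nat_lit 0) (p (nat_lit 0x506858482) (nat_lit 0) (p (nat_lit 0x16000c) (nat_lit 0) (p (nat_lit 0x68612) (nat_lit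 0) (p (nat_lit 0x50592) (nat_lit 0) (p (nat_lit 0x38512) (nat_lit 0) (p (nat_lit 0x50392) (nat_lit 0) (p (nat_lit 0x38312) (nat_lit 0) (p (nat_lit 0x20292) (nat_lit 0) (p (nat_lit 0x38112) (nat_lit 0) (p (nat_lit 0x20092) (nat_lit 0) (p (nat_lit 0x8012) (nat_lit 0) pn))))))))))))))))))))))))))))) :=
  Cl.node (nat_lit 0x119) (nat_lit 2) (by decide +kernel) (ClAll.succ (ClAll.succ ClAll.zero s140) s141)

def n8 : Cl (O (nat_lit 5)) (R (nat_lit 14465))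
    (p (nat_lit 0x200004) (nat_lit 0) (p (nat_lit 0x109) (nat_lit 1) (p (nat_lit 0x101) (nat_lit 0) (p (nat_lit 0x81) (nat_lit 1) (p (nat_lit 0xc1) (nat_lit 1) (p (nat_lit 0x119) (nat_lit 1) (p (nat_lit 0xd1) (nat_lit 0) (p (nat_lit 0x89) (nat_lit 0) (p (nat_lit 0x41) (nat_lit 0) (p (nat_lit 0x10a0b0a89889a) (nat_lit 0) (p (nat_lit 0x98a8a09081a) (nat_lit 0) (p (nat_lit 0x109080988879a) (nat_lit 0) (p (nat_lit 0x8878908071a) (nat_lit 0) (p (nat_lit 0x8000000000800080887868a) (nat_lit 0) (p (nat_lit 0x10888070602) (nat_lit 0) (p (nat_lit 0x807868582) (nat_lit 0) (p (nat_lit 0x10587060502) (nat_lit 0) (p (nat_lit 0x506858482) (nat_lit 0) (p (nat_lit 0x16000c) (nat_lit 0) (p (nat_lit 0x68612) (nat_lit 0) (p (nat_lit 0x50592) (nat_lit 0) (p (nat_lit 0x38512) (nat_lit 0) (p (nat_lit 0x50392) (nat_lit 0) (p (nat_lit 0x38312) (nat_lit 0) (p (nat_lit 0x20292) (nat_lit 0) (p (nat_lit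 0x38112) (nat_lit 0) (p (nat_lit 0x20092) (nat_lit 0) (p (nat_lit 0x8012) (nat_lit 0) pn)))))))))))))))))))))))))))) :=
  Cl.node (nat_lit 0x200014) (nat_lit 2) (by decide +kernel) (ClAll.succ (ClAll.succ ClAll.zero s21) s22)

def n9 : Cl (O (nat_lit 5)) (R (nat_lit 14465))
    (p (nat_lit 0x200004) (nat_lit 1) (p (nat_lit 0x109) (nat_lit 1) (p (nat_lit 0x101) (nat_lit 0) (p (nat_lit 0x81) (nat_lit 1) (p (nat_lit 0xc1) (nat_lit 1) (p (nat_lit 0x119) (nat_lit 1) (p (nat_lit 0xd1) (nat_lit 0) (p (nat_lit 0x89) (nat_lit 0) (p (nat_lit 0x41) (nat_lit 0) (p (nat_lit 0x10a0b0a89889a) (nat_lit 0) (p (nat_lit 0x98a8a09081a) (nat_lit 0) (p (nat_lit 0x109080988879a) (nat_lit 0) (p (nat_lit 0x8878908071a) (nat_lit 0) (p (nat_lit 0x8000000000800080887868a) (nat_lit 0) (p (nat_lit 0x10888070602) (nat_lit 0) (p (nat_lit 0x807868582) (nat_lit 0) (p (nat_lit 0x10587060502) (nat_lit 0) (p (nat_lit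 0x506858482) (nat_lit 0) (p (nat_lit 0x16000c) (nat_lit 0) (p (nat_lit 0x68612) (nat_lit 0) (p (nat_lit 0x50592) (nat_lit 0) (p (nat_lit 0x38512) (nat_lit 0) (p (nat_lit 0x50392) (nat_lit 0) (p (nat_lit 0x38312) (nat_lit 0) (p (nat_lit 0x20292) (nat_lit 0) (p (nat_lit 0x38112) (nat_lit 0) (p (nat_lit 0x20092) (nat_lit 0) (p (nat_lit 0x8012) (nat_lit 0) pn)))))))))))))))))))))))))))) :=
  Cl.node (nat_lit 0xb000c) (nat_lit 2) (by decide +kernel) (ClAll.succ (ClAll.succ ClAll.zero n1) s25)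

def n10 : Cl (O (nat_lit 5)) (R (nat_lit 14465))
    (p (nat_lit 0xb000c) (nat_lit 0) (p (nat_lit 0x200004) (nat_lit 1) (p (nat_lit 0x101) (nat_lit 1) (p (nat_lit 0x81) (nat_lit 1) (p (nat_lit 0xc1) (nat_lit 1) (p (nat_lit 0x119) (nat_lit 1) (p (nat_lit 0xd1) (nat_lit 0) (p (nat_lit 0x89) (nat_lit 0) (p (nat_lit 0x41) (nat_lit 0) (p (nat_lit 0x10a0b0a89889a) (nat_lit 0) (p (nat_lit 0x98a8a09081a) (nat_lit 0) (p (nat_lit 0x109080988879a) (nat_lit 0) (p (nat_lit 0x8878908071a) (nat_lit 0) (p (nat_lit 0x8000000000800080887868a) (nat_lit 0) (p (nat_lit 0x10888070602) (nat_lit 0) (p (nat_lit 0x807868582) (nat_lit 0) (p (nat_lit 0x10587060502) (nat_lit 0) (p (nat_lit 0x506858482) (nat_lit 0) (p (nat_lit 0x16000c) (nat_lit 0) (p (nat_lit 0x68612) (nat_lit 0) (p (nat_lit 0x50592) (nat_lit 0) (p (nat_lit 0x38512) (nat_lit 0) (p (nat_lit 0x50392) (nat_lit 0) (p (nat_lit 0x38312) (nat_lit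 0) (p (nat_lit 0x20292) (nat_lit 0) (p (nat_lit 0x38112) (nat_lit 0) (p (nat_lit 0x20092) (nat_lit 0) (p (nat_lit 0x8012) (nat_lit 0) pn)))))))))))))))))))))))))))) :=
  Cl.node (nat_lit 0x200014) (nat_lit 2) (by decide +kernel) (ClAll.succ (ClAll.succ ClAll.zero s27) s28)

def n11 : Cl (O (nat_lit 5)) (R (nat_lit 14465))
    (p (nat_lit 0xb000c) (nat_lit 0) (p (nat_lit 0x200014) (nat_lit 1) (p (nat_lit 0x200004) (nat_lit 0) (p (nat_lit 0x81) (nat_lit 0) (p (nat_lit 0x101) (nat_lit 1) (p (nat_lit 0x111) (nat_lit 0) (p (nat_lit 0xd1) (nat_lit 1) (p (nat_lit 0x89) (nat_lit 0) (p (nat_lit 0x41) (nat_lit 0) (p (nat_lit 0x10a0b0a89889a) (nat_lit 0) (p (nat_lit 0x98a8a09081a) (nat_lit 0) (p (nat_lit 0x109080988879a) (nat_lit 0) (p (nat_lit 0x8878908071a) (nat_lit 0) (p (nat_lit 0x8000000000800080887868a) (nat_lit 0) (p (nat_lit 0x10888070602) (nat_lit 0) (p (nat_lit 0x807868582) (nat_lit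 0) (p (nat_lit 0x10587060502) (nat_lit 0) (p (nat_lit 0x506858482) (nat_lit 0) (p (nat_lit 0x16000c) (nat_lit 0) (p (nat_lit 0x68612) (nat_lit 0) (p (nat_lit 0x50592) (nat_lit 0) (p (nat_lit 0x38512) (nat_lit 0) (p (nat_lit 0x50392) (nat_lit 0) (p (nat_lit 0x38312) (nat_lit 0) (p (nat_lit 0x20292) (nat_lit 0) (p (nat_lit 0x38112) (nat_lit 0) (p (nat_lit 0x20092) (nat_lit 0) (p (nat_lit 0x8012) (nat_lit 0) pn)))))))))))))))))))))))))))) :=
  Cl.node (nat_lit 0x119) (nat_lit 2) (by decide +kernel) (ClAll.succ (ClAll.succ ClAll.zero s37) s38)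

def n12 : Cl (O (nat_lit 5)) (R (nat_lit 14465))
    (p (nat_lit 0x200014) (nat_lit 0) (p (nat_lit 0x200004) (nat_lit 0) (p (nat_lit 0xc1) (nat_lit 0) (p (nat_lit 0x81) (nat_lit 1) (p (nat_lit 0x101) (nat_lit 1) (p (nat_lit 0x111) (nat_lit 0) (p (nat_lit 0xd1) (nat_lit 1) (p (nat_lit 0x89) (nat_lit 0) (p (nat_lit 0x41) (nat_lit 0) (p (nat_lit 0x10a0b0a89889a) (nat_lit 0) (p (nat_lit 0x98a8a09081a) (nat_lit 0) (p (nat_lit 0x109080988879a) (nat_lit 0) (p (nat_lit 0x8878908071a) (nat_lit 0) (p (nat_lit 0x8000000000800080887868a) (nat_lit 0) (p (nat_lit 0x10888070602) (nat_lit 0) (p (nat_lit 0x807868582) (nat_lit 0) (p (nat_lit 0x10587060502) (nat_lit 0) (p (nat_lit 0x506858482) (nat_lit 0) (p (nat_lit 0x16000c) (nat_lit 0) (p (nat_lit 0x68612) (nat_lit 0) (p (nat_lit 0x50592) (nat_lit 0) (p (nat_lit 0x38512) (nat_lit 0) (p (nat_lit 0x50392) (nat_lit 0) (p (nat_lit 0x38312) (nat_lit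 0) (p (nat_lit 0x20292) (nat_lit 0) (p (nat_lit 0x38112) (nat_lit 0) (p (nat_lit 0x20092) (nat_lit 0) (p (nat_lit 0x8012) (nat_lit 0) pn)))))))))))))))))))))))))))) :=
  Cl.node (nat_lit 0x119) (nat_lit 2) (by decide +kernel) (ClAll.succ (ClAll.succ ClAll.zero s41) s42)

def n13 : Cl (O (nat_lit 5)) (R (nat_lit 14465))
    (p (nat_lit 0x200014) (nat_lit 1) (p (nat_lit 0x200004) (nat_lit 0) (p (nat_lit 0xc1) (nat_lit 0) (p (nat_lit 0x81) (nat_lit 1) (p (nat_lit 0x101) (nat_lit 1) (p (nat_lit 0x111) (nat_lit 0) (p (nat_lit 0xd1) (nat_lit 1) (p (nat_lit 0x89) (nat_lit 0) (p (nat_lit 0x41) (nat_lit 0) (p (nat_lit 0x10a0b0a89889a) (nat_lit 0) (p (nat_lit 0x98a8a09081a) (nat_lit 0) (p (nat_lit 0x109080988879a) (nat_lit 0) (p (nat_lit 0x8878908071a) (nat_lit 0) (p (nat_lit 0x8000000000800080887868a) (nat_lit 0) (p (nat_lit 0x10888070602) (nat_lit 0) (p (nat_lit 0x807868582) (nat_lit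 0) (p (nat_lit 0x10587060502) (nat_lit 0) (p (nat_lit 0x506858482) (nat_lit 0) (p (nat_lit 0x16000c) (nat_lit 0) (p (nat_lit 0x68612) (nat_lit 0) (p (nat_lit 0x50592) (nat_lit 0) (p (nat_lit 0x38512) (nat_lit 0) (p (nat_lit 0x50392) (nat_lit 0) (p (nat_lit 0x38312) (nat_lit 0) (p (nat_lit 0x20292) (nat_lit 0) (p (nat_lit 0x38112) (nat_lit 0) (p (nat_lit 0x20092) (nat_lit 0) (p (nat_lit 0x8012) (nat_lit 0) pn)))))))))))))))))))))))))))) :=
  Cl.node (nat_lit 0xb000c) (nat_lit 2) (by decide +kernel) (ClAll.succ (ClAll.succ ClAll.zero n2) s45)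

def n14 : Cl (O (nat_lit 5)) (R (nat_lit 14465))
    (p (nat_lit 0x200004) (nat_lit 0) (p (nat_lit 0xd1) (nat_lit 1) (p (nat_lit 0x111) (nat_lit 1) (p (nat_lit 0x109) (nat_lit 0) (p (nat_lit 0x101) (nat_lit 0) (p (nat_lit 0x119) (nat_lit 0) (p (nat_lit 0xc9) (nat_lit 0) (p (nat_lit 0x89) (nat_lit 1) (p (nat_lit 0x41) (nat_lit 0) (p (nat_lit 0x10a0b0a89889a) (nat_lit 0) (p (nat_lit 0x98a8a09081a) (nat_lit 0) (p (nat_lit 0x109080988879a) (nat_lit 0) (p (nat_lit 0x8878908071a) (nat_lit 0) (p (nat_lit 0x8000000000800080887868a) (nat_lit 0) (p (nat_lit 0x10888070602) (nat_lit 0) (p (nat_lit 0x807868582) (nat_lit 0) (p (nat_lit 0x10587060502) (nat_lit 0) (p (nat_lit 0x506858482) (nat_lit 0) (p (nat_lit 0x16000c) (nat_lit 0) (p (nat_lit 0x68612) (nat_lit 0) (p (nat_lit 0x50592) (nat_lit 0) (p (nat_lit 0x38512) (nat_lit 0) (p (nat_lit 0x50392) (nat_lit 0) (p (nat_lit 0x38312) (nat_lit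 0) (p (nat_lit 0x20292) (nat_lit 0) (p (nat_lit 0x38112) (nat_lit 0) (p (nat_lit 0x20092) (nat_lit 0) (p (nat_lit 0x8012) (nat_lit 0) pn)))))))))))))))))))))))))))) :=
  Cl.node (nat_lit 0x200014) (nat_lit 2) (by decide +kernel) (ClAll.succ (ClAll.succ ClAll.zero s56) s57)

def n15 : Cl (O (nat_lit 5)) (R (nat_lit 14465))
    (p (nat_lit 0x200014) (nat_lit 0) (p (nat_lit 0x200004) (nat_lit 0) (p (nat_lit 0xd1) (nat_lit 1) (p (nat_lit 0x109) (nat_lit 1) (p (nat_lit 0x101) (nat_lit 0) (p (nat_lit 0x119) (nat_lit 0) (p (nat_lit 0xc9) (nat_lit 0) (p (nat_lit 0x89) (nat_lit 1) (p (nat_lit 0x41) (nat_lit 0) (p (nat_lit 0x10a0b0a89889a) (nat_lit 0) (p (nat_lit 0x98a8a09081a) (nat_lit 0) (p (nat_lit 0x109080988879a) (nat_lit 0) (p (nat_lit 0x8878908071a) (nat_lit 0) (p (nat_lit 0x8000000000800080887868a) (nat_lit 0) (p (nat_lit 0x10888070602) (nat_lit 0) (p (nat_lit 0x807868582) (nat_lit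 0) (p (nat_lit 0x10587060502) (nat_lit 0) (p (nat_lit 0x506858482) (nat_lit 0) (p (nat_lit 0x16000c) (nat_lit 0) (p (nat_lit 0x68612) (nat_lit 0) (p (nat_lit 0x50592) (nat_lit 0) (p (nat_lit 0x38512) (nat_lit 0) (p (nat_lit 0x50392) (nat_lit 0) (p (nat_lit 0x38312) (nat_lit 0) (p (nat_lit 0x20292) (nat_lit 0) (p (nat_lit 0x38112) (nat_lit 0) (p (nat_lit 0x20092) (nat_lit 0) (p (nat_lit 0x8012) (nat_lit 0) pn)))))))))))))))))))))))))))) :=
  Cl.node (nat_lit 0xb000c) (nat_lit 2) (by decide +kernel) (ClAll.succ (ClAll.succ ClAll.zero n3) s64)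

def n16 : Cl (O (nat_lit 5)) (R (nat_lit 14465))
    (p (nat_lit 0xb000c) (nat_lit 0) (p (nat_lit 0x200004) (nat_lit 1) (p (nat_lit 0xd1) (nat_lit 1) (p (nat_lit 0x109) (nat_lit 1) (p (nat_lit 0x101) (nat_lit 0) (p (nat_lit 0x119) (nat_lit 0) (p (nat_lit 0xc9) (nat_lit 0) (p (nat_lit 0x89) (nat_lit 1) (p (nat_lit 0x41) (nat_lit 0) (p (nat_lit 0x10a0b0a89889a) (nat_lit 0) (p (nat_lit 0x98a8a09081a) (nat_lit 0) (p (nat_lit 0x109080988879a) (nat_lit 0) (p (nat_lit 0x8878908071a) (nat_lit 0) (p (nat_lit 0x8000000000800080887868a) (nat_lit 0) (p (nat_lit 0x10888070602) (nat_lit 0) (p (nat_lit 0x807868582) (nat_lit 0) (p (nat_lit 0x10587060502) (nat_lit 0) (p (nat_lit 0x506858482) (nat_lit 0) (p (nat_lit 0x16000c) (nat_lit 0) (p (nat_lit 0x68612) (nat_lit 0) (p (nat_lit 0x50592) (nat_lit 0) (p (nat_lit 0x38512) (nat_lit 0) (p (nat_lit 0x50392) (nat_lit 0) (p (nat_lit 0x38312) (nat_lit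 0) (p (nat_lit 0x20292) (nat_lit 0) (p (nat_lit 0x38112) (nat_lit 0) (p (nat_lit 0x20092) (nat_lit 0) (p (nat_lit 0x8012) (nat_lit 0) pn)))))))))))))))))))))))))))) :=
  Cl.node (nat_lit 0x200014) (nat_lit 2) (by decide +kernel) (ClAll.succ (ClAll.succ ClAll.zero s66) s67)

def n17 : Cl (O (nat_lit 5)) (R (nat_lit 14465))
    (p (nat_lit 0xb000c) (nat_lit 0) (p (nat_lit 0x200004) (nat_lit 1) (p (nat_lit 0xd1) (nat_lit 1) (p (nat_lit 0xc1) (nat_lit 0) (p (nat_lit 0x101) (nat_lit 1) (p (nat_lit 0x119) (nat_lit 0) (p (nat_lit 0xc9) (nat_lit 0) (p (nat_lit 0x89) (nat_lit 1) (p (nat_lit 0x41) (nat_lit 0) (p (nat_lit 0x10a0b0a89889a) (nat_lit 0) (p (nat_lit 0x98a8a09081a) (nat_lit 0) (p (nat_lit 0x109080988879a) (nat_lit 0) (p (nat_lit 0x8878908071a) (nat_lit 0) (p (nat_lit 0x8000000000800080887868a) (nat_lit 0) (p (nat_lit 0x10888070602) (nat_lit 0) (p (nat_lit 0x807868582) (nat_lit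 0) (p (nat_lit 0x10587060502) (nat_lit 0) (p (nat_lit 0x506858482) (nat_lit 0) (p (nat_lit 0x16000c) (nat_lit 0) (p (nat_lit 0x68612) (nat_lit 0) (p (nat_lit 0x50592) (nat_lit 0) (p (nat_lit 0x38512) (nat_lit 0) (p (nat_lit 0x50392) (nat_lit 0) (p (nat_lit 0x38312) (nat_lit 0) (p (nat_lit 0x20292) (nat_lit 0) (p (nat_lit 0x38112) (nat_lit 0) (p (nat_lit 0x20092) (nat_lit 0) (p (nat_lit 0x8012) (nat_lit 0) pn)))))))))))))))))))))))))))) :=
  Cl.node (nat_lit 0x200014) (nat_lit 2) (by decide +kernel) (ClAll.succ (ClAll.succ ClAll.zero s73) s74)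

def n18 : Cl (O (nat_lit 5)) (R (nat_lit 14465))
    (p (nat_lit 0x200014) (nat_lit 1) (p (nat_lit 0x200004) (nat_lit 0) (p (nat_lit 0x89) (nat_lit 1) (p (nat_lit 0xc1) (nat_lit 1) (p (nat_lit 0x101) (nat_lit 1) (p (nat_lit 0x119) (nat_lit 0) (p (nat_lit 0xd1) (nat_lit 0) (p (nat_lit 0x81) (nat_lit 0) (p (nat_lit 0x41) (nat_lit 1) (p (nat_lit 0x10a0b0a89889a) (nat_lit 0) (p (nat_lit 0x98a8a09081a) (nat_lit 0) (p (nat_lit 0x109080988879a) (nat_lit 0) (p (nat_lit 0x8878908071a) (nat_lit 0) (p (nat_lit 0x8000000000800080887868a) (nat_lit 0) (p (nat_lit 0x10888070602) (nat_lit 0) (p (nat_lit 0x807868582) (nat_lit 0) (p (nat_lit 0x10587060502) (nat_lit 0) (p (nat_lit 0x506858482) (nat_lit 0) (p (nat_lit 0x16000c) (nat_lit 0) (p (nat_lit 0x68612) (nat_lit 0) (p (nat_lit 0x50592) (nat_lit 0) (p (nat_lit 0x38512) (nat_lit 0) (p (nat_lit 0x50392) (nat_lit 0) (p (nat_lit 0x38312) (nat_lit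 0) (p (nat_lit 0x20292) (nat_lit 0) (p (nat_lit 0x38112) (nat_lit 0) (p (nat_lit 0x20092) (nat_lit 0) (p (nat_lit 0x8012) (nat_lit 0) pn)))))))))))))))))))))))))))) :=
  Cl.node (nat_lit 0xb000c) (nat_lit 2) (by decide +kernel) (ClAll.succ (ClAll.succ ClAll.zero n4) s109)

def n19 : Cl (O (nat_lit 5)) (R (nat_lit 14465))
    (p (nat_lit 0x200004) (nat_lit 1) (p (nat_lit 0x109) (nat_lit 1) (p (nat_lit 0x89) (nat_lit 1) (p (nat_lit 0xc9) (nat_lit 1) (p (nat_lit 0xc1) (nat_lit 0) (p (nat_lit 0x119) (nat_lit 1) (p (nat_lit 0xd1) (nat_lit 0) (p (nat_lit 0x81) (nat_lit 0) (p (nat_lit 0x41) (nat_lit 1) (p (nat_lit 0x10a0b0a89889a) (nat_lit 0) (p (nat_lit 0x98a8a09081a) (nat_lit 0) (p (nat_lit 0x109080988879a) (nat_lit 0) (p (nat_lit 0x8878908071a) (nat_lit 0) (p (nat_lit 0x8000000000800080887868a) (nat_lit 0) (p (nat_lit 0x10888070602) (nat_lit 0) (p (nat_lit 0x807868582) (nat_lit 0)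 (p (nat_lit 0x10587060502) (nat_lit 0) (p (nat_lit 0x506858482) (nat_lit 0) (p (nat_lit 0x16000c) (nat_lit 0) (p (nat_lit 0x68612) (nat_lit 0) (p (nat_lit 0x50592) (nat_lit 0) (p (nat_lit 0x38512) (nat_lit 0) (p (nat_lit 0x50392) (nat_lit 0) (p (nat_lit 0x38312) (nat_lit 0) (p (nat_lit 0x20292) (nat_lit 0) (p (nat_lit 0x38112) (nat_lit 0) (p (nat_lit 0x20092) (nat_lit 0) (p (nat_lit 0x8012) (nat_lit 0) pn)))))))))))))))))))))))))))) :=
  Cl.node (nat_lit 0xb000c) (nat_lit 2) (by decide +kernel) (ClAll.succ (ClAll.succ ClAll.zero n5) s118)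

def n20 : Cl (O (nat_lit 5)) (R (nat_lit 14465))
    (p (nat_lit 0x200014) (nat_lit 1) (p (nat_lit 0x200004) (nat_lit 0) (p (nat_lit 0x89) (nat_lit 1) (p (nat_lit 0x101) (nat_lit 1) (p (nat_lit 0xc1) (nat_lit 1) (p (nat_lit 0x119) (nat_lit 1) (p (nat_lit 0xd1) (nat_lit 0) (p (nat_lit 0x81) (nat_lit 0) (p (nat_lit 0x41) (nat_lit 1) (p (nat_lit 0x10a0b0a89889a) (nat_lit 0) (p (nat_lit 0x98a8a09081a) (nat_lit 0) (p (nat_lit 0x109080988879a) (nat_lit 0) (p (nat_lit 0x8878908071a) (nat_lit 0) (p (nat_lit 0x8000000000800080887868a) (nat_lit 0) (p (nat_lit 0x10888070602) (nat_lit 0) (p (nat_lit 0x807868582) (nat_lit 0) (p (nat_lit 0x10587060502) (nat_lit 0) (p (nat_lit 0x506858482) (nat_lit 0) (p (nat_lit 0x16000c) (nat_lit 0) (p (nat_lit 0x68612) (nat_lit 0) (p (nat_lit 0x50592) (nat_lit 0) (p (nat_lit 0x38512) (nat_lit 0) (p (nat_lit 0x50392) (nat_lit 0) (p (nat_lit 0x38312) (nat_lit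 0) (p (nat_lit 0x20292) (nat_lit 0) (p (nat_lit 0x38112) (nat_lit 0) (p (nat_lit 0x20092) (nat_lit 0) (p (nat_lit 0x8012) (nat_lit 0) pn)))))))))))))))))))))))))))) :=
  Cl.node (nat_lit 0xb000c) (nat_lit 2) (by decide +kernel) (ClAll.succ (ClAll.succ ClAll.zero n6) s129)

def n21 : Cl (O (nat_lit 5)) (R (nat_lit 14465))
    (p (nat_lit 0x200014) (nat_lit 1) (p (nat_lit 0x200004) (nat_lit 0) (p (nat_lit 0xc9) (nat_lit 0) (p (nat_lit 0x89) (nat_lit 1) (p (nat_lit 0x101) (nat_lit 1) (p (nat_lit 0x111) (nat_lit 0) (p (nat_lit 0xd1) (nat_lit 1) (p (nat_lit 0x81) (nat_lit 0) (p (nat_lit 0x41) (nat_lit 1) (p (nat_lit 0x10a0b0a89889a) (nat_lit 0) (p (nat_lit 0x98a8a09081a) (nat_lit 0) (p (nat_lit 0x109080988879a) (nat_lit 0) (p (nat_lit 0x8878908071a) (nat_lit 0) (p (nat_lit 0x8000000000800080887868a) (nat_lit 0) (p (nat_lit 0x10888070602) (nat_lit 0) (p (nat_lit 0x807868582) (nat_lit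 0) (p (nat_lit 0x10587060502) (nat_lit 0) (p (nat_lit 0x506858482) (nat_lit 0) (p (nat_lit 0x16000c) (nat_lit 0) (p (nat_lit 0x68612) (nat_lit 0) (p (nat_lit 0x50592) (nat_lit 0) (p (nat_lit 0x38512) (nat_lit 0) (p (nat_lit 0x50392) (nat_lit 0) (p (nat_lit 0x38312) (nat_lit 0) (p (nat_lit 0x20292) (nat_lit 0) (p (nat_lit 0x38112) (nat_lit 0) (p (nat_lit 0x20092) (nat_lit 0) (p (nat_lit 0x8012) (nat_lit 0) pn)))))))))))))))))))))))))))) :=
  Cl.node (nat_lit 0xb000c) (nat_lit 2) (by decide +kernel) (ClAll.succ (ClAll.succ ClAll.zero n7) s142)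

def n22 : Cl (O (nat_lit 5)) (R (nat_lit 14465))
    (p (nat_lit 0x200004) (nat_lit 0) (p (nat_lit 0xc9) (nat_lit 1) (p (nat_lit 0x109) (nat_lit 1) (p (nat_lit 0x101) (nat_lit 0) (p (nat_lit 0x119) (nat_lit 0) (p (nat_lit 0xd1) (nat_lit 0) (p (nat_lit 0x89) (nat_lit 0) (p (nat_lit 0x41) (nat_lit 0) (p (nat_lit 0x10a0b0a89889a) (nat_lit 0) (p (nat_lit 0x98a8a09081a) (nat_lit 0) (p (nat_lit 0x109080988879a) (nat_lit 0) (p (nat_lit 0x8878908071a) (nat_lit 0) (p (nat_lit 0x8000000000800080887868a) (nat_lit 0) (p (nat_lit 0x10888070602) (nat_lit 0) (p (nat_lit 0x807868582) (nat_lit 0) (p (nat_lit 0x10587060502) (nat_lit 0) (p (nat_lit 0x506858482) (nat_lit 0) (p (nat_lit 0x16000c) (nat_lit 0) (p (nat_lit 0x68612) (nat_lit 0) (p (nat_lit 0x50592) (nat_lit 0) (p (nat_lit 0x38512) (nat_lit 0) (p (nat_lit 0x50392) (nat_lit 0) (p (nat_lit 0x38312) (nat_lit 0) (p (nat_lit 0x20292) (nat_lit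 0) (p (nat_lit 0x38112) (nat_lit 0) (p (nat_lit 0x20092) (nat_lit 0) (p (nat_lit 0x8012) (nat_lit 0) pn))))))))))))))))))))))))))) :=
  Cl.node (nat_lit 0x200014) (nat_lit 2) (by decide +kernel) (ClAll.succ (ClAll.succ ClAll.zero s2) s3)

def n23 : Cl (O (nat_lit 5)) (R (nat_lit 14465))
    (p (nat_lit 0x200004) (nat_lit 0) (p (nat_lit 0xc9) (nat_lit 1) (p (nat_lit 0x81) (nat_lit 0) (p (nat_lit 0x101) (nat_lit 1) (p (nat_lit 0x119) (nat_lit 0) (p (nat_lit 0xd1) (nat_lit 0) (p (nat_lit 0x89) (nat_lit 0) (p (nat_lit 0x41) (nat_lit 0) (p (nat_lit 0x10a0b0a89889a) (nat_lit 0) (p (nat_lit 0x98a8a09081a) (nat_lit 0) (p (nat_lit 0x109080988879a) (nat_lit 0) (p (nat_lit 0x8878908071a) (nat_lit 0) (p (nat_lit 0x8000000000800080887868a) (nat_lit 0) (p (nat_lit 0x10888070602) (nat_lit 0) (p (nat_lit 0x807868582) (nat_lit 0) (p (nat_lit 0x10587060502) (nat_lit 0) (p (nat_lit 0x506858482)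 (nat_lit 0) (p (nat_lit 0x16000c) (nat_lit 0) (p (nat_lit 0x68612) (nat_lit 0) (p (nat_lit 0x50592) (nat_lit 0) (p (nat_lit 0x38512) (nat_lit 0) (p (nat_lit 0x50392) (nat_lit 0) (p (nat_lit 0x38312) (nat_lit 0) (p (nat_lit 0x20292) (nat_lit 0) (p (nat_lit 0x38112) (nat_lit 0) (p (nat_lit 0x20092) (nat_lit 0) (p (nat_lit 0x8012) (nat_lit 0) pn))))))))))))))))))))))))))) :=
  Cl.node (nat_lit 0x200014) (nat_lit 2) (by decide +kernel) (ClAll.succ (ClAll.succ ClAll.zero s6) s7)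

def n24 : Cl (O (nat_lit 5)) (R (nat_lit 14465))
    (p (nat_lit 0xc9) (nat_lit 1) (p (nat_lit 0xc1) (nat_lit 0) (p (nat_lit 0x81) (nat_lit 1) (p (nat_lit 0x101) (nat_lit 1) (p (nat_lit 0x119) (nat_lit 0) (p (nat_lit 0xd1) (nat_lit 0) (p (nat_lit 0x89) (nat_lit 0) (p (nat_lit 0x41) (nat_lit 0) (p (nat_lit 0x10a0b0a89889a) (nat_lit 0) (p (nat_lit 0x98a8a09081a) (nat_lit 0) (p (nat_lit 0x109080988879a) (nat_lit 0) (p (nat_lit 0x8878908071a) (nat_lit 0) (p (nat_lit 0x8000000000800080887868a) (nat_lit 0) (p (nat_lit 0x10888070602) (nat_lit 0) (p (nat_lit 0x807868582) (nat_lit 0) (p (nat_lit 0x10587060502) (nat_lit 0) (p (nat_lit 0x506858482) (nat_lit 0) (p (nat_lit 0x16000c) (nat_lit 0) (p (nat_lit 0x68612) (nat_lit 0) (p (nat_lit 0x50592) (nat_lit 0) (p (nat_lit 0x38512) (nat_lit 0) (p (nat_lit 0x50392) (nat_lit 0) (p (nat_lit 0x38312) (nat_lit 0) (p (nat_lit 0x20292) (nat_lit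 0) (p (nat_lit 0x38112) (nat_lit 0) (p (nat_lit 0x20092) (nat_lit 0) (p (nat_lit 0x8012) (nat_lit 0) pn))))))))))))))))))))))))))) :=
  Cl.node (nat_lit 0x200004) (nat_lit 2) (by decide +kernel) (ClAll.succ (ClAll.succ ClAll.zero s10) s11)

def n25 : Cl (O (nat_lit 5)) (R (nat_lit 14465))
    (p (nat_lit 0x109) (nat_lit 1) (p (nat_lit 0x101) (nat_lit 0) (p (nat_lit 0x81) (nat_lit 1) (p (nat_lit 0xc1) (nat_lit 1) (p (nat_lit 0x119) (nat_lit 1) (p (nat_lit 0xd1) (nat_lit 0) (p (nat_lit 0x89) (nat_lit 0) (p (nat_lit 0x41) (nat_lit 0) (p (nat_lit 0x10a0b0a89889a) (nat_lit 0) (p (nat_lit 0x98a8a09081a) (nat_lit 0) (p (nat_lit 0x109080988879a) (nat_lit 0) (p (nat_lit 0x8878908071a) (nat_lit 0) (p (nat_lit 0x8000000000800080887868a) (nat_lit 0) (p (nat_lit 0x10888070602) (nat_lit 0) (p (nat_lit 0x807868582) (nat_lit 0) (p (nat_lit 0x10587060502) (nat_lit 0) (p (nat_lit 0x506858482)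 (nat_lit 0) (p (nat_lit 0x16000c) (nat_lit 0) (p (nat_lit 0x68612) (nat_lit 0) (p (nat_lit 0x50592) (nat_lit 0) (p (nat_lit 0x38512) (nat_lit 0) (p (nat_lit 0x50392) (nat_lit 0) (p (nat_lit 0x38312) (nat_lit 0) (p (nat_lit 0x20292) (nat_lit 0) (p (nat_lit 0x38112) (nat_lit 0) (p (nat_lit 0x20092) (nat_lit 0) (p (nat_lit 0x8012) (nat_lit 0) pn))))))))))))))))))))))))))) :=
  Cl.node (nat_lit 0x200004) (nat_lit 2) (by decide +kernel) (ClAll.succ (ClAll.succ ClAll.zero n8) n9)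

def n26 : Cl (O (nat_lit 5)) (R (nat_lit 14465))
    (p (nat_lit 0x200004) (nat_lit 1) (p (nat_lit 0x101) (nat_lit 1) (p (nat_lit 0x81) (nat_lit 1) (p (nat_lit 0xc1) (nat_lit 1) (p (nat_lit 0x119) (nat_lit 1) (p (nat_lit 0xd1) (nat_lit 0) (p (nat_lit 0x89) (nat_lit 0) (p (nat_lit 0x41) (nat_lit 0) (p (nat_lit 0x10a0b0a89889a) (nat_lit 0) (p (nat_lit 0x98a8a09081a) (nat_lit 0) (p (nat_lit 0x109080988879a) (nat_lit 0) (p (nat_lit 0x8878908071a) (nat_lit 0) (p (nat_lit 0x8000000000800080887868a) (nat_lit 0) (p (nat_lit 0x10888070602) (nat_lit 0) (p (nat_lit 0x807868582) (nat_lit 0) (p (nat_lit 0x10587060502) (nat_lit 0) (p (nat_lit 0x506858482) (nat_lit 0) (p (nat_lit 0x16000c) (nat_lit 0) (p (nat_lit 0x68612) (nat_lit 0) (p (nat_lit 0x50592) (nat_lit 0) (p (nat_lit 0x38512) (nat_lit 0) (p (nat_lit 0x50392) (nat_lit 0) (p (nat_lit 0x38312) (nat_lit 0) (p (nat_lit 0x20292) (nat_lit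 0) (p (nat_lit 0x38112) (nat_lit 0) (p (nat_lit 0x20092) (nat_lit 0) (p (nat_lit 0x8012) (nat_lit 0) pn))))))))))))))))))))))))))) :=
  Cl.node (nat_lit 0xb000c) (nat_lit 2) (by decide +kernel) (ClAll.succ (ClAll.succ ClAll.zero n10) s29)

def n27 : Cl (O (nat_lit 5)) (R (nat_lit 14465))
    (p (nat_lit 0x200014) (nat_lit 0) (p (nat_lit 0x200004) (nat_lit 0) (p (nat_lit 0x109) (nat_lit 1) (p (nat_lit 0x101) (nat_lit 0) (p (nat_lit 0x111) (nat_lit 0) (p (nat_lit 0xd1) (nat_lit 1) (p (nat_lit 0x89) (nat_lit 0) (p (nat_lit 0x41) (nat_lit 0) (p (nat_lit 0x10a0b0a89889a) (nat_lit 0) (p (nat_lit 0x98a8a09081a) (nat_lit 0) (p (nat_lit 0x109080988879a) (nat_lit 0) (p (nat_lit 0x8878908071a) (nat_lit 0) (p (nat_lit 0x8000000000800080887868a) (nat_lit 0) (p (nat_lit 0x10888070602) (nat_lit 0) (p (nat_lit 0x807868582) (nat_lit 0) (p (nat_lit 0x10587060502) (nat_lit 0) (p (nat_lit 0x506858482)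 (nat_lit 0) (p (nat_lit 0x16000c) (nat_lit 0) (p (nat_lit 0x68612) (nat_lit 0) (p (nat_lit 0x50592) (nat_lit 0) (p (nat_lit 0x38512) (nat_lit 0) (p (nat_lit 0x50392) (nat_lit 0) (p (nat_lit 0x38312) (nat_lit 0) (p (nat_lit 0x20292) (nat_lit 0) (p (nat_lit 0x38112) (nat_lit 0) (p (nat_lit 0x20092) (nat_lit 0) (p (nat_lit 0x8012) (nat_lit 0) pn))))))))))))))))))))))))))) :=
  Cl.node (nat_lit 0xc1) (nat_lit 2) (by decide +kernel) (ClAll.succ (ClAll.succ ClAll.zero s31) s32)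

def n28 : Cl (O (nat_lit 5)) (R (nat_lit 14465))
    (p (nat_lit 0x200014) (nat_lit 0) (p (nat_lit 0x200004) (nat_lit 0) (p (nat_lit 0x81) (nat_lit 0) (p (nat_lit 0x101) (nat_lit 1) (p (nat_lit 0x111) (nat_lit 0) (p (nat_lit 0xd1) (nat_lit 1) (p (nat_lit 0x89) (nat_lit 0) (p (nat_lit 0x41) (nat_lit 0) (p (nat_lit 0x10a0b0a89889a) (nat_lit 0) (p (nat_lit 0x98a8a09081a) (nat_lit 0) (p (nat_lit 0x109080988879a) (nat_lit 0) (p (nat_lit 0x8878908071a) (nat_lit 0) (p (nat_lit 0x8000000000800080887868a) (nat_lit 0) (p (nat_lit 0x10888070602) (nat_lit 0) (p (nat_lit 0x807868582) (nat_lit 0) (p (nat_lit 0x10587060502) (nat_lit 0) (p (nat_lit 0x506858482) (nat_lit 0) (p (nat_lit 0x16000c) (nat_lit 0) (p (nat_lit 0x68612) (nat_lit 0) (p (nat_lit 0x50592) (nat_lit 0) (p (nat_lit 0x38512) (nat_lit 0) (p (nat_lit 0x50392) (nat_lit 0) (p (nat_lit 0x38312) (nat_lit 0) (p (nat_lit 0x20292) (nat_lit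 0) (p (nat_lit 0x38112) (nat_lit 0) (p (nat_lit 0x20092) (nat_lit 0) (p (nat_lit 0x8012) (nat_lit 0) pn))))))))))))))))))))))))))) :=
  Cl.node (nat_lit 0x119) (nat_lit 2) (by decide +kernel) (ClAll.succ (ClAll.succ ClAll.zero s35) s36)

def n29 : Cl (O (nat_lit 5)) (R (nat_lit 14465))
    (p (nat_lit 0x200014) (nat_lit 1) (p (nat_lit 0x200004) (nat_lit 0) (p (nat_lit 0x81) (nat_lit 0) (p (nat_lit 0x101) (nat_lit 1) (p (nat_lit 0x111) (nat_lit 0) (p (nat_lit 0xd1) (nat_lit 1) (p (nat_lit 0x89) (nat_lit 0) (p (nat_lit 0x41) (nat_lit 0) (p (nat_lit 0x10a0b0a89889a) (nat_lit 0) (p (nat_lit 0x98a8a09081a) (nat_lit 0) (p (nat_lit 0x109080988879a) (nat_lit 0) (p (nat_lit 0x8878908071a) (nat_lit 0) (p (nat_lit 0x8000000000800080887868a) (nat_lit 0) (p (nat_lit 0x10888070602) (nat_lit 0) (p (nat_lit 0x807868582) (nat_lit 0) (p (nat_lit 0x10587060502) (nat_lit 0) (p (nat_lit 0x506858482)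 (nat_lit 0) (p (nat_lit 0x16000c) (nat_lit 0) (p (nat_lit 0x68612) (nat_lit 0) (p (nat_lit 0x50592) (nat_lit 0) (p (nat_lit 0x38512) (nat_lit 0) (p (nat_lit 0x50392) (nat_lit 0) (p (nat_lit 0x38312) (nat_lit 0) (p (nat_lit 0x20292) (nat_lit 0) (p (nat_lit 0x38112) (nat_lit 0) (p (nat_lit 0x20092) (nat_lit 0) (p (nat_lit 0x8012) (nat_lit 0) pn))))))))))))))))))))))))))) :=
  Cl.node (nat_lit 0xb000c) (nat_lit 2) (by decide +kernel) (ClAll.succ (ClAll.succ ClAll.zero n11) s39)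

def n30 : Cl (O (nat_lit 5)) (R (nat_lit 14465))
    (p (nat_lit 0x200004) (nat_lit 0) (p (nat_lit 0xc1) (nat_lit 0) (p (nat_lit 0x81) (nat_lit 1) (p (nat_lit 0x101) (nat_lit 1) (p (nat_lit 0x111) (nat_lit 0) (p (nat_lit 0xd1) (nat_lit 1) (p (nat_lit 0x89) (nat_lit 0) (p (nat_lit 0x41) (nat_lit 0) (p (nat_lit 0x10a0b0a89889a) (nat_lit 0) (p (nat_lit 0x98a8a09081a) (nat_lit 0) (p (nat_lit 0x109080988879a) (nat_lit 0) (p (nat_lit 0x8878908071a) (nat_lit 0) (p (nat_lit 0x8000000000800080887868a) (nat_lit 0) (p (nat_lit 0x10888070602) (nat_lit 0) (p (nat_lit 0x807868582) (nat_lit 0) (p (nat_lit 0x10587060502) (nat_lit 0) (p (nat_lit 0x506858482) (nat_lit 0) (p (nat_lit 0x16000c) (nat_lit 0) (p (nat_lit 0x68612) (nat_lit 0) (p (nat_lit 0x50592) (nat_lit 0) (p (nat_lit 0x38512) (nat_lit 0) (p (nat_lit 0x50392) (nat_lit 0) (p (nat_lit 0x38312) (nat_lit 0) (p (nat_lit 0x20292) (nat_lit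 0) (p (nat_lit 0x38112) (nat_lit 0) (p (nat_lit 0x20092) (nat_lit 0) (p (nat_lit 0x8012) (nat_lit 0) pn))))))))))))))))))))))))))) :=
  Cl.node (nat_lit 0x200014) (nat_lit 2) (by decide +kernel) (ClAll.succ (ClAll.succ ClAll.zero n12) n13)

def n31 : Cl (O (nat_lit 5)) (R (nat_lit 14465))
    (p (nat_lit 0x200004) (nat_lit 0) (p (nat_lit 0x101) (nat_lit 0) (p (nat_lit 0xc1) (nat_lit 1) (p (nat_lit 0x81) (nat_lit 1) (p (nat_lit 0x111) (nat_lit 1) (p (nat_lit 0xd1) (nat_lit 1) (p (nat_lit 0x89) (nat_lit 0) (p (nat_lit 0x41) (nat_lit 0) (p (nat_lit 0x10a0b0a89889a) (nat_lit 0) (p (nat_lit 0x98a8a09081a) (nat_lit 0) (p (nat_lit 0x109080988879a) (nat_lit 0) (p (nat_lit 0x8878908071a) (nat_lit 0) (p (nat_lit 0x8000000000800080887868a) (nat_lit 0) (p (nat_lit 0x10888070602) (nat_lit 0) (p (nat_lit 0x807868582) (nat_lit 0) (p (nat_lit 0x10587060502) (nat_lit 0) (p (nat_lit 0x506858482)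 (nat_lit 0) (p (nat_lit 0x16000c) (nat_lit 0) (p (nat_lit 0x68612) (nat_lit 0) (p (nat_lit 0x50592) (nat_lit 0) (p (nat_lit 0x38512) (nat_lit 0) (p (nat_lit 0x50392) (nat_lit 0) (p (nat_lit 0x38312) (nat_lit 0) (p (nat_lit 0x20292) (nat_lit 0) (p (nat_lit 0x38112) (nat_lit 0) (p (nat_lit 0x20092) (nat_lit 0) (p (nat_lit 0x8012) (nat_lit 0) pn))))))))))))))))))))))))))) :=
  Cl.node (nat_lit 0x200014) (nat_lit 2) (by decide +kernel) (ClAll.succ (ClAll.succ ClAll.zero s50) s51)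

def n32 : Cl (O (nat_lit 5)) (R (nat_lit 14465))
    (p (nat_lit 0xd1) (nat_lit 1) (p (nat_lit 0x111) (nat_lit 1) (p (nat_lit 0x109) (nat_lit 0) (p (nat_lit 0x101) (nat_lit 0) (p (nat_lit 0x119) (nat_lit 0) (p (nat_lit 0xc9) (nat_lit 0) (p (nat_lit 0x89) (nat_lit 1) (p (nat_lit 0x41) (nat_lit 0) (p (nat_lit 0x10a0b0a89889a) (nat_lit 0) (p (nat_lit 0x98a8a09081a) (nat_lit 0) (p (nat_lit 0x109080988879a) (nat_lit 0) (p (nat_lit 0x8878908071a) (nat_lit 0) (p (nat_lit 0x8000000000800080887868a) (nat_lit 0) (p (nat_lit 0x10888070602) (nat_lit 0) (p (nat_lit 0x807868582) (nat_lit 0) (p (nat_lit 0x10587060502) (nat_lit 0) (p (nat_lit 0x506858482) (nat_lit 0) (p (nat_lit 0x16000c) (nat_lit 0) (p (nat_lit 0x68612) (nat_lit 0) (p (nat_lit 0x50592) (nat_lit 0) (p (nat_lit 0x38512) (nat_lit 0) (p (nat_lit 0x50392) (nat_lit 0) (p (nat_lit 0x38312) (nat_lit 0) (p (nat_lit 0x20292) (nat_lit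 0) (p (nat_lit 0x38112) (nat_lit 0) (p (nat_lit 0x20092) (nat_lit 0) (p (nat_lit 0x8012) (nat_lit 0) pn))))))))))))))))))))))))))) :=
  Cl.node (nat_lit 0x200004) (nat_lit 2) (by decide +kernel) (ClAll.succ (ClAll.succ ClAll.zero n14) s58)

def n33 : Cl (O (nat_lit 5)) (R (nat_lit 14465))
    (p (nat_lit 0x200004) (nat_lit 0) (p (nat_lit 0xd1) (nat_lit 0) (p (nat_lit 0x109) (nat_lit 1) (p (nat_lit 0x101) (nat_lit 0) (p (nat_lit 0x119) (nat_lit 0) (p (nat_lit 0xc9) (nat_lit 0) (p (nat_lit 0x89) (nat_lit 1) (p (nat_lit 0x41) (nat_lit 0) (p (nat_lit 0x10a0b0a89889a) (nat_lit 0) (p (nat_lit 0x98a8a09081a) (nat_lit 0) (p (nat_lit 0x109080988879a) (nat_lit 0) (p (nat_lit 0x8878908071a) (nat_lit 0) (p (nat_lit 0x8000000000800080887868a) (nat_lit 0) (p (nat_lit 0x10888070602) (nat_lit 0) (p (nat_lit 0x807868582) (nat_lit 0) (p (nat_lit 0x10587060502) (nat_lit 0) (p (nat_lit 0x506858482)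 (nat_lit 0) (p (nat_lit 0x16000c) (nat_lit 0) (p (nat_lit 0x68612) (nat_lit 0) (p (nat_lit 0x50592) (nat_lit 0) (p (nat_lit 0x38512) (nat_lit 0) (p (nat_lit 0x50392) (nat_lit 0) (p (nat_lit 0x38312) (nat_lit 0) (p (nat_lit 0x20292) (nat_lit 0) (p (nat_lit 0x38112) (nat_lit 0) (p (nat_lit 0x20092) (nat_lit 0) (p (nat_lit 0x8012) (nat_lit 0) pn))))))))))))))))))))))))))) :=
  Cl.node (nat_lit 0x200014) (nat_lit 2) (by decide +kernel) (ClAll.succ (ClAll.succ ClAll.zero s59) s60)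

def n34 : Cl (O (nat_lit 5)) (R (nat_lit 14465))
    (p (nat_lit 0x200004) (nat_lit 0) (p (nat_lit 0xd1) (nat_lit 1) (p (nat_lit 0x109) (nat_lit 1) (p (nat_lit 0x101) (nat_lit 0) (p (nat_lit 0x119) (nat_lit 0) (p (nat_lit 0xc9) (nat_lit 0) (p (nat_lit 0x89) (nat_lit 1) (p (nat_lit 0x41) (nat_lit 0) (p (nat_lit 0x10a0b0a89889a) (nat_lit 0) (p (nat_lit 0x98a8a09081a) (nat_lit 0) (p (nat_lit 0x109080988879a) (nat_lit 0) (p (nat_lit 0x8878908071a) (nat_lit 0) (p (nat_lit 0x8000000000800080887868a) (nat_lit 0) (p (nat_lit 0x10888070602) (nat_lit 0) (p (nat_lit 0x807868582) (nat_lit 0) (p (nat_lit 0x10587060502) (nat_lit 0) (p (nat_lit 0x506858482) (nat_lit 0) (p (nat_lit 0x16000c) (nat_lit 0) (p (nat_lit 0x68612) (nat_lit 0) (p (nat_lit 0x50592) (nat_lit 0) (p (nat_lit 0x38512) (nat_lit 0) (p (nat_lit 0x50392) (nat_lit 0) (p (nat_lit 0x38312) (nat_lit 0) (p (nat_lit 0x20292) (nat_lit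 0) (p (nat_lit 0x38112) (nat_lit 0) (p (nat_lit 0x20092) (nat_lit 0) (p (nat_lit 0x8012) (nat_lit 0) pn))))))))))))))))))))))))))) :=
  Cl.node (nat_lit 0x200014) (nat_lit 2) (by decide +kernel) (ClAll.succ (ClAll.succ ClAll.zero n15) s65)

def n35 : Cl (O (nat_lit 5)) (R (nat_lit 14465))
    (p (nat_lit 0x200004) (nat_lit 1) (p (nat_lit 0xd1) (nat_lit 1) (p (nat_lit 0x109) (nat_lit 1) (p (nat_lit 0x101) (nat_lit 0) (p (nat_lit 0x119) (nat_lit 0) (p (nat_lit 0xc9) (nat_lit 0) (p (nat_lit 0x89) (nat_lit 1) (p (nat_lit 0x41) (nat_lit 0) (p (nat_lit 0x10a0b0a89889a) (nat_lit 0) (p (nat_lit 0x98a8a09081a) (nat_lit 0) (p (nat_lit 0x109080988879a) (nat_lit 0) (p (nat_lit 0x8878908071a) (nat_lit 0) (p (nat_lit 0x8000000000800080887868a) (nat_lit 0) (p (nat_lit 0x10888070602) (nat_lit 0) (p (nat_lit 0x807868582) (nat_lit 0) (p (nat_lit 0x10587060502) (nat_lit 0) (p (nat_lit 0x506858482)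 (nat_lit 0) (p (nat_lit 0x16000c) (nat_lit 0) (p (nat_lit 0x68612) (nat_lit 0) (p (nat_lit 0x50592) (nat_lit 0) (p (nat_lit 0x38512) (nat_lit 0) (p (nat_lit 0x50392) (nat_lit 0) (p (nat_lit 0x38312) (nat_lit 0) (p (nat_lit 0x20292) (nat_lit 0) (p (nat_lit 0x38112) (nat_lit 0) (p (nat_lit 0x20092) (nat_lit 0) (p (nat_lit 0x8012) (nat_lit 0) pn))))))))))))))))))))))))))) :=
  Cl.node (nat_lit 0xb000c) (nat_lit 2) (by decide +kernel) (ClAll.succ (ClAll.succ ClAll.zero n16) s68)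

def n36 : Cl (O (nat_lit 5)) (R (nat_lit 14465))
    (p (nat_lit 0x200004) (nat_lit 0) (p (nat_lit 0xd1) (nat_lit 0) (p (nat_lit 0xc1) (nat_lit 0) (p (nat_lit 0x101) (nat_lit 1) (p (nat_lit 0x119) (nat_lit 0) (p (nat_lit 0xc9) (nat_lit 0) (p (nat_lit 0x89) (nat_lit 1) (p (nat_lit 0x41) (nat_lit 0) (p (nat_lit 0x10a0b0a89889a) (nat_lit 0) (p (nat_lit 0x98a8a09081a) (nat_lit 0) (p (nat_lit 0x109080988879a) (nat_lit 0) (p (nat_lit 0x8878908071a) (nat_lit 0) (p (nat_lit 0x8000000000800080887868a) (nat_lit 0) (p (nat_lit 0x10888070602) (nat_lit 0) (p (nat_lit 0x807868582) (nat_lit 0) (p (nat_lit 0x10587060502) (nat_lit 0) (p (nat_lit 0x506858482) (nat_lit 0) (p (nat_lit 0x16000c) (nat_lit 0) (p (nat_lit 0x68612) (nat_lit 0) (p (nat_lit 0x50592) (nat_lit 0) (p (nat_lit 0x38512) (nat_lit 0) (p (nat_lit 0x50392) (nat_lit 0) (p (nat_lit 0x38312) (nat_lit 0) (p (nat_lit 0x20292) (nat_lit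 0) (p (nat_lit 0x38112) (nat_lit 0) (p (nat_lit 0x20092) (nat_lit 0) (p (nat_lit 0x8012) (nat_lit 0) pn))))))))))))))))))))))))))) :=
  Cl.node (nat_lit 0x200014) (nat_lit 2) (by decide +kernel) (ClAll.succ (ClAll.succ ClAll.zero s69) s70)

def n37 : Cl (O (nat_lit 5)) (R (nat_lit 14465))
    (p (nat_lit 0x200004) (nat_lit 1) (p (nat_lit 0xd1) (nat_lit 1) (p (nat_lit 0xc1) (nat_lit 0) (p (nat_lit 0x101) (nat_lit 1) (p (nat_lit 0x119) (nat_lit 0) (p (nat_lit 0xc9) (nat_lit 0) (p (nat_lit 0x89) (nat_lit 1) (p (nat_lit 0x41) (nat_lit 0) (p (nat_lit 0x10a0b0a89889a) (nat_lit 0) (p (nat_lit 0x98a8a09081a) (nat_lit 0) (p (nat_lit 0x109080988879a) (nat_lit 0) (p (nat_lit 0x8878908071a) (nat_lit 0) (p (nat_lit 0x8000000000800080887868a) (nat_lit 0) (p (nat_lit 0x10888070602) (nat_lit 0) (p (nat_lit 0x807868582) (nat_lit 0) (p (nat_lit 0x10587060502) (nat_lit 0) (p (nat_lit 0x506858482)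 (nat_lit 0) (p (nat_lit 0x16000c) (nat_lit 0) (p (nat_lit 0x68612) (nat_lit 0) (p (nat_lit 0x50592) (nat_lit 0) (p (nat_lit 0x38512) (nat_lit 0) (p (nat_lit 0x50392) (nat_lit 0) (p (nat_lit 0x38312) (nat_lit 0) (p (nat_lit 0x20292) (nat_lit 0) (p (nat_lit 0x38112) (nat_lit 0) (p (nat_lit 0x20092) (nat_lit 0) (p (nat_lit 0x8012) (nat_lit 0) pn))))))))))))))))))))))))))) :=
  Cl.node (nat_lit 0xb000c) (nat_lit 2) (by decide +kernel) (ClAll.succ (ClAll.succ ClAll.zero n17) s75)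

def n38 : Cl (O (nat_lit 5)) (R (nat_lit 14465))
    (p (nat_lit 0x200004) (nat_lit 0) (p (nat_lit 0x111) (nat_lit 1) (p (nat_lit 0xd1) (nat_lit 1) (p (nat_lit 0xc1) (nat_lit 0) (p (nat_lit 0x119) (nat_lit 1) (p (nat_lit 0xc9) (nat_lit 0) (p (nat_lit 0x89) (nat_lit 1) (p (nat_lit 0x41) (nat_lit 0) (p (nat_lit 0x10a0b0a89889a) (nat_lit 0) (p (nat_lit 0x98a8a09081a) (nat_lit 0) (p (nat_lit 0x109080988879a) (nat_lit 0) (p (nat_lit 0x8878908071a) (nat_lit 0) (p (nat_lit 0x8000000000800080887868a) (nat_lit 0) (p (nat_lit 0x10888070602) (nat_lit 0) (p (nat_lit 0x807868582) (nat_lit 0) (p (nat_lit 0x10587060502) (nat_lit 0) (p (nat_lit 0x506858482) (nat_lit 0) (p (nat_lit 0x16000c) (nat_lit 0) (p (nat_lit 0x68612) (nat_lit 0) (p (nat_lit 0x50592) (nat_lit 0) (p (nat_lit 0x38512) (nat_lit 0) (p (nat_lit 0x50392) (nat_lit 0) (p (nat_lit 0x38312) (nat_lit 0) (p (nat_lit 0x20292) (nat_lit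 0) (p (nat_lit 0x38112) (nat_lit 0) (p (nat_lit 0x20092) (nat_lit 0) (p (nat_lit 0x8012) (nat_lit 0) pn))))))))))))))))))))))))))) :=
  Cl.node (nat_lit 0x200014) (nat_lit 2) (by decide +kernel) (ClAll.succ (ClAll.succ ClAll.zero s79) s80)

def n39 : Cl (O (nat_lit 5)) (R (nat_lit 14465))
    (p (nat_lit 0x200004) (nat_lit 0) (p (nat_lit 0x111) (nat_lit 1) (p (nat_lit 0x101) (nat_lit 0) (p (nat_lit 0xc1) (nat_lit 1) (p (nat_lit 0x119) (nat_lit 1) (p (nat_lit 0xc9) (nat_lit 0) (p (nat_lit 0x89) (nat_lit 1) (p (nat_lit 0x41) (nat_lit 0) (p (nat_lit 0x10a0b0a89889a) (nat_lit 0) (p (nat_lit 0x98a8a09081a) (nat_lit 0) (p (nat_lit 0x109080988879a) (nat_lit 0) (p (nat_lit 0x8878908071a) (nat_lit 0) (p (nat_lit 0x8000000000800080887868a) (nat_lit 0) (p (nat_lit 0x10888070602) (nat_lit 0) (p (nat_lit 0x807868582) (nat_lit 0) (p (nat_lit 0x10587060502) (nat_lit 0) (p (nat_lit 0x506858482)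 (nat_lit 0) (p (nat_lit 0x16000c) (nat_lit 0) (p (nat_lit 0x68612) (nat_lit 0) (p (nat_lit 0x50592) (nat_lit 0) (p (nat_lit 0x38512) (nat_lit 0) (p (nat_lit 0x50392) (nat_lit 0) (p (nat_lit 0x38312) (nat_lit 0) (p (nat_lit 0x20292) (nat_lit 0) (p (nat_lit 0x38112) (nat_lit 0) (p (nat_lit 0x20092) (nat_lit 0) (p (nat_lit 0x8012) (nat_lit 0) pn))))))))))))))))))))))))))) :=
  Cl.node (nat_lit 0x200014) (nat_lit 2) (by decide +kernel) (ClAll.succ (ClAll.succ ClAll.zero s83) s84)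

def n40 : Cl (O (nat_lit 5)) (R (nat_lit 14465))
    (p (nat_lit 0xb000c) (nat_lit 0) (p (nat_lit 0x200004) (nat_lit 1) (p (nat_lit 0x101) (nat_lit 1) (p (nat_lit 0xc1) (nat_lit 1) (p (nat_lit 0x119) (nat_lit 1) (p (nat_lit 0xc9) (nat_lit 0) (p (nat_lit 0x89) (nat_lit 1) (p (nat_lit 0x41) (nat_lit 0) (p (nat_lit 0x10a0b0a89889a) (nat_lit 0) (p (nat_lit 0x98a8a09081a) (nat_lit 0) (p (nat_lit 0x109080988879a) (nat_lit 0) (p (nat_lit 0x8878908071a) (nat_lit 0) (p (nat_lit 0x8000000000800080887868a) (nat_lit 0) (p (nat_lit 0x10888070602) (nat_lit 0) (p (nat_lit 0x807868582) (nat_lit 0) (p (nat_lit 0x10587060502) (nat_lit 0) (p (nat_lit 0x506858482) (nat_lit 0) (p (nat_lit 0x16000c) (nat_lit 0) (p (nat_lit 0x68612) (nat_lit 0) (p (nat_lit 0x50592) (nat_lit 0) (p (nat_lit 0x38512) (nat_lit 0) (p (nat_lit 0x50392) (nat_lit 0) (p (nat_lit 0x38312) (nat_lit 0) (p (nat_lit 0x20292) (nat_lit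 0) (p (nat_lit 0x38112) (nat_lit 0) (p (nat_lit 0x20092) (nat_lit 0) (p (nat_lit 0x8012) (nat_lit 0) pn))))))))))))))))))))))))))) :=
  Cl.node (nat_lit 0x200014) (nat_lit 2) (by decide +kernel) (ClAll.succ (ClAll.succ ClAll.zero s87) s88)

def n41 : Cl (O (nat_lit 5)) (R (nat_lit 14465))
    (p (nat_lit 0xc9) (nat_lit 1) (p (nat_lit 0x89) (nat_lit 1) (p (nat_lit 0xc1) (nat_lit 0) (p (nat_lit 0x101) (nat_lit 1) (p (nat_lit 0x119) (nat_lit 0) (p (nat_lit 0xd1) (nat_lit 0) (p (nat_lit 0x81) (nat_lit 0) (p (nat_lit 0x41) (nat_lit 1) (p (nat_lit 0x10a0b0a89889a) (nat_lit 0) (p (nat_lit 0x98a8a09081a) (nat_lit 0) (p (nat_lit 0x109080988879a) (nat_lit 0) (p (nat_lit 0x8878908071a) (nat_lit 0) (p (nat_lit 0x8000000000800080887868a) (nat_lit 0) (p (nat_lit 0x10888070602) (nat_lit 0) (p (nat_lit 0x807868582) (nat_lit 0) (p (nat_lit 0x10587060502) (nat_lit 0) (p (nat_lit 0x506858482) (nat_lit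 0) (p (nat_lit 0x16000c) (nat_lit 0) (p (nat_lit 0x68612) (nat_lit 0) (p (nat_lit 0x50592) (nat_lit 0) (p (nat_lit 0x38512) (nat_lit 0) (p (nat_lit 0x50392) (nat_lit 0) (p (nat_lit 0x38312) (nat_lit 0) (p (nat_lit 0x20292) (nat_lit 0) (p (nat_lit 0x38112) (nat_lit 0) (p (nat_lit 0x20092) (nat_lit 0) (p (nat_lit 0x8012) (nat_lit 0) pn))))))))))))))))))))))))))) :=
  Cl.node (nat_lit 0x200004) (nat_lit 2) (by decide +kernel) (ClAll.succ (ClAll.succ ClAll.zero s103) s104)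

def n42 : Cl (O (nat_lit 5)) (R (nat_lit 14465))
    (p (nat_lit 0x200004) (nat_lit 0) (p (nat_lit 0x89) (nat_lit 1) (p (nat_lit 0xc1) (nat_lit 1) (p (nat_lit 0x101) (nat_lit 1) (p (nat_lit 0x119) (nat_lit 0) (p (nat_lit 0xd1) (nat_lit 0) (p (nat_lit 0x81) (nat_lit 0) (p (nat_lit 0x41) (nat_lit 1) (p (nat_lit 0x10a0b0a89889a) (nat_lit 0) (p (nat_lit 0x98a8a09081a) (nat_lit 0) (p (nat_lit 0x109080988879a) (nat_lit 0) (p (nat_lit 0x8878908071a) (nat_lit 0) (p (nat_lit 0x8000000000800080887868a) (nat_lit 0) (p (nat_lit 0x10888070602) (nat_lit 0) (p (nat_lit 0x807868582) (nat_lit 0) (p (nat_lit 0x10587060502) (nat_lit 0) (p (nat_lit 0x506858482) (nat_lit 0) (p (nat_lit 0x16000c) (nat_lit 0) (p (nat_lit 0x68612) (nat_lit 0) (p (nat_lit 0x50592) (nat_lit 0) (p (nat_lit 0x38512) (nat_lit 0) (p (nat_lit 0x50392) (nat_lit 0) (p (nat_lit 0x38312) (nat_lit 0) (p (nat_lit 0x20292) (nat_lit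 0) (p (nat_lit 0x38112) (nat_lit 0) (p (nat_lit 0x20092) (nat_lit 0) (p (nat_lit 0x8012) (nat_lit 0) pn))))))))))))))))))))))))))) :=
  Cl.node (nat_lit 0x200014) (nat_lit 2) (by decide +kernel) (ClAll.succ (ClAll.succ ClAll.zero s106) n18)

def n43 : Cl (O (nat_lit 5)) (R (nat_lit 14465))
    (p (nat_lit 0x109) (nat_lit 0) (p (nat_lit 0x89) (nat_lit 1) (p (nat_lit 0xc9) (nat_lit 1) (p (nat_lit 0xc1) (nat_lit 0) (p (nat_lit 0x119) (nat_lit 1) (p (nat_lit 0xd1) (nat_lit 0) (p (nat_lit 0x81) (nat_lit 0) (p (nat_lit 0x41) (nat_lit 1) (p (nat_lit 0x10a0b0a89889a) (nat_lit 0) (p (nat_lit 0x98a8a09081a) (nat_lit 0) (p (nat_lit 0x109080988879a) (nat_lit 0) (p (nat_lit 0x8878908071a) (nat_lit 0) (p (nat_lit 0x8000000000800080887868a) (nat_lit 0) (p (nat_lit 0x10888070602) (nat_lit 0) (p (nat_lit 0x807868582) (nat_lit 0) (p (nat_lit 0x10587060502) (nat_lit 0) (p (nat_lit 0x506858482)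 (nat_lit 0) (p (nat_lit 0x16000c) (nat_lit 0) (p (nat_lit 0x68612) (nat_lit 0) (p (nat_lit 0x50592) (nat_lit 0) (p (nat_lit 0x38512) (nat_lit 0) (p (nat_lit 0x50392) (nat_lit 0) (p (nat_lit 0x38312) (nat_lit 0) (p (nat_lit 0x20292) (nat_lit 0) (p (nat_lit 0x38112) (nat_lit 0) (p (nat_lit 0x20092) (nat_lit 0) (p (nat_lit 0x8012) (nat_lit 0) pn))))))))))))))))))))))))))) :=
  Cl.node (nat_lit 0x200004) (nat_lit 2) (by decide +kernel) (ClAll.succ (ClAll.succ ClAll.zero s113) s114)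

def n44 : Cl (O (nat_lit 5)) (R (nat_lit 14465))
    (p (nat_lit 0x109) (nat_lit 1) (p (nat_lit 0x89) (nat_lit 1) (p (nat_lit 0xc9) (nat_lit 1) (p (nat_lit 0xc1) (nat_lit 0) (p (nat_lit 0x119) (nat_lit 1) (p (nat_lit 0xd1) (nat_lit 0) (p (nat_lit 0x81) (nat_lit 0) (p (nat_lit 0x41) (nat_lit 1) (p (nat_lit 0x10a0b0a89889a) (nat_lit 0) (p (nat_lit 0x98a8a09081a) (nat_lit 0) (p (nat_lit 0x109080988879a) (nat_lit 0) (p (nat_lit 0x8878908071a) (nat_lit 0) (p (nat_lit 0x8000000000800080887868a) (nat_lit 0) (p (nat_lit 0x10888070602) (nat_lit 0) (p (nat_lit 0x807868582) (nat_lit 0) (p (nat_lit 0x10587060502) (nat_lit 0) (p (nat_lit 0x506858482) (nat_lit 0) (p (nat_lit 0x16000c) (nat_lit 0) (p (nat_lit 0x68612) (nat_lit 0) (p (nat_lit 0x50592) (nat_lit 0) (p (nat_lit 0x38512) (nat_lit 0) (p (nat_lit 0x50392) (nat_lit 0) (p (nat_lit 0x38312) (nat_lit 0) (p (nat_lit 0x20292) (nat_lit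 0) (p (nat_lit 0x38112) (nat_lit 0) (p (nat_lit 0x20092) (nat_lit 0) (p (nat_lit 0x8012) (nat_lit 0) pn))))))))))))))))))))))))))) :=
  Cl.node (nat_lit 0x200004) (nat_lit 2) (by decide +kernel) (ClAll.succ (ClAll.succ ClAll.zero s115) n19)

def n45 : Cl (O (nat_lit 5)) (R (nat_lit 14465))
    (p (nat_lit 0x109) (nat_lit 0) (p (nat_lit 0x89) (nat_lit 1) (p (nat_lit 0x101) (nat_lit 0) (p (nat_lit 0xc1) (nat_lit 1) (p (nat_lit 0x119) (nat_lit 1) (p (nat_lit 0xd1) (nat_lit 0) (p (nat_lit 0x81) (nat_lit 0) (p (nat_lit 0x41) (nat_lit 1) (p (nat_lit 0x10a0b0a89889a) (nat_lit 0) (p (nat_lit 0x98a8a09081a) (nat_lit 0) (p (nat_lit 0x109080988879a) (nat_lit 0) (p (nat_lit 0x8878908071a) (nat_lit 0) (p (nat_lit 0x8000000000800080887868a) (nat_lit 0) (p (nat_lit 0x10888070602) (nat_lit 0) (p (nat_lit 0x807868582) (nat_lit 0) (p (nat_lit 0x10587060502) (nat_lit 0) (p (nat_lit 0x506858482)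 (nat_lit 0) (p (nat_lit 0x16000c) (nat_lit 0) (p (nat_lit 0x68612) (nat_lit 0) (p (nat_lit 0x50592) (nat_lit 0) (p (nat_lit 0x38512) (nat_lit 0) (p (nat_lit 0x50392) (nat_lit 0) (p (nat_lit 0x38312) (nat_lit 0) (p (nat_lit 0x20292) (nat_lit 0) (p (nat_lit 0x38112) (nat_lit 0) (p (nat_lit 0x20092) (nat_lit 0) (p (nat_lit 0x8012) (nat_lit 0) pn))))))))))))))))))))))))))) :=
  Cl.node (nat_lit 0x200004) (nat_lit 2) (by decide +kernel) (ClAll.succ (ClAll.succ ClAll.zero s120) s121)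

def n46 : Cl (O (nat_lit 5)) (R (nat_lit 14465))
    (p (nat_lit 0x109) (nat_lit 1) (p (nat_lit 0x89) (nat_lit 1) (p (nat_lit 0x101) (nat_lit 0) (p (nat_lit 0xc1) (nat_lit 1) (p (nat_lit 0x119) (nat_lit 1) (p (nat_lit 0xd1) (nat_lit 0) (p (nat_lit 0x81) (nat_lit 0) (p (nat_lit 0x41) (nat_lit 1) (p (nat_lit 0x10a0b0a89889a) (nat_lit 0) (p (nat_lit 0x98a8a09081a) (nat_lit 0) (p (nat_lit 0x109080988879a) (nat_lit 0) (p (nat_lit 0x8878908071a) (nat_lit 0) (p (nat_lit 0x8000000000800080887868a) (nat_lit 0) (p (nat_lit 0x10888070602) (nat_lit 0) (p (nat_lit 0x807868582) (nat_lit 0) (p (nat_lit 0x10587060502) (nat_lit 0) (p (nat_lit 0x506858482) (nat_lit 0) (p (nat_lit 0x16000c) (nat_lit 0) (p (nat_lit 0x68612) (nat_lit 0) (p (nat_lit 0x50592) (nat_lit 0) (p (nat_lit 0x38512) (nat_lit 0) (p (nat_lit 0x50392) (nat_lit 0) (p (nat_lit 0x38312) (nat_lit 0) (p (nat_lit 0x20292) (nat_lit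 0) (p (nat_lit 0x38112) (nat_lit 0) (p (nat_lit 0x20092) (nat_lit 0) (p (nat_lit 0x8012) (nat_lit 0) pn))))))))))))))))))))))))))) :=
  Cl.node (nat_lit 0x200004) (nat_lit 2) (by decide +kernel) (ClAll.succ (ClAll.succ ClAll.zero s122) s123)

def n47 : Cl (O (nat_lit 5)) (R (nat_lit 14465))
    (p (nat_lit 0x200004) (nat_lit 0) (p (nat_lit 0x89) (nat_lit 1) (p (nat_lit 0x101) (nat_lit 1) (p (nat_lit 0xc1) (nat_lit 1) (p (nat_lit 0x119) (nat_lit 1) (p (nat_lit 0xd1) (nat_lit 0) (p (nat_lit 0x81) (nat_lit 0) (p (nat_lit 0x41) (nat_lit 1) (p (nat_lit 0x10a0b0a89889a) (nat_lit 0) (p (nat_lit 0x98a8a09081a) (nat_lit 0) (p (nat_lit 0x109080988879a) (nat_lit 0) (p (nat_lit 0x8878908071a) (nat_lit 0) (p (nat_lit 0x8000000000800080887868a) (nat_lit 0) (p (nat_lit 0x10888070602) (nat_lit 0) (p (nat_lit 0x807868582) (nat_lit 0) (p (nat_lit 0x10587060502) (nat_lit 0) (p (nat_lit 0x506858482)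 (nat_lit 0) (p (nat_lit 0x16000c) (nat_lit 0) (p (nat_lit 0x68612) (nat_lit 0) (p (nat_lit 0x50592) (nat_lit 0) (p (nat_lit 0x38512) (nat_lit 0) (p (nat_lit 0x50392) (nat_lit 0) (p (nat_lit 0x38312) (nat_lit 0) (p (nat_lit 0x20292) (nat_lit 0) (p (nat_lit 0x38112) (nat_lit 0) (p (nat_lit 0x20092) (nat_lit 0) (p (nat_lit 0x8012) (nat_lit 0) pn))))))))))))))))))))))))))) :=
  Cl.node (nat_lit 0x200014) (nat_lit 2) (by decide +kernel) (ClAll.succ (ClAll.succ ClAll.zero s125) n20)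

def n48 : Cl (O (nat_lit 5)) (R (nat_lit 14465))
    (p (nat_lit 0xc9) (nat_lit 0) (p (nat_lit 0x89) (nat_lit 1) (p (nat_lit 0x109) (nat_lit 1) (p (nat_lit 0x101) (nat_lit 0) (p (nat_lit 0x111) (nat_lit 0) (p (nat_lit 0xd1) (nat_lit 1) (p (nat_lit 0x81) (nat_lit 0) (p (nat_lit 0x41) (nat_lit 1) (p (nat_lit 0x10a0b0a89889a) (nat_lit 0) (p (nat_lit 0x98a8a09081a) (nat_lit 0) (p (nat_lit 0x109080988879a) (nat_lit 0) (p (nat_lit 0x8878908071a) (nat_lit 0) (p (nat_lit 0x8000000000800080887868a) (nat_lit 0) (p (nat_lit 0x10888070602) (nat_lit 0) (p (nat_lit 0x807868582) (nat_lit 0) (p (nat_lit 0x10587060502) (nat_lit 0) (p (nat_lit 0x506858482) (nat_lit 0) (p (nat_lit 0x16000c) (nat_lit 0) (p (nat_lit 0x68612) (nat_lit 0) (p (nat_lit 0x50592) (nat_lit 0) (p (nat_lit 0x38512) (nat_lit 0) (p (nat_lit 0x50392) (nat_lit 0) (p (nat_lit 0x38312) (nat_lit 0) (p (nat_lit 0x20292) (nat_lit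 0) (p (nat_lit 0x38112) (nat_lit 0) (p (nat_lit 0x20092) (nat_lit 0) (p (nat_lit 0x8012) (nat_lit 0) pn))))))))))))))))))))))))))) :=
  Cl.node (nat_lit 0x200004) (nat_lit 2) (by decide +kernel) (ClAll.succ (ClAll.succ ClAll.zero s133) s134)

def n49 : Cl (O (nat_lit 5)) (R (nat_lit 14465))
    (p (nat_lit 0x200004) (nat_lit 0) (p (nat_lit 0xc9) (nat_lit 0) (p (nat_lit 0x89) (nat_lit 1) (p (nat_lit 0x101) (nat_lit 1) (p (nat_lit 0x111) (nat_lit 0) (p (nat_lit 0xd1) (nat_lit 1) (p (nat_lit 0x81) (nat_lit 0) (p (nat_lit 0x41) (nat_lit 1) (p (nat_lit 0x10a0b0a89889a) (nat_lit 0) (p (nat_lit 0x98a8a09081a) (nat_lit 0) (p (nat_lit 0x109080988879a) (nat_lit 0) (p (nat_lit 0x8878908071a) (nat_lit 0) (p (nat_lit 0x8000000000800080887868a) (nat_lit 0) (p (nat_lit 0x10888070602) (nat_lit 0) (p (nat_lit 0x807868582) (nat_lit 0) (p (nat_lit 0x10587060502) (nat_lit 0) (p (nat_lit 0x506858482)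 (nat_lit 0) (p (nat_lit 0x16000c) (nat_lit 0) (p (nat_lit 0x68612) (nat_lit 0) (p (nat_lit 0x50592) (nat_lit 0) (p (nat_lit 0x38512) (nat_lit 0) (p (nat_lit 0x50392) (nat_lit 0) (p (nat_lit 0x38312) (nat_lit 0) (p (nat_lit 0x20292) (nat_lit 0) (p (nat_lit 0x38112) (nat_lit 0) (p (nat_lit 0x20092) (nat_lit 0) (p (nat_lit 0x8012) (nat_lit 0) pn))))))))))))))))))))))))))) :=
  Cl.node (nat_lit 0x200014) (nat_lit 2) (by decide +kernel) (ClAll.succ (ClAll.succ ClAll.zero s139) n21)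

def n50 : Cl (O (nat_lit 5)) (R (nat_lit 14465))
    (p (nat_lit 0xd1) (nat_lit 1) (p (nat_lit 0x111) (nat_lit 1) (p (nat_lit 0x109) (nat_lit 0) (p (nat_lit 0x101) (nat_lit 0) (p (nat_lit 0x119) (nat_lit 0) (p (nat_lit 0xc1) (nat_lit 0) (p (nat_lit 0x81) (nat_lit 1) (p (nat_lit 0x41) (nat_lit 1) (p (nat_lit 0x10a0b0a89889a) (nat_lit 0) (p (nat_lit 0x98a8a09081a) (nat_lit 0) (p (nat_lit 0x109080988879a) (nat_lit 0) (p (nat_lit 0x8878908071a) (nat_lit 0) (p (nat_lit 0x8000000000800080887868a) (nat_lit 0) (p (nat_lit 0x10888070602) (nat_lit 0) (p (nat_lit 0x807868582) (nat_lit 0) (p (nat_lit 0x10587060502) (nat_lit 0) (p (nat_lit 0x506858482) (nat_lit 0) (p (nat_lit 0x16000c) (nat_lit 0) (p (nat_lit 0x68612) (nat_lit 0) (p (nat_lit 0x50592) (nat_lit 0) (p (nat_lit 0x38512) (nat_lit 0) (p (nat_lit 0x50392) (nat_lit 0) (p (nat_lit 0x38312) (nat_lit 0) (p (nat_lit 0x20292) (nat_lit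 0) (p (nat_lit 0x38112) (nat_lit 0) (p (nat_lit 0x20092) (nat_lit 0) (p (nat_lit 0x8012) (nat_lit 0) pn))))))))))))))))))))))))))) :=
  Cl.node (nat_lit 0x200004) (nat_lit 2) (by decide +kernel) (ClAll.succ (ClAll.succ ClAll.zero s153) s154)

def n51 : Cl (O (nat_lit 5)) (R (nat_lit 14465))
    (p (nat_lit 0xd1) (nat_lit 1) (p (nat_lit 0xc9) (nat_lit 0) (p (nat_lit 0x109) (nat_lit 1) (p (nat_lit 0x101) (nat_lit 0) (p (nat_lit 0x119) (nat_lit 0) (p (nat_lit 0xc1) (nat_lit 0) (p (nat_lit 0x81) (nat_lit 1) (p (nat_lit 0x41) (nat_lit 1) (p (nat_lit 0x10a0b0a89889a) (nat_lit 0) (p (nat_lit 0x98a8a09081a) (nat_lit 0) (p (nat_lit 0x109080988879a) (nat_lit 0) (p (nat_lit 0x8878908071a) (nat_lit 0) (p (nat_lit 0x8000000000800080887868a) (nat_lit 0) (p (nat_lit 0x10888070602) (nat_lit 0) (p (nat_lit 0x807868582) (nat_lit 0) (p (nat_lit 0x10587060502) (nat_lit 0) (p (nat_lit 0x506858482)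 (nat_lit 0) (p (nat_lit 0x16000c) (nat_lit 0) (p (nat_lit 0x68612) (nat_lit 0) (p (nat_lit 0x50592) (nat_lit 0) (p (nat_lit 0x38512) (nat_lit 0) (p (nat_lit 0x50392) (nat_lit 0) (p (nat_lit 0x38312) (nat_lit 0) (p (nat_lit 0x20292) (nat_lit 0) (p (nat_lit 0x38112) (nat_lit 0) (p (nat_lit 0x20092) (nat_lit 0) (p (nat_lit 0x8012) (nat_lit 0) pn))))))))))))))))))))))))))) :=
  Cl.node (nat_lit 0x200004) (nat_lit 2) (by decide +kernel) (ClAll.succ (ClAll.succ ClAll.zero s156) s157)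

def n52 : Cl (O (nat_lit 5)) (R (nat_lit 14465))
    (p (nat_lit 0x200004) (nat_lit 0) (p (nat_lit 0xd1) (nat_lit 1) (p (nat_lit 0xc9) (nat_lit 0) (p (nat_lit 0x101) (nat_lit 1) (p (nat_lit 0x119) (nat_lit 0) (p (nat_lit 0xc1) (nat_lit 0) (p (nat_lit 0x81) (nat_lit 1) (p (nat_lit 0x41) (nat_lit 1) (p (nat_lit 0x10a0b0a89889a) (nat_lit 0) (p (nat_lit 0x98a8a09081a) (nat_lit 0) (p (nat_lit 0x109080988879a) (nat_lit 0) (p (nat_lit 0x8878908071a) (nat_lit 0) (p (nat_lit 0x8000000000800080887868a) (nat_lit 0) (p (nat_lit 0x10888070602) (nat_lit 0) (p (nat_lit 0x807868582) (nat_lit 0) (p (nat_lit 0x10587060502) (nat_lit 0) (p (nat_lit 0x506858482) (nat_lit 0) (p (nat_lit 0x16000c) (nat_lit 0) (p (nat_lit 0x68612) (nat_lit 0) (p (nat_lit 0x50592) (nat_lit 0) (p (nat_lit 0x38512) (nat_lit 0) (p (nat_lit 0x50392) (nat_lit 0) (p (nat_lit 0x38312) (nat_lit 0) (p (nat_lit 0x20292) (nat_lit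 0) (p (nat_lit 0x38112) (nat_lit 0) (p (nat_lit 0x20092) (nat_lit 0) (p (nat_lit 0x8012) (nat_lit 0) pn))))))))))))))))))))))))))) :=
  Cl.node (nat_lit 0x200014) (nat_lit 2) (by decide +kernel) (ClAll.succ (ClAll.succ ClAll.zero s161) s162)

def n53 : Cl (O (nat_lit 5)) (R (nat_lit 14465))
    (p (nat_lit 0x200004) (nat_lit 0) (p (nat_lit 0x111) (nat_lit 1) (p (nat_lit 0x109) (nat_lit 0) (p (nat_lit 0xc9) (nat_lit 1) (p (nat_lit 0x119) (nat_lit 1) (p (nat_lit 0xc1) (nat_lit 0) (p (nat_lit 0x81) (nat_lit 1) (p (nat_lit 0x41) (nat_lit 1) (p (nat_lit 0x10a0b0a89889a) (nat_lit 0) (p (nat_lit 0x98a8a09081a) (nat_lit 0) (p (nat_lit 0x109080988879a) (nat_lit 0) (p (nat_lit 0x8878908071a) (nat_lit 0) (p (nat_lit 0x8000000000800080887868a) (nat_lit 0) (p (nat_lit 0x10888070602) (nat_lit 0) (p (nat_lit 0x807868582) (nat_lit 0) (p (nat_lit 0x10587060502) (nat_lit 0) (p (nat_lit 0x506858482)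 (nat_lit 0) (p (nat_lit 0x16000c) (nat_lit 0) (p (nat_lit 0x68612) (nat_lit 0) (p (nat_lit 0x50592) (nat_lit 0) (p (nat_lit 0x38512) (nat_lit 0) (p (nat_lit 0x50392) (nat_lit 0) (p (nat_lit 0x38312) (nat_lit 0) (p (nat_lit 0x20292) (nat_lit 0) (p (nat_lit 0x38112) (nat_lit 0) (p (nat_lit 0x20092) (nat_lit 0) (p (nat_lit 0x8012) (nat_lit 0) pn))))))))))))))))))))))))))) :=
  Cl.node (nat_lit 0x200014) (nat_lit 2) (by decide +kernel) (ClAll.succ (ClAll.succ ClAll.zero s171) s172)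

def n54 : Cl (O (nat_lit 5)) (R (nat_lit 14465))
    (p (nat_lit 0xc9) (nat_lit 1) (p (nat_lit 0x109) (nat_lit 1) (p (nat_lit 0x101) (nat_lit 0) (p (nat_lit 0x119) (nat_lit 0) (p (nat_lit 0xd1) (nat_lit 0) (p (nat_lit 0x89) (nat_lit 0) (p (nat_lit 0x41) (nat_lit 0) (p (nat_lit 0x10a0b0a89889a) (nat_lit 0) (p (nat_lit 0x98a8a09081a) (nat_lit 0) (p (nat_lit 0x109080988879a) (nat_lit 0) (p (nat_lit 0x8878908071a) (nat_lit 0) (p (nat_lit 0x8000000000800080887868a) (nat_lit 0) (p (nat_lit 0x10888070602) (nat_lit 0) (p (nat_lit 0x807868582) (nat_lit 0) (p (nat_lit 0x10587060502) (nat_lit 0) (p (nat_lit 0x506858482) (nat_lit 0) (p (nat_lit 0x16000c) (nat_lit 0) (p (nat_lit 0x68612) (nat_lit 0) (p (nat_lit 0x50592) (nat_lit 0) (p (nat_lit 0x38512) (nat_lit 0) (p (nat_lit 0x50392) (nat_lit 0) (p (nat_lit 0x38312) (nat_lit 0) (p (nat_lit 0x20292) (nat_lit 0) (p (nat_lit 0x38112) (nat_lit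 0) (p (nat_lit 0x20092) (nat_lit 0) (p (nat_lit 0x8012) (nat_lit 0) pn)))))))))))))))))))))))))) :=
  Cl.node (nat_lit 0x200004) (nat_lit 2) (by decide +kernel) (ClAll.succ (ClAll.succ ClAll.zero n22) s4)

def n55 : Cl (O (nat_lit 5)) (R (nat_lit 14465))
    (p (nat_lit 0xc9) (nat_lit 1) (p (nat_lit 0x81) (nat_lit 0) (p (nat_lit 0x101) (nat_lit 1) (p (nat_lit 0x119) (nat_lit 0) (p (nat_lit 0xd1) (nat_lit 0) (p (nat_lit 0x89) (nat_lit 0) (p (nat_lit 0x41) (nat_lit 0) (p (nat_lit 0x10a0b0a89889a) (nat_lit 0) (p (nat_lit 0x98a8a09081a) (nat_lit 0) (p (nat_lit 0x109080988879a) (nat_lit 0) (p (nat_lit 0x8878908071a) (nat_lit 0) (p (nat_lit 0x8000000000800080887868a) (nat_lit 0) (p (nat_lit 0x10888070602) (nat_lit 0) (p (nat_lit 0x807868582) (nat_lit 0) (p (nat_lit 0x10587060502) (nat_lit 0) (p (nat_lit 0x506858482) (nat_lit 0) (p (nat_lit 0x16000c) (nat_lit 0) (p (nat_lit 0x68612)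 (nat_lit 0) (p (nat_lit 0x50592) (nat_lit 0) (p (nat_lit 0x38512) (nat_lit 0) (p (nat_lit 0x50392) (nat_lit 0) (p (nat_lit 0x38312) (nat_lit 0) (p (nat_lit 0x20292) (nat_lit 0) (p (nat_lit 0x38112) (nat_lit 0) (p (nat_lit 0x20092) (nat_lit 0) (p (nat_lit 0x8012) (nat_lit 0) pn)))))))))))))))))))))))))) :=
  Cl.node (nat_lit 0x200004) (nat_lit 2) (by decide +kernel) (ClAll.succ (ClAll.succ ClAll.zero n23) s8)

def n56 : Cl (O (nat_lit 5)) (R (nat_lit 14465))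
    (p (nat_lit 0xc1) (nat_lit 0) (p (nat_lit 0x81) (nat_lit 1) (p (nat_lit 0x101) (nat_lit 1) (p (nat_lit 0x119) (nat_lit 0) (p (nat_lit 0xd1) (nat_lit 0) (p (nat_lit 0x89) (nat_lit 0) (p (nat_lit 0x41) (nat_lit 0) (p (nat_lit 0x10a0b0a89889a) (nat_lit 0) (p (nat_lit 0x98a8a09081a) (nat_lit 0) (p (nat_lit 0x109080988879a) (nat_lit 0) (p (nat_lit 0x8878908071a) (nat_lit 0) (p (nat_lit 0x8000000000800080887868a) (nat_lit 0) (p (nat_lit 0x10888070602) (nat_lit 0) (p (nat_lit 0x807868582) (nat_lit 0) (p (nat_lit 0x10587060502) (nat_lit 0) (p (nat_lit 0x506858482) (nat_lit 0) (p (nat_lit 0x16000c) (nat_lit 0) (p (nat_lit 0x68612) (nat_lit 0) (p (nat_lit 0x50592) (nat_lit 0) (p (nat_lit 0x38512) (nat_lit 0) (p (nat_lit 0x50392) (nat_lit 0) (p (nat_lit 0x38312) (nat_lit 0) (p (nat_lit 0x20292) (nat_lit 0) (p (nat_lit 0x38112) (nat_lit 0) (p (nat_lit 0x20092) (nat_lit 0) (p (nat_lit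 0x8012) (nat_lit 0) pn)))))))))))))))))))))))))) :=
  Cl.node (nat_lit 0xc9) (nat_lit 2) (by decide +kernel) (ClAll.succ (ClAll.succ ClAll.zero s9) n24)

def n57 : Cl (O (nat_lit 5)) (R (nat_lit 14465))
    (p (nat_lit 0x109) (nat_lit 1) (p (nat_lit 0xc9) (nat_lit 1) (p (nat_lit 0xc1) (nat_lit 0) (p (nat_lit 0x119) (nat_lit 1) (p (nat_lit 0xd1) (nat_lit 0) (p (nat_lit 0x89) (nat_lit 0) (p (nat_lit 0x41) (nat_lit 0) (p (nat_lit 0x10a0b0a89889a) (nat_lit 0) (p (nat_lit 0x98a8a09081a) (nat_lit 0) (p (nat_lit 0x109080988879a) (nat_lit 0) (p (nat_lit 0x8878908071a) (nat_lit 0) (p (nat_lit 0x8000000000800080887868a) (nat_lit 0) (p (nat_lit 0x10888070602) (nat_lit 0) (p (nat_lit 0x807868582) (nat_lit 0) (p (nat_lit 0x10587060502) (nat_lit 0) (p (nat_lit 0x506858482) (nat_lit 0) (p (nat_lit 0x16000c) (nat_lit 0) (p (nat_lit 0x68612) (nat_lit 0) (p (nat_lit 0x50592) (nat_lit 0) (p (nat_lit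 0x38512) (nat_lit 0) (p (nat_lit 0x50392) (nat_lit 0) (p (nat_lit 0x38312) (nat_lit 0) (p (nat_lit 0x20292) (nat_lit 0) (p (nat_lit 0x38112) (nat_lit 0) (p (nat_lit 0x20092) (nat_lit 0) (p (nat_lit 0x8012) (nat_lit 0) pn)))))))))))))))))))))))))) :=
  Cl.node (nat_lit 0x200004) (nat_lit 2) (by decide +kernel) (ClAll.succ (ClAll.succ ClAll.zero s15) s16)

def n58 : Cl (O (nat_lit 5)) (R (nat_lit 14465))
    (p (nat_lit 0x109) (nat_lit 1) (p (nat_lit 0x81) (nat_lit 0) (p (nat_lit 0xc1) (nat_lit 1) (p (nat_lit 0x119) (nat_lit 1) (p (nat_lit 0xd1) (nat_lit 0) (p (nat_lit 0x89) (nat_lit 0) (p (nat_lit 0x41) (nat_lit 0) (p (nat_lit 0x10a0b0a89889a) (nat_lit 0) (p (nat_lit 0x98a8a09081a) (nat_lit 0) (p (nat_lit 0x109080988879a) (nat_lit 0) (p (nat_lit 0x8878908071a) (nat_lit 0) (p (nat_lit 0x8000000000800080887868a) (nat_lit 0) (p (nat_lit 0x10888070602) (nat_lit 0) (p (nat_lit 0x807868582)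 (nat_lit 0) (p (nat_lit 0x10587060502) (nat_lit 0) (p (nat_lit 0x506858482) (nat_lit 0) (p (nat_lit 0x16000c) (nat_lit 0) (p (nat_lit 0x68612) (nat_lit 0) (p (nat_lit 0x50592) (nat_lit 0) (p (nat_lit 0x38512) (nat_lit 0) (p (nat_lit 0x50392) (nat_lit 0) (p (nat_lit 0x38312) (nat_lit 0) (p (nat_lit 0x20292) (nat_lit 0) (p (nat_lit 0x38112) (nat_lit 0) (p (nat_lit 0x20092) (nat_lit 0) (p (nat_lit 0x8012) (nat_lit 0) pn)))))))))))))))))))))))))) :=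
  Cl.node (nat_lit 0x200004) (nat_lit 2) (by decide +kernel) (ClAll.succ (ClAll.succ ClAll.zero s18) s19)

def n59 : Cl (O (nat_lit 5)) (R (nat_lit 14465))
    (p (nat_lit 0x101) (nat_lit 0) (p (nat_lit 0x81) (nat_lit 1) (p (nat_lit 0xc1) (nat_lit 1) (p (nat_lit 0x119) (nat_lit 1) (p (nat_lit 0xd1) (nat_lit 0) (p (nat_lit 0x89) (nat_lit 0) (p (nat_lit 0x41) (nat_lit 0) (p (nat_lit 0x10a0b0a89889a) (nat_lit 0) (p (nat_lit 0x98a8a09081a) (nat_lit 0) (p (nat_lit 0x109080988879a) (nat_lit 0) (p (nat_lit 0x8878908071a) (nat_lit 0) (p (nat_lit 0x8000000000800080887868a) (nat_lit 0) (p (nat_lit 0x10888070602) (nat_lit 0) (p (nat_lit 0x807868582) (nat_lit 0) (p (nat_lit 0x10587060502) (nat_lit 0) (p (nat_lit 0x506858482) (nat_lit 0) (p (nat_lit 0x16000c) (nat_lit 0) (p (nat_lit 0x68612) (nat_lit 0) (p (nat_lit 0x50592) (nat_lit 0) (p (nat_lit 0x38512) (nat_lit 0) (p (nat_lit 0x50392)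 (nat_lit 0) (p (nat_lit 0x38312) (nat_lit 0) (p (nat_lit 0x20292) (nat_lit 0) (p (nat_lit 0x38112) (nat_lit 0) (p (nat_lit 0x20092) (nat_lit 0) (p (nat_lit 0x8012) (nat_lit 0) pn)))))))))))))))))))))))))) :=
  Cl.node (nat_lit 0x109) (nat_lit 2) (by decide +kernel) (ClAll.succ (ClAll.succ ClAll.zero s20) n25)

def n60 : Cl (O (nat_lit 5)) (R (nat_lit 14465))
    (p (nat_lit 0x101) (nat_lit 1) (p (nat_lit 0x81) (nat_lit 1) (p (nat_lit 0xc1) (nat_lit 1) (p (nat_lit 0x119) (nat_lit 1) (p (nat_lit 0xd1) (nat_lit 0) (p (nat_lit 0x89) (nat_lit 0) (p (nat_lit 0x41) (nat_lit 0) (p (nat_lit 0x10a0b0a89889a) (nat_lit 0) (p (nat_lit 0x98a8a09081a) (nat_lit 0) (p (nat_lit 0x109080988879a) (nat_lit 0) (p (nat_lit 0x8878908071a) (nat_lit 0) (p (nat_lit 0x8000000000800080887868a) (nat_lit 0) (p (nat_lit 0x10888070602) (nat_lit 0) (p (nat_lit 0x807868582) (nat_lit 0) (p (nat_lit 0x10587060502)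 (nat_lit 0) (p (nat_lit 0x506858482) (nat_lit 0) (p (nat_lit 0x16000c) (nat_lit 0) (p (nat_lit 0x68612) (nat_lit 0) (p (nat_lit 0x50592) (nat_lit 0) (p (nat_lit 0x38512) (nat_lit 0) (p (nat_lit 0x50392) (nat_lit 0) (p (nat_lit 0x38312) (nat_lit 0) (p (nat_lit 0x20292) (nat_lit 0) (p (nat_lit 0x38112) (nat_lit 0) (p (nat_lit 0x20092) (nat_lit 0) (p (nat_lit 0x8012) (nat_lit 0) pn)))))))))))))))))))))))))) :=
  Cl.node (nat_lit 0x200004) (nat_lit 2) (by decide +kernel) (ClAll.succ (ClAll.succ ClAll.zero s26) n26)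

def n61 : Cl (O (nat_lit 5)) (R (nat_lit 14465))
    (p (nat_lit 0x200004) (nat_lit 0) (p (nat_lit 0x109) (nat_lit 1) (p (nat_lit 0x101) (nat_lit 0) (p (nat_lit 0x111) (nat_lit 0) (p (nat_lit 0xd1) (nat_lit 1) (p (nat_lit 0x89) (nat_lit 0) (p (nat_lit 0x41) (nat_lit 0) (p (nat_lit 0x10a0b0a89889a) (nat_lit 0) (p (nat_lit 0x98a8a09081a) (nat_lit 0) (p (nat_lit 0x109080988879a) (nat_lit 0) (p (nat_lit 0x8878908071a) (nat_lit 0) (p (nat_lit 0x8000000000800080887868a) (nat_lit 0) (p (nat_lit 0x10888070602) (nat_lit 0) (p (nat_lit 0x807868582) (nat_lit 0) (p (nat_lit 0x10587060502) (nat_lit 0) (p (nat_lit 0x506858482) (nat_lit 0) (p (nat_lit 0x16000c) (nat_lit 0) (p (nat_lit 0x68612) (nat_lit 0) (p (nat_lit 0x50592) (nat_lit 0) (p (nat_lit 0x38512) (nat_lit 0) (p (nat_lit 0x50392) (nat_lit 0) (p (nat_lit 0x38312) (nat_lit 0) (p (nat_lit 0x20292) (nat_lit 0) (p (nat_lit 0x38112) (nat_lit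 0) (p (nat_lit 0x20092) (nat_lit 0) (p (nat_lit 0x8012) (nat_lit 0) pn)))))))))))))))))))))))))) :=
  Cl.node (nat_lit 0x200014) (nat_lit 2) (by decide +kernel) (ClAll.succ (ClAll.succ ClAll.zero n27) s33)

def n62 : Cl (O (nat_lit 5)) (R (nat_lit 14465))
    (p (nat_lit 0x200004) (nat_lit 0) (p (nat_lit 0x81) (nat_lit 0) (p (nat_lit 0x101) (nat_lit 1) (p (nat_lit 0x111) (nat_lit 0) (p (nat_lit 0xd1) (nat_lit 1) (p (nat_lit 0x89) (nat_lit 0) (p (nat_lit 0x41) (nat_lit 0) (p (nat_lit 0x10a0b0a89889a) (nat_lit 0) (p (nat_lit 0x98a8a09081a) (nat_lit 0) (p (nat_lit 0x109080988879a) (nat_lit 0) (p (nat_lit 0x8878908071a) (nat_lit 0) (p (nat_lit 0x8000000000800080887868a) (nat_lit 0) (p (nat_lit 0x10888070602) (nat_lit 0) (p (nat_lit 0x807868582) (nat_lit 0) (p (nat_lit 0x10587060502) (nat_lit 0) (p (nat_lit 0x506858482) (nat_lit 0) (p (nat_lit 0x16000c) (nat_lit 0) (p (nat_lit 0x68612)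 (nat_lit 0) (p (nat_lit 0x50592) (nat_lit 0) (p (nat_lit 0x38512) (nat_lit 0) (p (nat_lit 0x50392) (nat_lit 0) (p (nat_lit 0x38312) (nat_lit 0) (p (nat_lit 0x20292) (nat_lit 0) (p (nat_lit 0x38112) (nat_lit 0) (p (nat_lit 0x20092) (nat_lit 0) (p (nat_lit 0x8012) (nat_lit 0) pn)))))))))))))))))))))))))) :=
  Cl.node (nat_lit 0x200014) (nat_lit 2) (by decide +kernel) (ClAll.succ (ClAll.succ ClAll.zero n28) n29)

def n63 : Cl (O (nat_lit 5)) (R (nat_lit 14465))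
    (p (nat_lit 0xc1) (nat_lit 0) (p (nat_lit 0x81) (nat_lit 1) (p (nat_lit 0x101) (nat_lit 1) (p (nat_lit 0x111) (nat_lit 0) (p (nat_lit 0xd1) (nat_lit 1) (p (nat_lit 0x89) (nat_lit 0) (p (nat_lit 0x41) (nat_lit 0) (p (nat_lit 0x10a0b0a89889a) (nat_lit 0) (p (nat_lit 0x98a8a09081a) (nat_lit 0) (p (nat_lit 0x109080988879a) (nat_lit 0) (p (nat_lit 0x8878908071a) (nat_lit 0) (p (nat_lit 0x8000000000800080887868a) (nat_lit 0) (p (nat_lit 0x10888070602) (nat_lit 0) (p (nat_lit 0x807868582) (nat_lit 0) (p (nat_lit 0x10587060502) (nat_lit 0) (p (nat_lit 0x506858482) (nat_lit 0) (p (nat_lit 0x16000c) (nat_lit 0) (p (nat_lit 0x68612) (nat_lit 0) (p (nat_lit 0x50592) (nat_lit 0) (p (nat_lit 0x38512) (nat_lit 0) (p (nat_lit 0x50392) (nat_lit 0) (p (nat_lit 0x38312) (nat_lit 0) (p (nat_lit 0x20292) (nat_lit 0) (p (nat_lit 0x38112) (nat_lit 0) (p (nat_lit 0x20092) (nat_lit 0) (p (nat_lit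 0x8012) (nat_lit 0) pn)))))))))))))))))))))))))) :=
  Cl.node (nat_lit 0x200004) (nat_lit 2) (by decide +kernel) (ClAll.succ (ClAll.succ ClAll.zero n30) s46)

def n64 : Cl (O (nat_lit 5)) (R (nat_lit 14465))
    (p (nat_lit 0x101) (nat_lit 0) (p (nat_lit 0xc1) (nat_lit 1) (p (nat_lit 0x81) (nat_lit 1) (p (nat_lit 0x111) (nat_lit 1) (p (nat_lit 0xd1) (nat_lit 1) (p (nat_lit 0x89) (nat_lit 0) (p (nat_lit 0x41) (nat_lit 0) (p (nat_lit 0x10a0b0a89889a) (nat_lit 0) (p (nat_lit 0x98a8a09081a) (nat_lit 0) (p (nat_lit 0x109080988879a) (nat_lit 0) (p (nat_lit 0x8878908071a) (nat_lit 0) (p (nat_lit 0x8000000000800080887868a) (nat_lit 0) (p (nat_lit 0x10888070602) (nat_lit 0) (p (nat_lit 0x807868582) (nat_lit 0) (p (nat_lit 0x10587060502) (nat_lit 0) (p (nat_lit 0x506858482) (nat_lit 0) (p (nat_lit 0x16000c) (nat_lit 0) (p (nat_lit 0x68612) (nat_lit 0) (p (nat_lit 0x50592) (nat_lit 0) (p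 (nat_lit 0x38512) (nat_lit 0) (p (nat_lit 0x50392) (nat_lit 0) (p (nat_lit 0x38312) (nat_lit 0) (p (nat_lit 0x20292) (nat_lit 0) (p (nat_lit 0x38112) (nat_lit 0) (p (nat_lit 0x20092) (nat_lit 0) (p (nat_lit 0x8012) (nat_lit 0) pn)))))))))))))))))))))))))) :=
  Cl.node (nat_lit 0x200004) (nat_lit 2) (by decide +kernel) (ClAll.succ (ClAll.succ ClAll.zero n31) s52)

def n65 : Cl (O (nat_lit 5)) (R (nat_lit 14465))
    (p (nat_lit 0x111) (nat_lit 1) (p (nat_lit 0x109) (nat_lit 0) (p (nat_lit 0x101) (nat_lit 0) (p (nat_lit 0x119) (nat_lit 0) (p (nat_lit 0xc9) (nat_lit 0) (p (nat_lit 0x89) (nat_lit 1) (p (nat_lit 0x41) (nat_lit 0) (p (nat_lit 0x10a0b0a89889a) (nat_lit 0) (p (nat_lit 0x98a8a09081a) (nat_lit 0) (p (nat_lit 0x109080988879a) (nat_lit 0) (p (nat_lit 0x8878908071a) (nat_lit 0) (p (nat_lit 0x8000000000800080887868a) (nat_lit 0) (p (nat_lit 0x10888070602) (nat_lit 0) (p (nat_lit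 0x807868582) (nat_lit 0) (p (nat_lit 0x10587060502) (nat_lit 0) (p (nat_lit 0x506858482) (nat_lit 0) (p (nat_lit 0x16000c) (nat_lit 0) (p (nat_lit 0x68612) (nat_lit 0) (p (nat_lit 0x50592) (nat_lit 0) (p (nat_lit 0x38512) (nat_lit 0) (p (nat_lit 0x50392) (nat_lit 0) (p (nat_lit 0x38312) (nat_lit 0) (p (nat_lit 0x20292) (nat_lit 0) (p (nat_lit 0x38112) (nat_lit 0) (p (nat_lit 0x20092) (nat_lit 0) (p (nat_lit 0x8012) (nat_lit 0) pn)))))))))))))))))))))))))) :=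
  Cl.node (nat_lit 0xd1) (nat_lit 2) (by decide +kernel) (ClAll.succ (ClAll.succ ClAll.zero s55) n32)

def n66 : Cl (O (nat_lit 5)) (R (nat_lit 14465))
    (p (nat_lit 0xd1) (nat_lit 0) (p (nat_lit 0x109) (nat_lit 1) (p (nat_lit 0x101) (nat_lit 0) (p (nat_lit 0x119) (nat_lit 0) (p (nat_lit 0xc9) (nat_lit 0) (p (nat_lit 0x89) (nat_lit 1) (p (nat_lit 0x41) (nat_lit 0) (p (nat_lit 0x10a0b0a89889a) (nat_lit 0) (p (nat_lit 0x98a8a09081a) (nat_lit 0) (p (nat_lit 0x109080988879a) (nat_lit 0) (p (nat_lit 0x8878908071a) (nat_lit 0) (p (nat_lit 0x8000000000800080887868a) (nat_lit 0) (p (nat_lit 0x10888070602) (nat_lit 0) (p (nat_lit 0x807868582) (nat_lit 0) (p (nat_lit 0x10587060502) (nat_lit 0) (p (nat_lit 0x506858482) (nat_lit 0) (p (nat_lit 0x16000c) (nat_lit 0) (p (nat_lit 0x68612) (nat_lit 0) (p (nat_lit 0x50592) (nat_lit 0) (p (nat_lit 0x38512) (nat_lit 0) (p (nat_lit 0x50392) (nat_lit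 0) (p (nat_lit 0x38312) (nat_lit 0) (p (nat_lit 0x20292) (nat_lit 0) (p (nat_lit 0x38112) (nat_lit 0) (p (nat_lit 0x20092) (nat_lit 0) (p (nat_lit 0x8012) (nat_lit 0) pn)))))))))))))))))))))))))) :=
  Cl.node (nat_lit 0x200004) (nat_lit 2) (by decide +kernel) (ClAll.succ (ClAll.succ ClAll.zero n33) s61)

def n67 : Cl (O (nat_lit 5)) (R (nat_lit 14465))
    (p (nat_lit 0xd1) (nat_lit 1) (p (nat_lit 0x109) (nat_lit 1) (p (nat_lit 0x101) (nat_lit 0) (p (nat_lit 0x119) (nat_lit 0) (p (nat_lit 0xc9) (nat_lit 0) (p (nat_lit 0x89) (nat_lit 1) (p (nat_lit 0x41) (nat_lit 0) (p (nat_lit 0x10a0b0a89889a) (nat_lit 0) (p (nat_lit 0x98a8a09081a) (nat_lit 0) (p (nat_lit 0x109080988879a) (nat_lit 0) (p (nat_lit 0x8878908071a) (nat_lit 0) (p (nat_lit 0x8000000000800080887868a) (nat_lit 0) (p (nat_lit 0x10888070602) (nat_lit 0) (p (nat_lit 0x807868582) (nat_lit 0) (p (nat_lit 0x10587060502) (nat_lit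 0) (p (nat_lit 0x506858482) (nat_lit 0) (p (nat_lit 0x16000c) (nat_lit 0) (p (nat_lit 0x68612) (nat_lit 0) (p (nat_lit 0x50592) (nat_lit 0) (p (nat_lit 0x38512) (nat_lit 0) (p (nat_lit 0x50392) (nat_lit 0) (p (nat_lit 0x38312) (nat_lit 0) (p (nat_lit 0x20292) (nat_lit 0) (p (nat_lit 0x38112) (nat_lit 0) (p (nat_lit 0x20092) (nat_lit 0) (p (nat_lit 0x8012) (nat_lit 0) pn)))))))))))))))))))))))))) :=
  Cl.node (nat_lit 0x200004) (nat_lit 2) (by decide +kernel) (ClAll.succ (ClAll.succ ClAll.zero n34) n35)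

def n68 : Cl (O (nat_lit 5)) (R (nat_lit 14465))
    (p (nat_lit 0xd1) (nat_lit 0) (p (nat_lit 0xc1) (nat_lit 0) (p (nat_lit 0x101) (nat_lit 1) (p (nat_lit 0x119) (nat_lit 0) (p (nat_lit 0xc9) (nat_lit 0) (p (nat_lit 0x89) (nat_lit 1) (p (nat_lit 0x41) (nat_lit 0) (p (nat_lit 0x10a0b0a89889a) (nat_lit 0) (p (nat_lit 0x98a8a09081a) (nat_lit 0) (p (nat_lit 0x109080988879a) (nat_lit 0) (p (nat_lit 0x8878908071a) (nat_lit 0) (p (nat_lit 0x8000000000800080887868a) (nat_lit 0) (p (nat_lit 0x10888070602) (nat_lit 0) (p (nat_lit 0x807868582) (nat_lit 0) (p (nat_lit 0x10587060502) (nat_lit 0) (p (nat_lit 0x506858482) (nat_lit 0) (p (nat_lit 0x16000c) (nat_lit 0) (p (nat_lit 0x68612) (nat_lit 0) (p (nat_lit 0x50592) (nat_lit 0) (p (nat_lit 0x38512) (nat_lit 0) (p (nat_lit 0x50392) (nat_lit 0) (p (nat_lit 0x38312) (nat_lit 0) (p (nat_lit 0x20292) (nat_lit 0) (p (nat_lit 0x38112) (nat_lit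 0) (p (nat_lit 0x20092) (nat_lit 0) (p (nat_lit 0x8012) (nat_lit 0) pn)))))))))))))))))))))))))) :=
  Cl.node (nat_lit 0x200004) (nat_lit 2) (by decide +kernel) (ClAll.succ (ClAll.succ ClAll.zero n36) s71)

def n69 : Cl (O (nat_lit 5)) (R (nat_lit 14465))
    (p (nat_lit 0xd1) (nat_lit 1) (p (nat_lit 0xc1) (nat_lit 0) (p (nat_lit 0x101) (nat_lit 1) (p (nat_lit 0x119) (nat_lit 0) (p (nat_lit 0xc9) (nat_lit 0) (p (nat_lit 0x89) (nat_lit 1) (p (nat_lit 0x41) (nat_lit 0) (p (nat_lit 0x10a0b0a89889a) (nat_lit 0) (p (nat_lit 0x98a8a09081a) (nat_lit 0) (p (nat_lit 0x109080988879a) (nat_lit 0) (p (nat_lit 0x8878908071a) (nat_lit 0) (p (nat_lit 0x8000000000800080887868a) (nat_lit 0) (p (nat_lit 0x10888070602) (nat_lit 0) (p (nat_lit 0x807868582) (nat_lit 0) (p (nat_lit 0x10587060502) (nat_lit 0) (p (nat_lit 0x506858482) (nat_lit 0) (p (nat_lit 0x16000c) (nat_lit 0) (p (nat_lit 0x68612)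 (nat_lit 0) (p (nat_lit 0x50592) (nat_lit 0) (p (nat_lit 0x38512) (nat_lit 0) (p (nat_lit 0x50392) (nat_lit 0) (p (nat_lit 0x38312) (nat_lit 0) (p (nat_lit 0x20292) (nat_lit 0) (p (nat_lit 0x38112) (nat_lit 0) (p (nat_lit 0x20092) (nat_lit 0) (p (nat_lit 0x8012) (nat_lit 0) pn)))))))))))))))))))))))))) :=
  Cl.node (nat_lit 0x200004) (nat_lit 2) (by decide +kernel) (ClAll.succ (ClAll.succ ClAll.zero s72) n37)

def n70 : Cl (O (nat_lit 5)) (R (nat_lit 14465))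
    (p (nat_lit 0x111) (nat_lit 1) (p (nat_lit 0xd1) (nat_lit 1) (p (nat_lit 0xc1) (nat_lit 0) (p (nat_lit 0x119) (nat_lit 1) (p (nat_lit 0xc9) (nat_lit 0) (p (nat_lit 0x89) (nat_lit 1) (p (nat_lit 0x41) (nat_lit 0) (p (nat_lit 0x10a0b0a89889a) (nat_lit 0) (p (nat_lit 0x98a8a09081a) (nat_lit 0) (p (nat_lit 0x109080988879a) (nat_lit 0) (p (nat_lit 0x8878908071a) (nat_lit 0) (p (nat_lit 0x8000000000800080887868a) (nat_lit 0) (p (nat_lit 0x10888070602) (nat_lit 0) (p (nat_lit 0x807868582) (nat_lit 0) (p (nat_lit 0x10587060502) (nat_lit 0) (p (nat_lit 0x506858482) (nat_lit 0) (p (nat_lit 0x16000c) (nat_lit 0) (p (nat_lit 0x68612) (nat_lit 0) (p (nat_lit 0x50592) (nat_lit 0) (p (nat_lit 0x38512) (nat_lit 0) (p (nat_lit 0x50392) (nat_lit 0) (p (nat_lit 0x38312) (nat_lit 0) (p (nat_lit 0x20292) (nat_lit 0) (p (nat_lit 0x38112) (nat_lit 0) (p (nat_lit 0x20092) (nat_lit 0) (p (nat_lit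 0x8012) (nat_lit 0) pn)))))))))))))))))))))))))) :=
  Cl.node (nat_lit 0x200004) (nat_lit 2) (by decide +kernel) (ClAll.succ (ClAll.succ ClAll.zero n38) s81)

def n71 : Cl (O (nat_lit 5)) (R (nat_lit 14465))
    (p (nat_lit 0x111) (nat_lit 1) (p (nat_lit 0x101) (nat_lit 0) (p (nat_lit 0xc1) (nat_lit 1) (p (nat_lit 0x119) (nat_lit 1) (p (nat_lit 0xc9) (nat_lit 0) (p (nat_lit 0x89) (nat_lit 1) (p (nat_lit 0x41) (nat_lit 0) (p (nat_lit 0x10a0b0a89889a) (nat_lit 0) (p (nat_lit 0x98a8a09081a) (nat_lit 0) (p (nat_lit 0x109080988879a) (nat_lit 0) (p (nat_lit 0x8878908071a) (nat_lit 0) (p (nat_lit 0x8000000000800080887868a) (nat_lit 0) (p (nat_lit 0x10888070602) (nat_lit 0) (p (nat_lit 0x807868582) (nat_lit 0) (p (nat_lit 0x10587060502) (nat_lit 0) (p (nat_lit 0x506858482) (nat_lit 0) (p (nat_lit 0x16000c) (nat_lit 0) (p (nat_lit 0x68612) (nat_lit 0) (p (nat_lit 0x50592) (nat_lit 0)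 (p (nat_lit 0x38512) (nat_lit 0) (p (nat_lit 0x50392) (nat_lit 0) (p (nat_lit 0x38312) (nat_lit 0) (p (nat_lit 0x20292) (nat_lit 0) (p (nat_lit 0x38112) (nat_lit 0) (p (nat_lit 0x20092) (nat_lit 0) (p (nat_lit 0x8012) (nat_lit 0) pn)))))))))))))))))))))))))) :=
  Cl.node (nat_lit 0x200004) (nat_lit 2) (by decide +kernel) (ClAll.succ (ClAll.succ ClAll.zero n39) s85)

def n72 : Cl (O (nat_lit 5)) (R (nat_lit 14465))
    (p (nat_lit 0x200004) (nat_lit 1) (p (nat_lit 0x101) (nat_lit 1) (p (nat_lit 0xc1) (nat_lit 1) (p (nat_lit 0x119) (nat_lit 1) (p (nat_lit 0xc9) (nat_lit 0) (p (nat_lit 0x89) (nat_lit 1) (p (nat_lit 0x41) (nat_lit 0) (p (nat_lit 0x10a0b0a89889a) (nat_lit 0) (p (nat_lit 0x98a8a09081a) (nat_lit 0) (p (nat_lit 0x109080988879a) (nat_lit 0) (p (nat_lit 0x8878908071a) (nat_lit 0) (p (nat_lit 0x8000000000800080887868a) (nat_lit 0) (p (nat_lit 0x10888070602) (nat_lit 0)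 (p (nat_lit 0x807868582) (nat_lit 0) (p (nat_lit 0x10587060502) (nat_lit 0) (p (nat_lit 0x506858482) (nat_lit 0) (p (nat_lit 0x16000c) (nat_lit 0) (p (nat_lit 0x68612) (nat_lit 0) (p (nat_lit 0x50592) (nat_lit 0) (p (nat_lit 0x38512) (nat_lit 0) (p (nat_lit 0x50392) (nat_lit 0) (p (nat_lit 0x38312) (nat_lit 0) (p (nat_lit 0x20292) (nat_lit 0) (p (nat_lit 0x38112) (nat_lit 0) (p (nat_lit 0x20092) (nat_lit 0) (p (nat_lit 0x8012) (nat_lit 0) pn)))))))))))))))))))))))))) :=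
  Cl.node (nat_lit 0xb000c) (nat_lit 2) (by decide +kernel) (ClAll.succ (ClAll.succ ClAll.zero n40) s89)

def n73 : Cl (O (nat_lit 5)) (R (nat_lit 14465))
    (p (nat_lit 0x119) (nat_lit 1) (p (nat_lit 0x111) (nat_lit 0) (p (nat_lit 0x101) (nat_lit 0) (p (nat_lit 0x109) (nat_lit 0) (p (nat_lit 0xc9) (nat_lit 1) (p (nat_lit 0x89) (nat_lit 1) (p (nat_lit 0x41) (nat_lit 0) (p (nat_lit 0x10a0b0a89889a) (nat_lit 0) (p (nat_lit 0x98a8a09081a) (nat_lit 0) (p (nat_lit 0x109080988879a) (nat_lit 0) (p (nat_lit 0x8878908071a) (nat_lit 0) (p (nat_lit 0x8000000000800080887868a) (nat_lit 0) (p (nat_lit 0x10888070602) (nat_lit 0) (p (nat_lit 0x807868582) (nat_lit 0) (p (nat_lit 0x10587060502) (nat_lit 0) (p (nat_lit 0x506858482) (nat_lit 0) (p (nat_lit 0x16000c) (nat_lit 0) (p (nat_lit 0x68612) (nat_lit 0) (p (nat_lit 0x50592) (nat_lit 0) (p (nat_lit 0x38512) (nat_lit 0) (p (nat_lit 0x50392)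 (nat_lit 0) (p (nat_lit 0x38312) (nat_lit 0) (p (nat_lit 0x20292) (nat_lit 0) (p (nat_lit 0x38112) (nat_lit 0) (p (nat_lit 0x20092) (nat_lit 0) (p (nat_lit 0x8012) (nat_lit 0) pn)))))))))))))))))))))))))) :=
  Cl.node (nat_lit 0x200004) (nat_lit 2) (by decide +kernel) (ClAll.succ (ClAll.succ ClAll.zero s91) s92)

def n74 : Cl (O (nat_lit 5)) (R (nat_lit 14465))
    (p (nat_lit 0x89) (nat_lit 0) (p (nat_lit 0x109) (nat_lit 1) (p (nat_lit 0x101) (nat_lit 0) (p (nat_lit 0x119) (nat_lit 0) (p (nat_lit 0xd1) (nat_lit 0) (p (nat_lit 0x81) (nat_lit 0) (p (nat_lit 0x41) (nat_lit 1) (p (nat_lit 0x10a0b0a89889a) (nat_lit 0) (p (nat_lit 0x98a8a09081a) (nat_lit 0) (p (nat_lit 0x109080988879a) (nat_lit 0) (p (nat_lit 0x8878908071a) (nat_lit 0) (p (nat_lit 0x8000000000800080887868a) (nat_lit 0) (p (nat_lit 0x10888070602) (nat_lit 0) (p (nat_lit 0x807868582) (nat_lit 0) (p (nat_lit 0x10587060502)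 (nat_lit 0) (p (nat_lit 0x506858482) (nat_lit 0) (p (nat_lit 0x16000c) (nat_lit 0) (p (nat_lit 0x68612) (nat_lit 0) (p (nat_lit 0x50592) (nat_lit 0) (p (nat_lit 0x38512) (nat_lit 0) (p (nat_lit 0x50392) (nat_lit 0) (p (nat_lit 0x38312) (nat_lit 0) (p (nat_lit 0x20292) (nat_lit 0) (p (nat_lit 0x38112) (nat_lit 0) (p (nat_lit 0x20092) (nat_lit 0) (p (nat_lit 0x8012) (nat_lit 0) pn)))))))))))))))))))))))))) :=
  Cl.node (nat_lit 0x200004) (nat_lit 2) (by decide +kernel) (ClAll.succ (ClAll.succ ClAll.zero s97) s98)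

def n75 : Cl (O (nat_lit 5)) (R (nat_lit 14465))
    (p (nat_lit 0x89) (nat_lit 1) (p (nat_lit 0x109) (nat_lit 1) (p (nat_lit 0x101) (nat_lit 0) (p (nat_lit 0x119) (nat_lit 0) (p (nat_lit 0xd1) (nat_lit 0) (p (nat_lit 0x81) (nat_lit 0) (p (nat_lit 0x41) (nat_lit 1) (p (nat_lit 0x10a0b0a89889a) (nat_lit 0) (p (nat_lit 0x98a8a09081a) (nat_lit 0) (p (nat_lit 0x109080988879a) (nat_lit 0) (p (nat_lit 0x8878908071a) (nat_lit 0) (p (nat_lit 0x8000000000800080887868a) (nat_lit 0) (p (nat_lit 0x10888070602) (nat_lit 0) (p (nat_lit 0x807868582) (nat_lit 0) (p (nat_lit 0x10587060502) (nat_lit 0) (p (nat_lit 0x506858482) (nat_lit 0) (p (nat_lit 0x16000c) (nat_lit 0) (p (nat_lit 0x68612) (nat_lit 0) (p (nat_lit 0x50592) (nat_lit 0) (p (nat_lit 0x38512) (nat_lit 0) (p (nat_lit 0x50392) (nat_lit 0) (p (nat_lit 0x38312) (nat_lit 0) (p (nat_lit 0x20292) (nat_lit 0) (p (nat_lit 0x38112) (nat_lit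 0) (p (nat_lit 0x20092) (nat_lit 0) (p (nat_lit 0x8012) (nat_lit 0) pn)))))))))))))))))))))))))) :=
  Cl.node (nat_lit 0xc9) (nat_lit 2) (by decide +kernel) (ClAll.succ (ClAll.succ ClAll.zero s99) s100)

def n76 : Cl (O (nat_lit 5)) (R (nat_lit 14465))
    (p (nat_lit 0x89) (nat_lit 1) (p (nat_lit 0xc1) (nat_lit 0) (p (nat_lit 0x101) (nat_lit 1) (p (nat_lit 0x119) (nat_lit 0) (p (nat_lit 0xd1) (nat_lit 0) (p (nat_lit 0x81) (nat_lit 0) (p (nat_lit 0x41) (nat_lit 1) (p (nat_lit 0x10a0b0a89889a) (nat_lit 0) (p (nat_lit 0x98a8a09081a) (nat_lit 0) (p (nat_lit 0x109080988879a) (nat_lit 0) (p (nat_lit 0x8878908071a) (nat_lit 0) (p (nat_lit 0x8000000000800080887868a) (nat_lit 0) (p (nat_lit 0x10888070602) (nat_lit 0) (p (nat_lit 0x807868582) (nat_lit 0) (p (nat_lit 0x10587060502) (nat_lit 0) (p (nat_lit 0x506858482) (nat_lit 0) (p (nat_lit 0x16000c) (nat_lit 0) (p (nat_lit 0x68612) (nat_lit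 0) (p (nat_lit 0x50592) (nat_lit 0) (p (nat_lit 0x38512) (nat_lit 0) (p (nat_lit 0x50392) (nat_lit 0) (p (nat_lit 0x38312) (nat_lit 0) (p (nat_lit 0x20292) (nat_lit 0) (p (nat_lit 0x38112) (nat_lit 0) (p (nat_lit 0x20092) (nat_lit 0) (p (nat_lit 0x8012) (nat_lit 0) pn)))))))))))))))))))))))))) :=
  Cl.node (nat_lit 0xc9) (nat_lit 2) (by decide +kernel) (ClAll.succ (ClAll.succ ClAll.zero s102) n41)

def n77 : Cl (O (nat_lit 5)) (R (nat_lit 14465))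
    (p (nat_lit 0x89) (nat_lit 1) (p (nat_lit 0xc1) (nat_lit 1) (p (nat_lit 0x101) (nat_lit 1) (p (nat_lit 0x119) (nat_lit 0) (p (nat_lit 0xd1) (nat_lit 0) (p (nat_lit 0x81) (nat_lit 0) (p (nat_lit 0x41) (nat_lit 1) (p (nat_lit 0x10a0b0a89889a) (nat_lit 0) (p (nat_lit 0x98a8a09081a) (nat_lit 0) (p (nat_lit 0x109080988879a) (nat_lit 0) (p (nat_lit 0x8878908071a) (nat_lit 0) (p (nat_lit 0x8000000000800080887868a) (nat_lit 0) (p (nat_lit 0x10888070602) (nat_lit 0) (p (nat_lit 0x807868582) (nat_lit 0) (p (nat_lit 0x10587060502) (nat_lit 0) (p (nat_lit 0x506858482) (nat_lit 0) (p (nat_lit 0x16000c) (nat_lit 0) (p (nat_lit 0x68612) (nat_lit 0) (p (nat_lit 0x50592) (nat_lit 0) (p (nat_lit 0x38512) (nat_lit 0) (p (nat_lit 0x50392) (nat_lit 0) (p (nat_lit 0x38312) (nat_lit 0) (p (nat_lit 0x20292) (nat_lit 0) (p (nat_lit 0x38112) (nat_lit 0) (p (nat_lit 0x20092) (nat_lit 0) (p (nat_lit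 0x8012) (nat_lit 0) pn)))))))))))))))))))))))))) :=
  Cl.node (nat_lit 0x200004) (nat_lit 2) (by decide +kernel) (ClAll.succ (ClAll.succ ClAll.zero n42) s110)

def n78 : Cl (O (nat_lit 5)) (R (nat_lit 14465))
    (p (nat_lit 0x89) (nat_lit 1) (p (nat_lit 0xc9) (nat_lit 1) (p (nat_lit 0xc1) (nat_lit 0) (p (nat_lit 0x119) (nat_lit 1) (p (nat_lit 0xd1) (nat_lit 0) (p (nat_lit 0x81) (nat_lit 0) (p (nat_lit 0x41) (nat_lit 1) (p (nat_lit 0x10a0b0a89889a) (nat_lit 0) (p (nat_lit 0x98a8a09081a) (nat_lit 0) (p (nat_lit 0x109080988879a) (nat_lit 0) (p (nat_lit 0x8878908071a) (nat_lit 0) (p (nat_lit 0x8000000000800080887868a) (nat_lit 0) (p (nat_lit 0x10888070602) (nat_lit 0) (p (nat_lit 0x807868582) (nat_lit 0) (p (nat_lit 0x10587060502) (nat_lit 0) (p (nat_lit 0x506858482) (nat_lit 0) (p (nat_lit 0x16000c) (nat_lit 0) (p (nat_lit 0x68612) (nat_lit 0) (p (nat_lit 0x50592) (nat_lit 0) (p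 (nat_lit 0x38512) (nat_lit 0) (p (nat_lit 0x50392) (nat_lit 0) (p (nat_lit 0x38312) (nat_lit 0) (p (nat_lit 0x20292) (nat_lit 0) (p (nat_lit 0x38112) (nat_lit 0) (p (nat_lit 0x20092) (nat_lit 0) (p (nat_lit 0x8012) (nat_lit 0) pn)))))))))))))))))))))))))) :=
  Cl.node (nat_lit 0x109) (nat_lit 2) (by decide +kernel) (ClAll.succ (ClAll.succ ClAll.zero n43) n44)

def n79 : Cl (O (nat_lit 5)) (R (nat_lit 14465))
    (p (nat_lit 0x89) (nat_lit 1) (p (nat_lit 0x101) (nat_lit 0) (p (nat_lit 0xc1) (nat_lit 1) (p (nat_lit 0x119) (nat_lit 1) (p (nat_lit 0xd1) (nat_lit 0) (p (nat_lit 0x81) (nat_lit 0) (p (nat_lit 0x41) (nat_lit 1) (p (nat_lit 0x10a0b0a89889a) (nat_lit 0) (p (nat_lit 0x98a8a09081a) (nat_lit 0) (p (nat_lit 0x109080988879a) (nat_lit 0) (p (nat_lit 0x8878908071a) (nat_lit 0) (p (nat_lit 0x8000000000800080887868a) (nat_lit 0) (p (nat_lit 0x10888070602) (nat_lit 0) (p (nat_lit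 0x807868582) (nat_lit 0) (p (nat_lit 0x10587060502) (nat_lit 0) (p (nat_lit 0x506858482) (nat_lit 0) (p (nat_lit 0x16000c) (nat_lit 0) (p (nat_lit 0x68612) (nat_lit 0) (p (nat_lit 0x50592) (nat_lit 0) (p (nat_lit 0x38512) (nat_lit 0) (p (nat_lit 0x50392) (nat_lit 0) (p (nat_lit 0x38312) (nat_lit 0) (p (nat_lit 0x20292) (nat_lit 0) (p (nat_lit 0x38112) (nat_lit 0) (p (nat_lit 0x20092) (nat_lit 0) (p (nat_lit 0x8012) (nat_lit 0) pn)))))))))))))))))))))))))) :=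
  Cl.node (nat_lit 0x109) (nat_lit 2) (by decide +kernel) (ClAll.succ (ClAll.succ ClAll.zero n45) n46)

def n80 : Cl (O (nat_lit 5)) (R (nat_lit 14465))
    (p (nat_lit 0x89) (nat_lit 1) (p (nat_lit 0x101) (nat_lit 1) (p (nat_lit 0xc1) (nat_lit 1) (p (nat_lit 0x119) (nat_lit 1) (p (nat_lit 0xd1) (nat_lit 0) (p (nat_lit 0x81) (nat_lit 0) (p (nat_lit 0x41) (nat_lit 1) (p (nat_lit 0x10a0b0a89889a) (nat_lit 0) (p (nat_lit 0x98a8a09081a) (nat_lit 0) (p (nat_lit 0x109080988879a) (nat_lit 0) (p (nat_lit 0x8878908071a) (nat_lit 0) (p (nat_lit 0x8000000000800080887868a) (nat_lit 0) (p (nat_lit 0x10888070602) (nat_lit 0) (p (nat_lit 0x807868582) (nat_lit 0) (p (nat_lit 0x10587060502) (nat_lit 0) (p (nat_lit 0x506858482) (nat_lit 0) (p (nat_lit 0x16000c) (nat_lit 0) (p (nat_lit 0x68612) (nat_lit 0) (p (nat_lit 0x50592) (nat_lit 0) (p (nat_lit 0x38512) (nat_lit 0) (p (nat_lit 0x50392) (nat_lit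 0) (p (nat_lit 0x38312) (nat_lit 0) (p (nat_lit 0x20292) (nat_lit 0) (p (nat_lit 0x38112) (nat_lit 0) (p (nat_lit 0x20092) (nat_lit 0) (p (nat_lit 0x8012) (nat_lit 0) pn)))))))))))))))))))))))))) :=
  Cl.node (nat_lit 0x200004) (nat_lit 2) (by decide +kernel) (ClAll.succ (ClAll.succ ClAll.zero n47) s130)

def n81 : Cl (O (nat_lit 5)) (R (nat_lit 14465))
    (p (nat_lit 0x89) (nat_lit 1) (p (nat_lit 0x109) (nat_lit 1) (p (nat_lit 0x101) (nat_lit 0) (p (nat_lit 0x111) (nat_lit 0) (p (nat_lit 0xd1) (nat_lit 1) (p (nat_lit 0x81) (nat_lit 0) (p (nat_lit 0x41) (nat_lit 1) (p (nat_lit 0x10a0b0a89889a) (nat_lit 0) (p (nat_lit 0x98a8a09081a) (nat_lit 0) (p (nat_lit 0x109080988879a) (nat_lit 0) (p (nat_lit 0x8878908071a) (nat_lit 0) (p (nat_lit 0x8000000000800080887868a) (nat_lit 0) (p (nat_lit 0x10888070602) (nat_lit 0) (p (nat_lit 0x807868582) (nat_lit 0) (p (nat_lit 0x10587060502) (nat_lit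 0) (p (nat_lit 0x506858482) (nat_lit 0) (p (nat_lit 0x16000c) (nat_lit 0) (p (nat_lit 0x68612) (nat_lit 0) (p (nat_lit 0x50592) (nat_lit 0) (p (nat_lit 0x38512) (nat_lit 0) (p (nat_lit 0x50392) (nat_lit 0) (p (nat_lit 0x38312) (nat_lit 0) (p (nat_lit 0x20292) (nat_lit 0) (p (nat_lit 0x38112) (nat_lit 0) (p (nat_lit 0x20092) (nat_lit 0) (p (nat_lit 0x8012) (nat_lit 0) pn)))))))))))))))))))))))))) :=
  Cl.node (nat_lit 0xc9) (nat_lit 2) (by decide +kernel) (ClAll.succ (ClAll.succ ClAll.zero n48) s135)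

def n82 : Cl (O (nat_lit 5)) (R (nat_lit 14465))
    (p (nat_lit 0x200004) (nat_lit 0) (p (nat_lit 0x89) (nat_lit 0) (p (nat_lit 0x101) (nat_lit 1) (p (nat_lit 0x111) (nat_lit 0) (p (nat_lit 0xd1) (nat_lit 1) (p (nat_lit 0x81) (nat_lit 0) (p (nat_lit 0x41) (nat_lit 1) (p (nat_lit 0x10a0b0a89889a) (nat_lit 0) (p (nat_lit 0x98a8a09081a) (nat_lit 0) (p (nat_lit 0x109080988879a) (nat_lit 0) (p (nat_lit 0x8878908071a) (nat_lit 0) (p (nat_lit 0x8000000000800080887868a) (nat_lit 0) (p (nat_lit 0x10888070602) (nat_lit 0) (p (nat_lit 0x807868582) (nat_lit 0) (p (nat_lit 0x10587060502) (nat_lit 0) (p (nat_lit 0x506858482) (nat_lit 0) (p (nat_lit 0x16000c) (nat_lit 0) (p (nat_lit 0x68612) (nat_lit 0) (p (nat_lit 0x50592) (nat_lit 0) (p (nat_lit 0x38512) (nat_lit 0) (p (nat_lit 0x50392) (nat_lit 0) (p (nat_lit 0x38312) (nat_lit 0) (p (nat_lit 0x20292) (nat_lit 0) (p (nat_lit 0x38112) (nat_lit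 0) (p (nat_lit 0x20092) (nat_lit 0) (p (nat_lit 0x8012) (nat_lit 0) pn)))))))))))))))))))))))))) :=
  Cl.node (nat_lit 0x200014) (nat_lit 2) (by decide +kernel) (ClAll.succ (ClAll.succ ClAll.zero s136) s137)

def n83 : Cl (O (nat_lit 5)) (R (nat_lit 14465))
    (p (nat_lit 0xc9) (nat_lit 0) (p (nat_lit 0x89) (nat_lit 1) (p (nat_lit 0x101) (nat_lit 1) (p (nat_lit 0x111) (nat_lit 0) (p (nat_lit 0xd1) (nat_lit 1) (p (nat_lit 0x81) (nat_lit 0) (p (nat_lit 0x41) (nat_lit 1) (p (nat_lit 0x10a0b0a89889a) (nat_lit 0) (p (nat_lit 0x98a8a09081a) (nat_lit 0) (p (nat_lit 0x109080988879a) (nat_lit 0) (p (nat_lit 0x8878908071a) (nat_lit 0) (p (nat_lit 0x8000000000800080887868a) (nat_lit 0) (p (nat_lit 0x10888070602) (nat_lit 0) (p (nat_lit 0x807868582) (nat_lit 0) (p (nat_lit 0x10587060502) (nat_lit 0) (p (nat_lit 0x506858482) (nat_lit 0) (p (nat_lit 0x16000c) (nat_lit 0) (p (nat_lit 0x68612)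 (nat_lit 0) (p (nat_lit 0x50592) (nat_lit 0) (p (nat_lit 0x38512) (nat_lit 0) (p (nat_lit 0x50392) (nat_lit 0) (p (nat_lit 0x38312) (nat_lit 0) (p (nat_lit 0x20292) (nat_lit 0) (p (nat_lit 0x38112) (nat_lit 0) (p (nat_lit 0x20092) (nat_lit 0) (p (nat_lit 0x8012) (nat_lit 0) pn)))))))))))))))))))))))))) :=
  Cl.node (nat_lit 0x200004) (nat_lit 2) (by decide +kernel) (ClAll.succ (ClAll.succ ClAll.zero n49) s143)

def n84 : Cl (O (nat_lit 5)) (R (nat_lit 14465))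
    (p (nat_lit 0xc9) (nat_lit 1) (p (nat_lit 0x89) (nat_lit 1) (p (nat_lit 0x101) (nat_lit 1) (p (nat_lit 0x111) (nat_lit 0) (p (nat_lit 0xd1) (nat_lit 1) (p (nat_lit 0x81) (nat_lit 0) (p (nat_lit 0x41) (nat_lit 1) (p (nat_lit 0x10a0b0a89889a) (nat_lit 0) (p (nat_lit 0x98a8a09081a) (nat_lit 0) (p (nat_lit 0x109080988879a) (nat_lit 0) (p (nat_lit 0x8878908071a) (nat_lit 0) (p (nat_lit 0x8000000000800080887868a) (nat_lit 0) (p (nat_lit 0x10888070602) (nat_lit 0) (p (nat_lit 0x807868582) (nat_lit 0) (p (nat_lit 0x10587060502) (nat_lit 0) (p (nat_lit 0x506858482) (nat_lit 0) (p (nat_lit 0x16000c) (nat_lit 0) (p (nat_lit 0x68612) (nat_lit 0) (p (nat_lit 0x50592) (nat_lit 0) (p (nat_lit 0x38512) (nat_lit 0) (p (nat_lit 0x50392) (nat_lit 0) (p (nat_lit 0x38312) (nat_lit 0) (p (nat_lit 0x20292) (nat_lit 0) (p (nat_lit 0x38112) (nat_lit 0) (p (nat_lit 0x20092) (nat_lit 0) (p (nat_lit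 0x8012) (nat_lit 0) pn)))))))))))))))))))))))))) :=
  Cl.node (nat_lit 0x200004) (nat_lit 2) (by decide +kernel) (ClAll.succ (ClAll.succ ClAll.zero s144) s145)

def n85 : Cl (O (nat_lit 5)) (R (nat_lit 14465))
    (p (nat_lit 0x109) (nat_lit 1) (p (nat_lit 0xc9) (nat_lit 1) (p (nat_lit 0x89) (nat_lit 1) (p (nat_lit 0x111) (nat_lit 1) (p (nat_lit 0xd1) (nat_lit 1) (p (nat_lit 0x81) (nat_lit 0) (p (nat_lit 0x41) (nat_lit 1) (p (nat_lit 0x10a0b0a89889a) (nat_lit 0) (p (nat_lit 0x98a8a09081a) (nat_lit 0) (p (nat_lit 0x109080988879a) (nat_lit 0) (p (nat_lit 0x8878908071a) (nat_lit 0) (p (nat_lit 0x8000000000800080887868a) (nat_lit 0) (p (nat_lit 0x10888070602) (nat_lit 0) (p (nat_lit 0x807868582) (nat_lit 0) (p (nat_lit 0x10587060502) (nat_lit 0) (p (nat_lit 0x506858482) (nat_lit 0) (p (nat_lit 0x16000c) (nat_lit 0) (p (nat_lit 0x68612) (nat_lit 0) (p (nat_lit 0x50592) (nat_lit 0)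 (p (nat_lit 0x38512) (nat_lit 0) (p (nat_lit 0x50392) (nat_lit 0) (p (nat_lit 0x38312) (nat_lit 0) (p (nat_lit 0x20292) (nat_lit 0) (p (nat_lit 0x38112) (nat_lit 0) (p (nat_lit 0x20092) (nat_lit 0) (p (nat_lit 0x8012) (nat_lit 0) pn)))))))))))))))))))))))))) :=
  Cl.node (nat_lit 0x200004) (nat_lit 2) (by decide +kernel) (ClAll.succ (ClAll.succ ClAll.zero s149) s150)

def n86 : Cl (O (nat_lit 5)) (R (nat_lit 14465))
    (p (nat_lit 0x111) (nat_lit 1) (p (nat_lit 0x109) (nat_lit 0) (p (nat_lit 0x101) (nat_lit 0) (p (nat_lit 0x119) (nat_lit 0) (p (nat_lit 0xc1) (nat_lit 0) (p (nat_lit 0x81) (nat_lit 1) (p (nat_lit 0x41) (nat_lit 1) (p (nat_lit 0x10a0b0a89889a) (nat_lit 0) (p (nat_lit 0x98a8a09081a) (nat_lit 0) (p (nat_lit 0x109080988879a) (nat_lit 0) (p (nat_lit 0x8878908071a) (nat_lit 0) (p (nat_lit 0x8000000000800080887868a) (nat_lit 0) (p (nat_lit 0x10888070602) (nat_lit 0)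 (p (nat_lit 0x807868582) (nat_lit 0) (p (nat_lit 0x10587060502) (nat_lit 0) (p (nat_lit 0x506858482) (nat_lit 0) (p (nat_lit 0x16000c) (nat_lit 0) (p (nat_lit 0x68612) (nat_lit 0) (p (nat_lit 0x50592) (nat_lit 0) (p (nat_lit 0x38512) (nat_lit 0) (p (nat_lit 0x50392) (nat_lit 0) (p (nat_lit 0x38312) (nat_lit 0) (p (nat_lit 0x20292) (nat_lit 0) (p (nat_lit 0x38112) (nat_lit 0) (p (nat_lit 0x20092) (nat_lit 0) (p (nat_lit 0x8012) (nat_lit 0) pn)))))))))))))))))))))))))) :=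
  Cl.node (nat_lit 0xd1) (nat_lit 2) (by decide +kernel) (ClAll.succ (ClAll.succ ClAll.zero s152) n50)

def n87 : Cl (O (nat_lit 5)) (R (nat_lit 14465))
    (p (nat_lit 0xc9) (nat_lit 0) (p (nat_lit 0x109) (nat_lit 1) (p (nat_lit 0x101) (nat_lit 0) (p (nat_lit 0x119) (nat_lit 0) (p (nat_lit 0xc1) (nat_lit 0) (p (nat_lit 0x81) (nat_lit 1) (p (nat_lit 0x41) (nat_lit 1) (p (nat_lit 0x10a0b0a89889a) (nat_lit 0) (p (nat_lit 0x98a8a09081a) (nat_lit 0) (p (nat_lit 0x109080988879a) (nat_lit 0) (p (nat_lit 0x8878908071a) (nat_lit 0) (p (nat_lit 0x8000000000800080887868a) (nat_lit 0) (p (nat_lit 0x10888070602) (nat_lit 0) (p (nat_lit 0x807868582) (nat_lit 0) (p (nat_lit 0x10587060502) (nat_lit 0) (p (nat_lit 0x506858482) (nat_lit 0) (p (nat_lit 0x16000c) (nat_lit 0) (p (nat_lit 0x68612) (nat_lit 0) (p (nat_lit 0x50592) (nat_lit 0) (p (nat_lit 0x38512) (nat_lit 0) (p (nat_lit 0x50392) (nat_lit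 0) (p (nat_lit 0x38312) (nat_lit 0) (p (nat_lit 0x20292) (nat_lit 0) (p (nat_lit 0x38112) (nat_lit 0) (p (nat_lit 0x20092) (nat_lit 0) (p (nat_lit 0x8012) (nat_lit 0) pn)))))))))))))))))))))))))) :=
  Cl.node (nat_lit 0xd1) (nat_lit 2) (by decide +kernel) (ClAll.succ (ClAll.succ ClAll.zero s155) n51)

def n88 : Cl (O (nat_lit 5)) (R (nat_lit 14465))
    (p (nat_lit 0xd1) (nat_lit 0) (p (nat_lit 0xc9) (nat_lit 0) (p (nat_lit 0x101) (nat_lit 1) (p (nat_lit 0x119) (nat_lit 0) (p (nat_lit 0xc1) (nat_lit 0) (p (nat_lit 0x81) (nat_lit 1) (p (nat_lit 0x41) (nat_lit 1) (p (nat_lit 0x10a0b0a89889a) (nat_lit 0) (p (nat_lit 0x98a8a09081a) (nat_lit 0) (p (nat_lit 0x109080988879a) (nat_lit 0) (p (nat_lit 0x8878908071a) (nat_lit 0) (p (nat_lit 0x8000000000800080887868a) (nat_lit 0) (p (nat_lit 0x10888070602) (nat_lit 0) (p (nat_lit 0x807868582) (nat_lit 0) (p (nat_lit 0x10587060502) (nat_lit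 0) (p (nat_lit 0x506858482) (nat_lit 0) (p (nat_lit 0x16000c) (nat_lit 0) (p (nat_lit 0x68612) (nat_lit 0) (p (nat_lit 0x50592) (nat_lit 0) (p (nat_lit 0x38512) (nat_lit 0) (p (nat_lit 0x50392) (nat_lit 0) (p (nat_lit 0x38312) (nat_lit 0) (p (nat_lit 0x20292) (nat_lit 0) (p (nat_lit 0x38112) (nat_lit 0) (p (nat_lit 0x20092) (nat_lit 0) (p (nat_lit 0x8012) (nat_lit 0) pn)))))))))))))))))))))))))) :=
  Cl.node (nat_lit 0x200004) (nat_lit 2) (by decide +kernel) (ClAll.succ (ClAll.succ ClAll.zero s159) s160)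

def n89 : Cl (O (nat_lit 5)) (R (nat_lit 14465))
    (p (nat_lit 0xd1) (nat_lit 1) (p (nat_lit 0xc9) (nat_lit 0) (p (nat_lit 0x101) (nat_lit 1) (p (nat_lit 0x119) (nat_lit 0) (p (nat_lit 0xc1) (nat_lit 0) (p (nat_lit 0x81) (nat_lit 1) (p (nat_lit 0x41) (nat_lit 1) (p (nat_lit 0x10a0b0a89889a) (nat_lit 0) (p (nat_lit 0x98a8a09081a) (nat_lit 0) (p (nat_lit 0x109080988879a) (nat_lit 0) (p (nat_lit 0x8878908071a) (nat_lit 0) (p (nat_lit 0x8000000000800080887868a) (nat_lit 0) (p (nat_lit 0x10888070602) (nat_lit 0) (p (nat_lit 0x807868582) (nat_lit 0) (p (nat_lit 0x10587060502) (nat_lit 0) (p (nat_lit 0x506858482) (nat_lit 0) (p (nat_lit 0x16000c) (nat_lit 0) (p (nat_lit 0x68612) (nat_lit 0) (p (nat_lit 0x50592) (nat_lit 0) (p (nat_lit 0x38512) (nat_lit 0) (p (nat_lit 0x50392) (nat_lit 0) (p (nat_lit 0x38312) (nat_lit 0) (p (nat_lit 0x20292) (nat_lit 0) (p (nat_lit 0x38112) (nat_lit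 0) (p (nat_lit 0x20092) (nat_lit 0) (p (nat_lit 0x8012) (nat_lit 0) pn)))))))))))))))))))))))))) :=
  Cl.node (nat_lit 0x200004) (nat_lit 2) (by decide +kernel) (ClAll.succ (ClAll.succ ClAll.zero n52) s163)

def n90 : Cl (O (nat_lit 5)) (R (nat_lit 14465))
    (p (nat_lit 0x111) (nat_lit 1) (p (nat_lit 0xd1) (nat_lit 1) (p (nat_lit 0xc9) (nat_lit 0) (p (nat_lit 0x119) (nat_lit 1) (p (nat_lit 0xc1) (nat_lit 0) (p (nat_lit 0x81) (nat_lit 1) (p (nat_lit 0x41) (nat_lit 1) (p (nat_lit 0x10a0b0a89889a) (nat_lit 0) (p (nat_lit 0x98a8a09081a) (nat_lit 0) (p (nat_lit 0x109080988879a) (nat_lit 0) (p (nat_lit 0x8878908071a) (nat_lit 0) (p (nat_lit 0x8000000000800080887868a) (nat_lit 0) (p (nat_lit 0x10888070602) (nat_lit 0) (p (nat_lit 0x807868582) (nat_lit 0) (p (nat_lit 0x10587060502) (nat_lit 0) (p (nat_lit 0x506858482) (nat_lit 0) (p (nat_lit 0x16000c) (nat_lit 0) (p (nat_lit 0x68612)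 (nat_lit 0) (p (nat_lit 0x50592) (nat_lit 0) (p (nat_lit 0x38512) (nat_lit 0) (p (nat_lit 0x50392) (nat_lit 0) (p (nat_lit 0x38312) (nat_lit 0) (p (nat_lit 0x20292) (nat_lit 0) (p (nat_lit 0x38112) (nat_lit 0) (p (nat_lit 0x20092) (nat_lit 0) (p (nat_lit 0x8012) (nat_lit 0) pn)))))))))))))))))))))))))) :=
  Cl.node (nat_lit 0x200004) (nat_lit 2) (by decide +kernel) (ClAll.succ (ClAll.succ ClAll.zero s168) s169)

def n91 : Cl (O (nat_lit 5)) (R (nat_lit 14465))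
    (p (nat_lit 0x111) (nat_lit 1) (p (nat_lit 0x109) (nat_lit 0) (p (nat_lit 0xc9) (nat_lit 1) (p (nat_lit 0x119) (nat_lit 1) (p (nat_lit 0xc1) (nat_lit 0) (p (nat_lit 0x81) (nat_lit 1) (p (nat_lit 0x41) (nat_lit 1) (p (nat_lit 0x10a0b0a89889a) (nat_lit 0) (p (nat_lit 0x98a8a09081a) (nat_lit 0) (p (nat_lit 0x109080988879a) (nat_lit 0) (p (nat_lit 0x8878908071a) (nat_lit 0) (p (nat_lit 0x8000000000800080887868a) (nat_lit 0) (p (nat_lit 0x10888070602) (nat_lit 0) (p (nat_lit 0x807868582) (nat_lit 0) (p (nat_lit 0x10587060502) (nat_lit 0) (p (nat_lit 0x506858482) (nat_lit 0) (p (nat_lit 0x16000c) (nat_lit 0) (p (nat_lit 0x68612) (nat_lit 0) (p (nat_lit 0x50592) (nat_lit 0) (p (nat_lit 0x38512) (nat_lit 0) (p (nat_lit 0x50392) (nat_lit 0) (p (nat_lit 0x38312) (nat_lit 0) (p (nat_lit 0x20292) (nat_lit 0) (p (nat_lit 0x38112) (nat_lit 0) (p (nat_lit 0x20092) (nat_lit 0) (p (nat_lit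 0x8012) (nat_lit 0) pn)))))))))))))))))))))))))) :=
  Cl.node (nat_lit 0x200004) (nat_lit 2) (by decide +kernel) (ClAll.succ (ClAll.succ ClAll.zero n53) s173)

def n92 : Cl (O (nat_lit 5)) (R (nat_lit 14465))
    (p (nat_lit 0x119) (nat_lit 1) (p (nat_lit 0x111) (nat_lit 0) (p (nat_lit 0x109) (nat_lit 0) (p (nat_lit 0x101) (nat_lit 0) (p (nat_lit 0xc1) (nat_lit 1) (p (nat_lit 0x81) (nat_lit 1) (p (nat_lit 0x41) (nat_lit 1) (p (nat_lit 0x10a0b0a89889a) (nat_lit 0) (p (nat_lit 0x98a8a09081a) (nat_lit 0) (p (nat_lit 0x109080988879a) (nat_lit 0) (p (nat_lit 0x8878908071a) (nat_lit 0) (p (nat_lit 0x8000000000800080887868a) (nat_lit 0) (p (nat_lit 0x10888070602) (nat_lit 0) (p (nat_lit 0x807868582) (nat_lit 0) (p (nat_lit 0x10587060502) (nat_lit 0) (p (nat_lit 0x506858482) (nat_lit 0) (p (nat_lit 0x16000c) (nat_lit 0) (p (nat_lit 0x68612) (nat_lit 0) (p (nat_lit 0x50592) (nat_lit 0)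 (p (nat_lit 0x38512) (nat_lit 0) (p (nat_lit 0x50392) (nat_lit 0) (p (nat_lit 0x38312) (nat_lit 0) (p (nat_lit 0x20292) (nat_lit 0) (p (nat_lit 0x38112) (nat_lit 0) (p (nat_lit 0x20092) (nat_lit 0) (p (nat_lit 0x8012) (nat_lit 0) pn)))))))))))))))))))))))))) :=
  Cl.node (nat_lit 0x200004) (nat_lit 2) (by decide +kernel) (ClAll.succ (ClAll.succ ClAll.zero s176) s177)

def n93 : Cl (O (nat_lit 5)) (R (nat_lit 14465))
    (p (nat_lit 0x109) (nat_lit 1) (p (nat_lit 0x101) (nat_lit 0) (p (nat_lit 0x119) (nat_lit 0) (p (nat_lit 0xd1) (nat_lit 0) (p (nat_lit 0x89) (nat_lit 0) (p (nat_lit 0x41) (nat_lit 0) (p (nat_lit 0x10a0b0a89889a) (nat_lit 0) (p (nat_lit 0x98a8a09081a) (nat_lit 0) (p (nat_lit 0x109080988879a) (nat_lit 0) (p (nat_lit 0x8878908071a) (nat_lit 0) (p (nat_lit 0x8000000000800080887868a) (nat_lit 0) (p (nat_lit 0x10888070602) (nat_lit 0) (p (nat_lit 0x807868582) (nat_lit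 0) (p (nat_lit 0x10587060502) (nat_lit 0) (p (nat_lit 0x506858482) (nat_lit 0) (p (nat_lit 0x16000c) (nat_lit 0) (p (nat_lit 0x68612) (nat_lit 0) (p (nat_lit 0x50592) (nat_lit 0) (p (nat_lit 0x38512) (nat_lit 0) (p (nat_lit 0x50392) (nat_lit 0) (p (nat_lit 0x38312) (nat_lit 0) (p (nat_lit 0x20292) (nat_lit 0) (p (nat_lit 0x38112) (nat_lit 0) (p (nat_lit 0x20092) (nat_lit 0) (p (nat_lit 0x8012) (nat_lit 0) pn))))))))))))))))))))))))) :=
  Cl.node (nat_lit 0xc9) (nat_lit 2) (by decide +kernel) (ClAll.succ (ClAll.succ ClAll.zero s1) n54)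

def n94 : Cl (O (nat_lit 5)) (R (nat_lit 14465))
    (p (nat_lit 0x81) (nat_lit 0) (p (nat_lit 0x101) (nat_lit 1) (p (nat_lit 0x119) (nat_lit 0) (p (nat_lit 0xd1) (nat_lit 0) (p (nat_lit 0x89) (nat_lit 0) (p (nat_lit 0x41) (nat_lit 0) (p (nat_lit 0x10a0b0a89889a) (nat_lit 0) (p (nat_lit 0x98a8a09081a) (nat_lit 0) (p (nat_lit 0x109080988879a) (nat_lit 0) (p (nat_lit 0x8878908071a) (nat_lit 0) (p (nat_lit 0x8000000000800080887868a) (nat_lit 0) (p (nat_lit 0x10888070602) (nat_lit 0) (p (nat_lit 0x807868582) (nat_lit 0) (p (nat_lit 0x10587060502) (nat_lit 0) (p (nat_lit 0x506858482) (nat_lit 0) (p (nat_lit 0x16000c) (nat_lit 0) (p (nat_lit 0x68612) (nat_lit 0) (p (nat_lit 0x50592) (nat_lit 0) (p (nat_lit 0x38512) (nat_lit 0) (p (nat_lit 0x50392) (nat_lit 0) (p (nat_lit 0x38312) (nat_lit 0) (p (nat_lit 0x20292) (nat_lit 0) (p (nat_lit 0x38112) (nat_lit 0) (p (nat_lit 0x20092) (nat_lit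 0) (p (nat_lit 0x8012) (nat_lit 0) pn))))))))))))))))))))))))) :=
  Cl.node (nat_lit 0xc9) (nat_lit 2) (by decide +kernel) (ClAll.succ (ClAll.succ ClAll.zero s5) n55)

def n95 : Cl (O (nat_lit 5)) (R (nat_lit 14465))
    (p (nat_lit 0x81) (nat_lit 1) (p (nat_lit 0x101) (nat_lit 1) (p (nat_lit 0x119) (nat_lit 0) (p (nat_lit 0xd1) (nat_lit 0) (p (nat_lit 0x89) (nat_lit 0) (p (nat_lit 0x41) (nat_lit 0) (p (nat_lit 0x10a0b0a89889a) (nat_lit 0) (p (nat_lit 0x98a8a09081a) (nat_lit 0) (p (nat_lit 0x109080988879a) (nat_lit 0) (p (nat_lit 0x8878908071a) (nat_lit 0) (p (nat_lit 0x8000000000800080887868a) (nat_lit 0) (p (nat_lit 0x10888070602) (nat_lit 0) (p (nat_lit 0x807868582) (nat_lit 0) (p (nat_lit 0x10587060502) (nat_lit 0) (p (nat_lit 0x506858482) (nat_lit 0) (p (nat_lit 0x16000c) (nat_lit 0) (p (nat_lit 0x68612) (nat_lit 0) (p (nat_lit 0x50592) (nat_lit 0) (p (nat_lit 0x38512) (nat_lit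 0) (p (nat_lit 0x50392) (nat_lit 0) (p (nat_lit 0x38312) (nat_lit 0) (p (nat_lit 0x20292) (nat_lit 0) (p (nat_lit 0x38112) (nat_lit 0) (p (nat_lit 0x20092) (nat_lit 0) (p (nat_lit 0x8012) (nat_lit 0) pn))))))))))))))))))))))))) :=
  Cl.node (nat_lit 0xc1) (nat_lit 2) (by decide +kernel) (ClAll.succ (ClAll.succ ClAll.zero n56) s12)

def n96 : Cl (O (nat_lit 5)) (R (nat_lit 14465))
    (p (nat_lit 0xc9) (nat_lit 1) (p (nat_lit 0xc1) (nat_lit 0) (p (nat_lit 0x119) (nat_lit 1) (p (nat_lit 0xd1) (nat_lit 0) (p (nat_lit 0x89) (nat_lit 0) (p (nat_lit 0x41) (nat_lit 0) (p (nat_lit 0x10a0b0a89889a) (nat_lit 0) (p (nat_lit 0x98a8a09081a) (nat_lit 0) (p (nat_lit 0x109080988879a) (nat_lit 0) (p (nat_lit 0x8878908071a) (nat_lit 0) (p (nat_lit 0x8000000000800080887868a) (nat_lit 0) (p (nat_lit 0x10888070602) (nat_lit 0) (p (nat_lit 0x807868582) (nat_lit 0) (p (nat_lit 0x10587060502) (nat_lit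 0) (p (nat_lit 0x506858482) (nat_lit 0) (p (nat_lit 0x16000c) (nat_lit 0) (p (nat_lit 0x68612) (nat_lit 0) (p (nat_lit 0x50592) (nat_lit 0) (p (nat_lit 0x38512) (nat_lit 0) (p (nat_lit 0x50392) (nat_lit 0) (p (nat_lit 0x38312) (nat_lit 0) (p (nat_lit 0x20292) (nat_lit 0) (p (nat_lit 0x38112) (nat_lit 0) (p (nat_lit 0x20092) (nat_lit 0) (p (nat_lit 0x8012) (nat_lit 0) pn))))))))))))))))))))))))) :=
  Cl.node (nat_lit 0x109) (nat_lit 2) (by decide +kernel) (ClAll.succ (ClAll.succ ClAll.zero s14) n57)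

def n97 : Cl (O (nat_lit 5)) (R (nat_lit 14465))
    (p (nat_lit 0x81) (nat_lit 0) (p (nat_lit 0xc1) (nat_lit 1) (p (nat_lit 0x119) (nat_lit 1) (p (nat_lit 0xd1) (nat_lit 0) (p (nat_lit 0x89) (nat_lit 0) (p (nat_lit 0x41) (nat_lit 0) (p (nat_lit 0x10a0b0a89889a) (nat_lit 0) (p (nat_lit 0x98a8a09081a) (nat_lit 0) (p (nat_lit 0x109080988879a) (nat_lit 0) (p (nat_lit 0x8878908071a) (nat_lit 0) (p (nat_lit 0x8000000000800080887868a) (nat_lit 0) (p (nat_lit 0x10888070602) (nat_lit 0) (p (nat_lit 0x807868582) (nat_lit 0) (p (nat_lit 0x10587060502) (nat_lit 0) (p (nat_lit 0x506858482) (nat_lit 0) (p (nat_lit 0x16000c) (nat_lit 0) (p (nat_lit 0x68612) (nat_lit 0) (p (nat_lit 0x50592) (nat_lit 0) (p (nat_lit 0x38512) (nat_lit 0) (p (nat_lit 0x50392) (nat_lit 0) (p (nat_lit 0x38312) (nat_lit 0) (p (nat_lit 0x20292) (nat_lit 0) (p (nat_lit 0x38112) (nat_lit 0) (p (nat_lit 0x20092) (nat_lit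 0) (p (nat_lit 0x8012) (nat_lit 0) pn))))))))))))))))))))))))) :=
  Cl.node (nat_lit 0x109) (nat_lit 2) (by decide +kernel) (ClAll.succ (ClAll.succ ClAll.zero s17) n58)

def n98 : Cl (O (nat_lit 5)) (R (nat_lit 14465))
    (p (nat_lit 0x81) (nat_lit 1) (p (nat_lit 0xc1) (nat_lit 1) (p (nat_lit 0x119) (nat_lit 1) (p (nat_lit 0xd1) (nat_lit 0) (p (nat_lit 0x89) (nat_lit 0) (p (nat_lit 0x41) (nat_lit 0) (p (nat_lit 0x10a0b0a89889a) (nat_lit 0) (p (nat_lit 0x98a8a09081a) (nat_lit 0) (p (nat_lit 0x109080988879a) (nat_lit 0) (p (nat_lit 0x8878908071a) (nat_lit 0) (p (nat_lit 0x8000000000800080887868a) (nat_lit 0) (p (nat_lit 0x10888070602) (nat_lit 0) (p (nat_lit 0x807868582) (nat_lit 0) (p (nat_lit 0x10587060502) (nat_lit 0) (p (nat_lit 0x506858482) (nat_lit 0) (p (nat_lit 0x16000c) (nat_lit 0) (p (nat_lit 0x68612) (nat_lit 0) (p (nat_lit 0x50592) (nat_lit 0) (p (nat_lit 0x38512)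 (nat_lit 0) (p (nat_lit 0x50392) (nat_lit 0) (p (nat_lit 0x38312) (nat_lit 0) (p (nat_lit 0x20292) (nat_lit 0) (p (nat_lit 0x38112) (nat_lit 0) (p (nat_lit 0x20092) (nat_lit 0) (p (nat_lit 0x8012) (nat_lit 0) pn))))))))))))))))))))))))) :=
  Cl.node (nat_lit 0x101) (nat_lit 2) (by decide +kernel) (ClAll.succ (ClAll.succ ClAll.zero n59) n60)

def n99 : Cl (O (nat_lit 5)) (R (nat_lit 14465))
    (p (nat_lit 0x109) (nat_lit 1) (p (nat_lit 0x101) (nat_lit 0) (p (nat_lit 0x111) (nat_lit 0) (p (nat_lit 0xd1) (nat_lit 1) (p (nat_lit 0x89) (nat_lit 0) (p (nat_lit 0x41) (nat_lit 0) (p (nat_lit 0x10a0b0a89889a) (nat_lit 0) (p (nat_lit 0x98a8a09081a) (nat_lit 0) (p (nat_lit 0x109080988879a) (nat_lit 0) (p (nat_lit 0x8878908071a) (nat_lit 0) (p (nat_lit 0x8000000000800080887868a) (nat_lit 0) (p (nat_lit 0x10888070602) (nat_lit 0) (p (nat_lit 0x807868582) (nat_lit 0) (p (nat_lit 0x10587060502)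 (nat_lit 0) (p (nat_lit 0x506858482) (nat_lit 0) (p (nat_lit 0x16000c) (nat_lit 0) (p (nat_lit 0x68612) (nat_lit 0) (p (nat_lit 0x50592) (nat_lit 0) (p (nat_lit 0x38512) (nat_lit 0) (p (nat_lit 0x50392) (nat_lit 0) (p (nat_lit 0x38312) (nat_lit 0) (p (nat_lit 0x20292) (nat_lit 0) (p (nat_lit 0x38112) (nat_lit 0) (p (nat_lit 0x20092) (nat_lit 0) (p (nat_lit 0x8012) (nat_lit 0) pn))))))))))))))))))))))))) :=
  Cl.node (nat_lit 0x200004) (nat_lit 2) (by decide +kernel) (ClAll.succ (ClAll.succ ClAll.zero n61) s34)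

def n100 : Cl (O (nat_lit 5)) (R (nat_lit 14465))
    (p (nat_lit 0x81) (nat_lit 0) (p (nat_lit 0x101) (nat_lit 1) (p (nat_lit 0x111) (nat_lit 0) (p (nat_lit 0xd1) (nat_lit 1) (p (nat_lit 0x89) (nat_lit 0) (p (nat_lit 0x41) (nat_lit 0) (p (nat_lit 0x10a0b0a89889a) (nat_lit 0) (p (nat_lit 0x98a8a09081a) (nat_lit 0) (p (nat_lit 0x109080988879a) (nat_lit 0) (p (nat_lit 0x8878908071a) (nat_lit 0) (p (nat_lit 0x8000000000800080887868a) (nat_lit 0) (p (nat_lit 0x10888070602) (nat_lit 0) (p (nat_lit 0x807868582) (nat_lit 0) (p (nat_lit 0x10587060502) (nat_lit 0) (p (nat_lit 0x506858482) (nat_lit 0) (p (nat_lit 0x16000c) (nat_lit 0) (p (nat_lit 0x68612) (nat_lit 0) (p (nat_lit 0x50592) (nat_lit 0) (p (nat_lit 0x38512) (nat_lit 0) (p (nat_lit 0x50392) (nat_lit 0) (p (nat_lit 0x38312) (nat_lit 0) (p (nat_lit 0x20292) (nat_lit 0) (p (nat_lit 0x38112) (nat_lit 0) (p (nat_lit 0x20092) (nat_lit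 0) (p (nat_lit 0x8012) (nat_lit 0) pn))))))))))))))))))))))))) :=
  Cl.node (nat_lit 0x200004) (nat_lit 2) (by decide +kernel) (ClAll.succ (ClAll.succ ClAll.zero n62) s40)

def n101 : Cl (O (nat_lit 5)) (R (nat_lit 14465))
    (p (nat_lit 0x81) (nat_lit 1) (p (nat_lit 0x101) (nat_lit 1) (p (nat_lit 0x111) (nat_lit 0) (p (nat_lit 0xd1) (nat_lit 1) (p (nat_lit 0x89) (nat_lit 0) (p (nat_lit 0x41) (nat_lit 0) (p (nat_lit 0x10a0b0a89889a) (nat_lit 0) (p (nat_lit 0x98a8a09081a) (nat_lit 0) (p (nat_lit 0x109080988879a) (nat_lit 0) (p (nat_lit 0x8878908071a) (nat_lit 0) (p (nat_lit 0x8000000000800080887868a) (nat_lit 0) (p (nat_lit 0x10888070602) (nat_lit 0) (p (nat_lit 0x807868582) (nat_lit 0) (p (nat_lit 0x10587060502) (nat_lit 0) (p (nat_lit 0x506858482) (nat_lit 0) (p (nat_lit 0x16000c) (nat_lit 0) (p (nat_lit 0x68612) (nat_lit 0) (p (nat_lit 0x50592) (nat_lit 0) (p (nat_lit 0x38512)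 (nat_lit 0) (p (nat_lit 0x50392) (nat_lit 0) (p (nat_lit 0x38312) (nat_lit 0) (p (nat_lit 0x20292) (nat_lit 0) (p (nat_lit 0x38112) (nat_lit 0) (p (nat_lit 0x20092) (nat_lit 0) (p (nat_lit 0x8012) (nat_lit 0) pn))))))))))))))))))))))))) :=
  Cl.node (nat_lit 0xc1) (nat_lit 2) (by decide +kernel) (ClAll.succ (ClAll.succ ClAll.zero n63) s47)

def n102 : Cl (O (nat_lit 5)) (R (nat_lit 14465))
    (p (nat_lit 0xc1) (nat_lit 1) (p (nat_lit 0x81) (nat_lit 1) (p (nat_lit 0x111) (nat_lit 1) (p (nat_lit 0xd1) (nat_lit 1) (p (nat_lit 0x89) (nat_lit 0) (p (nat_lit 0x41) (nat_lit 0) (p (nat_lit 0x10a0b0a89889a) (nat_lit 0) (p (nat_lit 0x98a8a09081a) (nat_lit 0) (p (nat_lit 0x109080988879a) (nat_lit 0) (p (nat_lit 0x8878908071a) (nat_lit 0) (p (nat_lit 0x8000000000800080887868a) (nat_lit 0) (p (nat_lit 0x10888070602) (nat_lit 0) (p (nat_lit 0x807868582) (nat_lit 0) (p (nat_lit 0x10587060502)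 (nat_lit 0) (p (nat_lit 0x506858482) (nat_lit 0) (p (nat_lit 0x16000c) (nat_lit 0) (p (nat_lit 0x68612) (nat_lit 0) (p (nat_lit 0x50592) (nat_lit 0) (p (nat_lit 0x38512) (nat_lit 0) (p (nat_lit 0x50392) (nat_lit 0) (p (nat_lit 0x38312) (nat_lit 0) (p (nat_lit 0x20292) (nat_lit 0) (p (nat_lit 0x38112) (nat_lit 0) (p (nat_lit 0x20092) (nat_lit 0) (p (nat_lit 0x8012) (nat_lit 0) pn))))))))))))))))))))))))) :=
  Cl.node (nat_lit 0x101) (nat_lit 2) (by decide +kernel) (ClAll.succ (ClAll.succ ClAll.zero n64) s53)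

def n103 : Cl (O (nat_lit 5)) (R (nat_lit 14465))
    (p (nat_lit 0x109) (nat_lit 0) (p (nat_lit 0x101) (nat_lit 0) (p (nat_lit 0x119) (nat_lit 0) (p (nat_lit 0xc9) (nat_lit 0) (p (nat_lit 0x89) (nat_lit 1) (p (nat_lit 0x41) (nat_lit 0) (p (nat_lit 0x10a0b0a89889a) (nat_lit 0) (p (nat_lit 0x98a8a09081a) (nat_lit 0) (p (nat_lit 0x109080988879a) (nat_lit 0) (p (nat_lit 0x8878908071a) (nat_lit 0) (p (nat_lit 0x8000000000800080887868a) (nat_lit 0) (p (nat_lit 0x10888070602) (nat_lit 0) (p (nat_lit 0x807868582) (nat_lit 0) (p (nat_lit 0x10587060502) (nat_lit 0) (p (nat_lit 0x506858482) (nat_lit 0) (p (nat_lit 0x16000c) (nat_lit 0) (p (nat_lit 0x68612) (nat_lit 0) (p (nat_lit 0x50592) (nat_lit 0) (p (nat_lit 0x38512) (nat_lit 0) (p (nat_lit 0x50392) (nat_lit 0) (p (nat_lit 0x38312) (nat_lit 0) (p (nat_lit 0x20292) (nat_lit 0) (p (nat_lit 0x38112) (nat_lit 0) (p (nat_lit 0x20092) (nat_lit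 0) (p (nat_lit 0x8012) (nat_lit 0) pn))))))))))))))))))))))))) :=
  Cl.node (nat_lit 0x111) (nat_lit 2) (by decide +kernel) (ClAll.succ (ClAll.succ ClAll.zero s54) n65)

def n104 : Cl (O (nat_lit 5)) (R (nat_lit 14465))
    (p (nat_lit 0x109) (nat_lit 1) (p (nat_lit 0x101) (nat_lit 0) (p (nat_lit 0x119) (nat_lit 0) (p (nat_lit 0xc9) (nat_lit 0) (p (nat_lit 0x89) (nat_lit 1) (p (nat_lit 0x41) (nat_lit 0) (p (nat_lit 0x10a0b0a89889a) (nat_lit 0) (p (nat_lit 0x98a8a09081a) (nat_lit 0) (p (nat_lit 0x109080988879a) (nat_lit 0) (p (nat_lit 0x8878908071a) (nat_lit 0) (p (nat_lit 0x8000000000800080887868a) (nat_lit 0) (p (nat_lit 0x10888070602) (nat_lit 0) (p (nat_lit 0x807868582) (nat_lit 0) (p (nat_lit 0x10587060502) (nat_lit 0) (p (nat_lit 0x506858482) (nat_lit 0) (p (nat_lit 0x16000c) (nat_lit 0) (p (nat_lit 0x68612) (nat_lit 0) (p (nat_lit 0x50592) (nat_lit 0) (p (nat_lit 0x38512)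 (nat_lit 0) (p (nat_lit 0x50392) (nat_lit 0) (p (nat_lit 0x38312) (nat_lit 0) (p (nat_lit 0x20292) (nat_lit 0) (p (nat_lit 0x38112) (nat_lit 0) (p (nat_lit 0x20092) (nat_lit 0) (p (nat_lit 0x8012) (nat_lit 0) pn))))))))))))))))))))))))) :=
  Cl.node (nat_lit 0xd1) (nat_lit 2) (by decide +kernel) (ClAll.succ (ClAll.succ ClAll.zero n66) n67)

def n105 : Cl (O (nat_lit 5)) (R (nat_lit 14465))
    (p (nat_lit 0xc1) (nat_lit 0) (p (nat_lit 0x101) (nat_lit 1) (p (nat_lit 0x119) (nat_lit 0) (p (nat_lit 0xc9) (nat_lit 0) (p (nat_lit 0x89) (nat_lit 1) (p (nat_lit 0x41) (nat_lit 0) (p (nat_lit 0x10a0b0a89889a) (nat_lit 0) (p (nat_lit 0x98a8a09081a) (nat_lit 0) (p (nat_lit 0x109080988879a) (nat_lit 0) (p (nat_lit 0x8878908071a) (nat_lit 0) (p (nat_lit 0x8000000000800080887868a) (nat_lit 0) (p (nat_lit 0x10888070602) (nat_lit 0) (p (nat_lit 0x807868582) (nat_lit 0) (p (nat_lit 0x10587060502)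 (nat_lit 0) (p (nat_lit 0x506858482) (nat_lit 0) (p (nat_lit 0x16000c) (nat_lit 0) (p (nat_lit 0x68612) (nat_lit 0) (p (nat_lit 0x50592) (nat_lit 0) (p (nat_lit 0x38512) (nat_lit 0) (p (nat_lit 0x50392) (nat_lit 0) (p (nat_lit 0x38312) (nat_lit 0) (p (nat_lit 0x20292) (nat_lit 0) (p (nat_lit 0x38112) (nat_lit 0) (p (nat_lit 0x20092) (nat_lit 0) (p (nat_lit 0x8012) (nat_lit 0) pn))))))))))))))))))))))))) :=
  Cl.node (nat_lit 0xd1) (nat_lit 2) (by decide +kernel) (ClAll.succ (ClAll.succ ClAll.zero n68) n69)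

def n106 : Cl (O (nat_lit 5)) (R (nat_lit 14465))
    (p (nat_lit 0xd1) (nat_lit 1) (p (nat_lit 0xc1) (nat_lit 0) (p (nat_lit 0x119) (nat_lit 1) (p (nat_lit 0xc9) (nat_lit 0) (p (nat_lit 0x89) (nat_lit 1) (p (nat_lit 0x41) (nat_lit 0) (p (nat_lit 0x10a0b0a89889a) (nat_lit 0) (p (nat_lit 0x98a8a09081a) (nat_lit 0) (p (nat_lit 0x109080988879a) (nat_lit 0) (p (nat_lit 0x8878908071a) (nat_lit 0) (p (nat_lit 0x8000000000800080887868a) (nat_lit 0) (p (nat_lit 0x10888070602) (nat_lit 0) (p (nat_lit 0x807868582) (nat_lit 0) (p (nat_lit 0x10587060502) (nat_lit 0) (p (nat_lit 0x506858482) (nat_lit 0) (p (nat_lit 0x16000c) (nat_lit 0) (p (nat_lit 0x68612) (nat_lit 0) (p (nat_lit 0x50592) (nat_lit 0) (p (nat_lit 0x38512) (nat_lit 0) (p (nat_lit 0x50392) (nat_lit 0) (p (nat_lit 0x38312) (nat_lit 0) (p (nat_lit 0x20292) (nat_lit 0) (p (nat_lit 0x38112) (nat_lit 0) (p (nat_lit 0x20092) (nat_lit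 0) (p (nat_lit 0x8012) (nat_lit 0) pn))))))))))))))))))))))))) :=
  Cl.node (nat_lit 0x111) (nat_lit 2) (by decide +kernel) (ClAll.succ (ClAll.succ ClAll.zero s78) n70)

def n107 : Cl (O (nat_lit 5)) (R (nat_lit 14465))
    (p (nat_lit 0x101) (nat_lit 0) (p (nat_lit 0xc1) (nat_lit 1) (p (nat_lit 0x119) (nat_lit 1) (p (nat_lit 0xc9) (nat_lit 0) (p (nat_lit 0x89) (nat_lit 1) (p (nat_lit 0x41) (nat_lit 0) (p (nat_lit 0x10a0b0a89889a) (nat_lit 0) (p (nat_lit 0x98a8a09081a) (nat_lit 0) (p (nat_lit 0x109080988879a) (nat_lit 0) (p (nat_lit 0x8878908071a) (nat_lit 0) (p (nat_lit 0x8000000000800080887868a) (nat_lit 0) (p (nat_lit 0x10888070602) (nat_lit 0) (p (nat_lit 0x807868582) (nat_lit 0) (p (nat_lit 0x10587060502) (nat_lit 0) (p (nat_lit 0x506858482) (nat_lit 0) (p (nat_lit 0x16000c) (nat_lit 0) (p (nat_lit 0x68612) (nat_lit 0) (p (nat_lit 0x50592) (nat_lit 0) (p (nat_lit 0x38512)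 (nat_lit 0) (p (nat_lit 0x50392) (nat_lit 0) (p (nat_lit 0x38312) (nat_lit 0) (p (nat_lit 0x20292) (nat_lit 0) (p (nat_lit 0x38112) (nat_lit 0) (p (nat_lit 0x20092) (nat_lit 0) (p (nat_lit 0x8012) (nat_lit 0) pn))))))))))))))))))))))))) :=
  Cl.node (nat_lit 0x111) (nat_lit 2) (by decide +kernel) (ClAll.succ (ClAll.succ ClAll.zero s82) n71)

def n108 : Cl (O (nat_lit 5)) (R (nat_lit 14465))
    (p (nat_lit 0x101) (nat_lit 1) (p (nat_lit 0xc1) (nat_lit 1) (p (nat_lit 0x119) (nat_lit 1) (p (nat_lit 0xc9) (nat_lit 0) (p (nat_lit 0x89) (nat_lit 1) (p (nat_lit 0x41) (nat_lit 0) (p (nat_lit 0x10a0b0a89889a) (nat_lit 0) (p (nat_lit 0x98a8a09081a) (nat_lit 0) (p (nat_lit 0x109080988879a) (nat_lit 0) (p (nat_lit 0x8878908071a) (nat_lit 0) (p (nat_lit 0x8000000000800080887868a) (nat_lit 0) (p (nat_lit 0x10888070602) (nat_lit 0) (p (nat_lit 0x807868582) (nat_lit 0) (p (nat_lit 0x10587060502)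 (nat_lit 0) (p (nat_lit 0x506858482) (nat_lit 0) (p (nat_lit 0x16000c) (nat_lit 0) (p (nat_lit 0x68612) (nat_lit 0) (p (nat_lit 0x50592) (nat_lit 0) (p (nat_lit 0x38512) (nat_lit 0) (p (nat_lit 0x50392) (nat_lit 0) (p (nat_lit 0x38312) (nat_lit 0) (p (nat_lit 0x20292) (nat_lit 0) (p (nat_lit 0x38112) (nat_lit 0) (p (nat_lit 0x20092) (nat_lit 0) (p (nat_lit 0x8012) (nat_lit 0) pn))))))))))))))))))))))))) :=
  Cl.node (nat_lit 0x200004) (nat_lit 2) (by decide +kernel) (ClAll.succ (ClAll.succ ClAll.zero s86) n72)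

def n109 : Cl (O (nat_lit 5)) (R (nat_lit 14465))
    (p (nat_lit 0x111) (nat_lit 0) (p (nat_lit 0x101) (nat_lit 0) (p (nat_lit 0x109) (nat_lit 0) (p (nat_lit 0xc9) (nat_lit 1) (p (nat_lit 0x89) (nat_lit 1) (p (nat_lit 0x41) (nat_lit 0) (p (nat_lit 0x10a0b0a89889a) (nat_lit 0) (p (nat_lit 0x98a8a09081a) (nat_lit 0) (p (nat_lit 0x109080988879a) (nat_lit 0) (p (nat_lit 0x8878908071a) (nat_lit 0) (p (nat_lit 0x8000000000800080887868a) (nat_lit 0) (p (nat_lit 0x10888070602) (nat_lit 0) (p (nat_lit 0x807868582) (nat_lit 0) (p (nat_lit 0x10587060502) (nat_lit 0) (p (nat_lit 0x506858482) (nat_lit 0) (p (nat_lit 0x16000c) (nat_lit 0) (p (nat_lit 0x68612) (nat_lit 0) (p (nat_lit 0x50592) (nat_lit 0) (p (nat_lit 0x38512) (nat_lit 0) (p (nat_lit 0x50392) (nat_lit 0) (p (nat_lit 0x38312) (nat_lit 0) (p (nat_lit 0x20292) (nat_lit 0) (p (nat_lit 0x38112) (nat_lit 0) (p (nat_lit 0x20092) (nat_lit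 0) (p (nat_lit 0x8012) (nat_lit 0) pn))))))))))))))))))))))))) :=
  Cl.node (nat_lit 0x119) (nat_lit 2) (by decide +kernel) (ClAll.succ (ClAll.succ ClAll.zero s90) n73)

def n110 : Cl (O (nat_lit 5)) (R (nat_lit 14465))
    (p (nat_lit 0x109) (nat_lit 1) (p (nat_lit 0x101) (nat_lit 0) (p (nat_lit 0x119) (nat_lit 0) (p (nat_lit 0xd1) (nat_lit 0) (p (nat_lit 0x81) (nat_lit 0) (p (nat_lit 0x41) (nat_lit 1) (p (nat_lit 0x10a0b0a89889a) (nat_lit 0) (p (nat_lit 0x98a8a09081a) (nat_lit 0) (p (nat_lit 0x109080988879a) (nat_lit 0) (p (nat_lit 0x8878908071a) (nat_lit 0) (p (nat_lit 0x8000000000800080887868a) (nat_lit 0) (p (nat_lit 0x10888070602) (nat_lit 0) (p (nat_lit 0x807868582) (nat_lit 0) (p (nat_lit 0x10587060502) (nat_lit 0) (p (nat_lit 0x506858482) (nat_lit 0) (p (nat_lit 0x16000c) (nat_lit 0) (p (nat_lit 0x68612) (nat_lit 0) (p (nat_lit 0x50592) (nat_lit 0) (p (nat_lit 0x38512)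 (nat_lit 0) (p (nat_lit 0x50392) (nat_lit 0) (p (nat_lit 0x38312) (nat_lit 0) (p (nat_lit 0x20292) (nat_lit 0) (p (nat_lit 0x38112) (nat_lit 0) (p (nat_lit 0x20092) (nat_lit 0) (p (nat_lit 0x8012) (nat_lit 0) pn))))))))))))))))))))))))) :=
  Cl.node (nat_lit 0x89) (nat_lit 2) (by decide +kernel) (ClAll.succ (ClAll.succ ClAll.zero n74) n75)

def n111 : Cl (O (nat_lit 5)) (R (nat_lit 14465))
    (p (nat_lit 0xc1) (nat_lit 0) (p (nat_lit 0x101) (nat_lit 1) (p (nat_lit 0x119) (nat_lit 0) (p (nat_lit 0xd1) (nat_lit 0) (p (nat_lit 0x81) (nat_lit 0) (p (nat_lit 0x41) (nat_lit 1) (p (nat_lit 0x10a0b0a89889a) (nat_lit 0) (p (nat_lit 0x98a8a09081a) (nat_lit 0) (p (nat_lit 0x109080988879a) (nat_lit 0) (p (nat_lit 0x8878908071a) (nat_lit 0) (p (nat_lit 0x8000000000800080887868a) (nat_lit 0) (p (nat_lit 0x10888070602) (nat_lit 0) (p (nat_lit 0x807868582) (nat_lit 0) (p (nat_lit 0x10587060502)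 (nat_lit 0) (p (nat_lit 0x506858482) (nat_lit 0) (p (nat_lit 0x16000c) (nat_lit 0) (p (nat_lit 0x68612) (nat_lit 0) (p (nat_lit 0x50592) (nat_lit 0) (p (nat_lit 0x38512) (nat_lit 0) (p (nat_lit 0x50392) (nat_lit 0) (p (nat_lit 0x38312) (nat_lit 0) (p (nat_lit 0x20292) (nat_lit 0) (p (nat_lit 0x38112) (nat_lit 0) (p (nat_lit 0x20092) (nat_lit 0) (p (nat_lit 0x8012) (nat_lit 0) pn))))))))))))))))))))))))) :=
  Cl.node (nat_lit 0x89) (nat_lit 2) (by decide +kernel) (ClAll.succ (ClAll.succ ClAll.zero s101) n76)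

def n112 : Cl (O (nat_lit 5)) (R (nat_lit 14465))
    (p (nat_lit 0xc1) (nat_lit 1) (p (nat_lit 0x101) (nat_lit 1) (p (nat_lit 0x119) (nat_lit 0) (p (nat_lit 0xd1) (nat_lit 0) (p (nat_lit 0x81) (nat_lit 0) (p (nat_lit 0x41) (nat_lit 1) (p (nat_lit 0x10a0b0a89889a) (nat_lit 0) (p (nat_lit 0x98a8a09081a) (nat_lit 0) (p (nat_lit 0x109080988879a) (nat_lit 0) (p (nat_lit 0x8878908071a) (nat_lit 0) (p (nat_lit 0x8000000000800080887868a) (nat_lit 0) (p (nat_lit 0x10888070602) (nat_lit 0) (p (nat_lit 0x807868582) (nat_lit 0) (p (nat_lit 0x10587060502) (nat_lit 0) (p (nat_lit 0x506858482) (nat_lit 0) (p (nat_lit 0x16000c) (nat_lit 0) (p (nat_lit 0x68612) (nat_lit 0) (p (nat_lit 0x50592) (nat_lit 0) (p (nat_lit 0x38512) (nat_lit 0) (p (nat_lit 0x50392) (nat_lit 0) (p (nat_lit 0x38312) (nat_lit 0) (p (nat_lit 0x20292) (nat_lit 0) (p (nat_lit 0x38112) (nat_lit 0) (p (nat_lit 0x20092) (nat_lit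 0) (p (nat_lit 0x8012) (nat_lit 0) pn))))))))))))))))))))))))) :=
  Cl.node (nat_lit 0x89) (nat_lit 2) (by decide +kernel) (ClAll.succ (ClAll.succ ClAll.zero s105) n77)

def n113 : Cl (O (nat_lit 5)) (R (nat_lit 14465))
    (p (nat_lit 0xc9) (nat_lit 1) (p (nat_lit 0xc1) (nat_lit 0) (p (nat_lit 0x119) (nat_lit 1) (p (nat_lit 0xd1) (nat_lit 0) (p (nat_lit 0x81) (nat_lit 0) (p (nat_lit 0x41) (nat_lit 1) (p (nat_lit 0x10a0b0a89889a) (nat_lit 0) (p (nat_lit 0x98a8a09081a) (nat_lit 0) (p (nat_lit 0x109080988879a) (nat_lit 0) (p (nat_lit 0x8878908071a) (nat_lit 0) (p (nat_lit 0x8000000000800080887868a) (nat_lit 0) (p (nat_lit 0x10888070602) (nat_lit 0) (p (nat_lit 0x807868582) (nat_lit 0) (p (nat_lit 0x10587060502) (nat_lit 0) (p (nat_lit 0x506858482) (nat_lit 0) (p (nat_lit 0x16000c) (nat_lit 0) (p (nat_lit 0x68612) (nat_lit 0) (p (nat_lit 0x50592) (nat_lit 0) (p (nat_lit 0x38512)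 (nat_lit 0) (p (nat_lit 0x50392) (nat_lit 0) (p (nat_lit 0x38312) (nat_lit 0) (p (nat_lit 0x20292) (nat_lit 0) (p (nat_lit 0x38112) (nat_lit 0) (p (nat_lit 0x20092) (nat_lit 0) (p (nat_lit 0x8012) (nat_lit 0) pn))))))))))))))))))))))))) :=
  Cl.node (nat_lit 0x89) (nat_lit 2) (by decide +kernel) (ClAll.succ (ClAll.succ ClAll.zero s112) n78)

def n114 : Cl (O (nat_lit 5)) (R (nat_lit 14465))
    (p (nat_lit 0x101) (nat_lit 0) (p (nat_lit 0xc1) (nat_lit 1) (p (nat_lit 0x119) (nat_lit 1) (p (nat_lit 0xd1) (nat_lit 0) (p (nat_lit 0x81) (nat_lit 0) (p (nat_lit 0x41) (nat_lit 1) (p (nat_lit 0x10a0b0a89889a) (nat_lit 0) (p (nat_lit 0x98a8a09081a) (nat_lit 0) (p (nat_lit 0x109080988879a) (nat_lit 0) (p (nat_lit 0x8878908071a) (nat_lit 0) (p (nat_lit 0x8000000000800080887868a) (nat_lit 0) (p (nat_lit 0x10888070602) (nat_lit 0) (p (nat_lit 0x807868582) (nat_lit 0) (p (nat_lit 0x10587060502)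 (nat_lit 0) (p (nat_lit 0x506858482) (nat_lit 0) (p (nat_lit 0x16000c) (nat_lit 0) (p (nat_lit 0x68612) (nat_lit 0) (p (nat_lit 0x50592) (nat_lit 0) (p (nat_lit 0x38512) (nat_lit 0) (p (nat_lit 0x50392) (nat_lit 0) (p (nat_lit 0x38312) (nat_lit 0) (p (nat_lit 0x20292) (nat_lit 0) (p (nat_lit 0x38112) (nat_lit 0) (p (nat_lit 0x20092) (nat_lit 0) (p (nat_lit 0x8012) (nat_lit 0) pn))))))))))))))))))))))))) :=
  Cl.node (nat_lit 0x89) (nat_lit 2) (by decide +kernel) (ClAll.succ (ClAll.succ ClAll.zero s119) n79)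

def n115 : Cl (O (nat_lit 5)) (R (nat_lit 14465))
    (p (nat_lit 0x101) (nat_lit 1) (p (nat_lit 0xc1) (nat_lit 1) (p (nat_lit 0x119) (nat_lit 1) (p (nat_lit 0xd1) (nat_lit 0) (p (nat_lit 0x81) (nat_lit 0) (p (nat_lit 0x41) (nat_lit 1) (p (nat_lit 0x10a0b0a89889a) (nat_lit 0) (p (nat_lit 0x98a8a09081a) (nat_lit 0) (p (nat_lit 0x109080988879a) (nat_lit 0) (p (nat_lit 0x8878908071a) (nat_lit 0) (p (nat_lit 0x8000000000800080887868a) (nat_lit 0) (p (nat_lit 0x10888070602) (nat_lit 0) (p (nat_lit 0x807868582) (nat_lit 0) (p (nat_lit 0x10587060502) (nat_lit 0) (p (nat_lit 0x506858482) (nat_lit 0) (p (nat_lit 0x16000c) (nat_lit 0) (p (nat_lit 0x68612) (nat_lit 0) (p (nat_lit 0x50592) (nat_lit 0) (p (nat_lit 0x38512) (nat_lit 0) (p (nat_lit 0x50392) (nat_lit 0) (p (nat_lit 0x38312) (nat_lit 0) (p (nat_lit 0x20292) (nat_lit 0) (p (nat_lit 0x38112) (nat_lit 0) (p (nat_lit 0x20092) (nat_lit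 0) (p (nat_lit 0x8012) (nat_lit 0) pn))))))))))))))))))))))))) :=
  Cl.node (nat_lit 0x89) (nat_lit 2) (by decide +kernel) (ClAll.succ (ClAll.succ ClAll.zero s124) n80)

def n116 : Cl (O (nat_lit 5)) (R (nat_lit 14465))
    (p (nat_lit 0x109) (nat_lit 1) (p (nat_lit 0x101) (nat_lit 0) (p (nat_lit 0x111) (nat_lit 0) (p (nat_lit 0xd1) (nat_lit 1) (p (nat_lit 0x81) (nat_lit 0) (p (nat_lit 0x41) (nat_lit 1) (p (nat_lit 0x10a0b0a89889a) (nat_lit 0) (p (nat_lit 0x98a8a09081a) (nat_lit 0) (p (nat_lit 0x109080988879a) (nat_lit 0) (p (nat_lit 0x8878908071a) (nat_lit 0) (p (nat_lit 0x8000000000800080887868a) (nat_lit 0) (p (nat_lit 0x10888070602) (nat_lit 0) (p (nat_lit 0x807868582) (nat_lit 0) (p (nat_lit 0x10587060502) (nat_lit 0) (p (nat_lit 0x506858482) (nat_lit 0) (p (nat_lit 0x16000c) (nat_lit 0) (p (nat_lit 0x68612) (nat_lit 0) (p (nat_lit 0x50592) (nat_lit 0) (p (nat_lit 0x38512)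 (nat_lit 0) (p (nat_lit 0x50392) (nat_lit 0) (p (nat_lit 0x38312) (nat_lit 0) (p (nat_lit 0x20292) (nat_lit 0) (p (nat_lit 0x38112) (nat_lit 0) (p (nat_lit 0x20092) (nat_lit 0) (p (nat_lit 0x8012) (nat_lit 0) pn))))))))))))))))))))))))) :=
  Cl.node (nat_lit 0x89) (nat_lit 2) (by decide +kernel) (ClAll.succ (ClAll.succ ClAll.zero s132) n81)

def n117 : Cl (O (nat_lit 5)) (R (nat_lit 14465))
    (p (nat_lit 0x89) (nat_lit 0) (p (nat_lit 0x101) (nat_lit 1) (p (nat_lit 0x111) (nat_lit 0) (p (nat_lit 0xd1) (nat_lit 1) (p (nat_lit 0x81) (nat_lit 0) (p (nat_lit 0x41) (nat_lit 1) (p (nat_lit 0x10a0b0a89889a) (nat_lit 0) (p (nat_lit 0x98a8a09081a) (nat_lit 0) (p (nat_lit 0x109080988879a) (nat_lit 0) (p (nat_lit 0x8878908071a) (nat_lit 0) (p (nat_lit 0x8000000000800080887868a) (nat_lit 0) (p (nat_lit 0x10888070602) (nat_lit 0) (p (nat_lit 0x807868582) (nat_lit 0) (p (nat_lit 0x10587060502)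 (nat_lit 0) (p (nat_lit 0x506858482) (nat_lit 0) (p (nat_lit 0x16000c) (nat_lit 0) (p (nat_lit 0x68612) (nat_lit 0) (p (nat_lit 0x50592) (nat_lit 0) (p (nat_lit 0x38512) (nat_lit 0) (p (nat_lit 0x50392) (nat_lit 0) (p (nat_lit 0x38312) (nat_lit 0) (p (nat_lit 0x20292) (nat_lit 0) (p (nat_lit 0x38112) (nat_lit 0) (p (nat_lit 0x20092) (nat_lit 0) (p (nat_lit 0x8012) (nat_lit 0) pn))))))))))))))))))))))))) :=
  Cl.node (nat_lit 0x200004) (nat_lit 2) (by decide +kernel) (ClAll.succ (ClAll.succ ClAll.zero n82) s138)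

def n118 : Cl (O (nat_lit 5)) (R (nat_lit 14465))
    (p (nat_lit 0x89) (nat_lit 1) (p (nat_lit 0x101) (nat_lit 1) (p (nat_lit 0x111) (nat_lit 0) (p (nat_lit 0xd1) (nat_lit 1) (p (nat_lit 0x81) (nat_lit 0) (p (nat_lit 0x41) (nat_lit 1) (p (nat_lit 0x10a0b0a89889a) (nat_lit 0) (p (nat_lit 0x98a8a09081a) (nat_lit 0) (p (nat_lit 0x109080988879a) (nat_lit 0) (p (nat_lit 0x8878908071a) (nat_lit 0) (p (nat_lit 0x8000000000800080887868a) (nat_lit 0) (p (nat_lit 0x10888070602) (nat_lit 0) (p (nat_lit 0x807868582) (nat_lit 0) (p (nat_lit 0x10587060502) (nat_lit 0) (p (nat_lit 0x506858482) (nat_lit 0) (p (nat_lit 0x16000c) (nat_lit 0) (p (nat_lit 0x68612) (nat_lit 0) (p (nat_lit 0x50592) (nat_lit 0) (p (nat_lit 0x38512) (nat_lit 0) (p (nat_lit 0x50392) (nat_lit 0) (p (nat_lit 0x38312) (nat_lit 0) (p (nat_lit 0x20292) (nat_lit 0) (p (nat_lit 0x38112) (nat_lit 0) (p (nat_lit 0x20092) (nat_lit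 0) (p (nat_lit 0x8012) (nat_lit 0) pn))))))))))))))))))))))))) :=
  Cl.node (nat_lit 0xc9) (nat_lit 2) (by decide +kernel) (ClAll.succ (ClAll.succ ClAll.zero n83) n84)

def n119 : Cl (O (nat_lit 5)) (R (nat_lit 14465))
    (p (nat_lit 0xc9) (nat_lit 1) (p (nat_lit 0x89) (nat_lit 1) (p (nat_lit 0x111) (nat_lit 1) (p (nat_lit 0xd1) (nat_lit 1) (p (nat_lit 0x81) (nat_lit 0) (p (nat_lit 0x41) (nat_lit 1) (p (nat_lit 0x10a0b0a89889a) (nat_lit 0) (p (nat_lit 0x98a8a09081a) (nat_lit 0) (p (nat_lit 0x109080988879a) (nat_lit 0) (p (nat_lit 0x8878908071a) (nat_lit 0) (p (nat_lit 0x8000000000800080887868a) (nat_lit 0) (p (nat_lit 0x10888070602) (nat_lit 0) (p (nat_lit 0x807868582) (nat_lit 0) (p (nat_lit 0x10587060502) (nat_lit 0) (p (nat_lit 0x506858482) (nat_lit 0) (p (nat_lit 0x16000c) (nat_lit 0) (p (nat_lit 0x68612) (nat_lit 0) (p (nat_lit 0x50592) (nat_lit 0) (p (nat_lit 0x38512)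 (nat_lit 0) (p (nat_lit 0x50392) (nat_lit 0) (p (nat_lit 0x38312) (nat_lit 0) (p (nat_lit 0x20292) (nat_lit 0) (p (nat_lit 0x38112) (nat_lit 0) (p (nat_lit 0x20092) (nat_lit 0) (p (nat_lit 0x8012) (nat_lit 0) pn))))))))))))))))))))))))) :=
  Cl.node (nat_lit 0x109) (nat_lit 2) (by decide +kernel) (ClAll.succ (ClAll.succ ClAll.zero s148) n85)

def n120 : Cl (O (nat_lit 5)) (R (nat_lit 14465))
    (p (nat_lit 0x109) (nat_lit 0) (p (nat_lit 0x101) (nat_lit 0) (p (nat_lit 0x119) (nat_lit 0) (p (nat_lit 0xc1) (nat_lit 0) (p (nat_lit 0x81) (nat_lit 1) (p (nat_lit 0x41) (nat_lit 1) (p (nat_lit 0x10a0b0a89889a) (nat_lit 0) (p (nat_lit 0x98a8a09081a) (nat_lit 0) (p (nat_lit 0x109080988879a) (nat_lit 0) (p (nat_lit 0x8878908071a) (nat_lit 0) (p (nat_lit 0x8000000000800080887868a) (nat_lit 0) (p (nat_lit 0x10888070602) (nat_lit 0) (p (nat_lit 0x807868582) (nat_lit 0) (p (nat_lit 0x10587060502)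 (nat_lit 0) (p (nat_lit 0x506858482) (nat_lit 0) (p (nat_lit 0x16000c) (nat_lit 0) (p (nat_lit 0x68612) (nat_lit 0) (p (nat_lit 0x50592) (nat_lit 0) (p (nat_lit 0x38512) (nat_lit 0) (p (nat_lit 0x50392) (nat_lit 0) (p (nat_lit 0x38312) (nat_lit 0) (p (nat_lit 0x20292) (nat_lit 0) (p (nat_lit 0x38112) (nat_lit 0) (p (nat_lit 0x20092) (nat_lit 0) (p (nat_lit 0x8012) (nat_lit 0) pn))))))))))))))))))))))))) :=
  Cl.node (nat_lit 0x111) (nat_lit 2) (by decide +kernel) (ClAll.succ (ClAll.succ ClAll.zero s151) n86)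

def n121 : Cl (O (nat_lit 5)) (R (nat_lit 14465))
    (p (nat_lit 0x109) (nat_lit 1) (p (nat_lit 0x101) (nat_lit 0) (p (nat_lit 0x119) (nat_lit 0) (p (nat_lit 0xc1) (nat_lit 0) (p (nat_lit 0x81) (nat_lit 1) (p (nat_lit 0x41) (nat_lit 1) (p (nat_lit 0x10a0b0a89889a) (nat_lit 0) (p (nat_lit 0x98a8a09081a) (nat_lit 0) (p (nat_lit 0x109080988879a) (nat_lit 0) (p (nat_lit 0x8878908071a) (nat_lit 0) (p (nat_lit 0x8000000000800080887868a) (nat_lit 0) (p (nat_lit 0x10888070602) (nat_lit 0) (p (nat_lit 0x807868582) (nat_lit 0) (p (nat_lit 0x10587060502) (nat_lit 0) (p (nat_lit 0x506858482) (nat_lit 0) (p (nat_lit 0x16000c) (nat_lit 0) (p (nat_lit 0x68612) (nat_lit 0) (p (nat_lit 0x50592) (nat_lit 0) (p (nat_lit 0x38512) (nat_lit 0) (p (nat_lit 0x50392) (nat_lit 0) (p (nat_lit 0x38312) (nat_lit 0) (p (nat_lit 0x20292) (nat_lit 0) (p (nat_lit 0x38112) (nat_lit 0) (p (nat_lit 0x20092) (nat_lit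 0) (p (nat_lit 0x8012) (nat_lit 0) pn))))))))))))))))))))))))) :=
  Cl.node (nat_lit 0xc9) (nat_lit 2) (by decide +kernel) (ClAll.succ (ClAll.succ ClAll.zero n87) s158)

def n122 : Cl (O (nat_lit 5)) (R (nat_lit 14465))
    (p (nat_lit 0xc9) (nat_lit 0) (p (nat_lit 0x101) (nat_lit 1) (p (nat_lit 0x119) (nat_lit 0) (p (nat_lit 0xc1) (nat_lit 0) (p (nat_lit 0x81) (nat_lit 1) (p (nat_lit 0x41) (nat_lit 1) (p (nat_lit 0x10a0b0a89889a) (nat_lit 0) (p (nat_lit 0x98a8a09081a) (nat_lit 0) (p (nat_lit 0x109080988879a) (nat_lit 0) (p (nat_lit 0x8878908071a) (nat_lit 0) (p (nat_lit 0x8000000000800080887868a) (nat_lit 0) (p (nat_lit 0x10888070602) (nat_lit 0) (p (nat_lit 0x807868582) (nat_lit 0) (p (nat_lit 0x10587060502) (nat_lit 0) (p (nat_lit 0x506858482) (nat_lit 0) (p (nat_lit 0x16000c) (nat_lit 0) (p (nat_lit 0x68612) (nat_lit 0) (p (nat_lit 0x50592) (nat_lit 0) (p (nat_lit 0x38512)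 (nat_lit 0) (p (nat_lit 0x50392) (nat_lit 0) (p (nat_lit 0x38312) (nat_lit 0) (p (nat_lit 0x20292) (nat_lit 0) (p (nat_lit 0x38112) (nat_lit 0) (p (nat_lit 0x20092) (nat_lit 0) (p (nat_lit 0x8012) (nat_lit 0) pn))))))))))))))))))))))))) :=
  Cl.node (nat_lit 0xd1) (nat_lit 2) (by decide +kernel) (ClAll.succ (ClAll.succ ClAll.zero n88) n89)

def n123 : Cl (O (nat_lit 5)) (R (nat_lit 14465))
    (p (nat_lit 0xc9) (nat_lit 1) (p (nat_lit 0x101) (nat_lit 1) (p (nat_lit 0x119) (nat_lit 0) (p (nat_lit 0xc1) (nat_lit 0) (p (nat_lit 0x81) (nat_lit 1) (p (nat_lit 0x41) (nat_lit 1) (p (nat_lit 0x10a0b0a89889a) (nat_lit 0) (p (nat_lit 0x98a8a09081a) (nat_lit 0) (p (nat_lit 0x109080988879a) (nat_lit 0) (p (nat_lit 0x8878908071a) (nat_lit 0) (p (nat_lit 0x8000000000800080887868a) (nat_lit 0) (p (nat_lit 0x10888070602) (nat_lit 0) (p (nat_lit 0x807868582) (nat_lit 0) (p (nat_lit 0x10587060502)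 (nat_lit 0) (p (nat_lit 0x506858482) (nat_lit 0) (p (nat_lit 0x16000c) (nat_lit 0) (p (nat_lit 0x68612) (nat_lit 0) (p (nat_lit 0x50592) (nat_lit 0) (p (nat_lit 0x38512) (nat_lit 0) (p (nat_lit 0x50392) (nat_lit 0) (p (nat_lit 0x38312) (nat_lit 0) (p (nat_lit 0x20292) (nat_lit 0) (p (nat_lit 0x38112) (nat_lit 0) (p (nat_lit 0x20092) (nat_lit 0) (p (nat_lit 0x8012) (nat_lit 0) pn))))))))))))))))))))))))) :=
  Cl.node (nat_lit 0x200004) (nat_lit 2) (by decide +kernel) (ClAll.succ (ClAll.succ ClAll.zero s164) s165)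

def n124 : Cl (O (nat_lit 5)) (R (nat_lit 14465))
    (p (nat_lit 0xd1) (nat_lit 1) (p (nat_lit 0xc9) (nat_lit 0) (p (nat_lit 0x119) (nat_lit 1) (p (nat_lit 0xc1) (nat_lit 0) (p (nat_lit 0x81) (nat_lit 1) (p (nat_lit 0x41) (nat_lit 1) (p (nat_lit 0x10a0b0a89889a) (nat_lit 0) (p (nat_lit 0x98a8a09081a) (nat_lit 0) (p (nat_lit 0x109080988879a) (nat_lit 0) (p (nat_lit 0x8878908071a) (nat_lit 0) (p (nat_lit 0x8000000000800080887868a) (nat_lit 0) (p (nat_lit 0x10888070602) (nat_lit 0) (p (nat_lit 0x807868582) (nat_lit 0) (p (nat_lit 0x10587060502) (nat_lit 0) (p (nat_lit 0x506858482) (nat_lit 0) (p (nat_lit 0x16000c) (nat_lit 0) (p (nat_lit 0x68612) (nat_lit 0) (p (nat_lit 0x50592) (nat_lit 0) (p (nat_lit 0x38512) (nat_lit 0) (p (nat_lit 0x50392) (nat_lit 0) (p (nat_lit 0x38312) (nat_lit 0) (p (nat_lit 0x20292) (nat_lit 0) (p (nat_lit 0x38112) (nat_lit 0) (p (nat_lit 0x20092) (nat_lit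 0) (p (nat_lit 0x8012) (nat_lit 0) pn))))))))))))))))))))))))) :=
  Cl.node (nat_lit 0x111) (nat_lit 2) (by decide +kernel) (ClAll.succ (ClAll.succ ClAll.zero s167) n90)

def n125 : Cl (O (nat_lit 5)) (R (nat_lit 14465))
    (p (nat_lit 0x109) (nat_lit 0) (p (nat_lit 0xc9) (nat_lit 1) (p (nat_lit 0x119) (nat_lit 1) (p (nat_lit 0xc1) (nat_lit 0) (p (nat_lit 0x81) (nat_lit 1) (p (nat_lit 0x41) (nat_lit 1) (p (nat_lit 0x10a0b0a89889a) (nat_lit 0) (p (nat_lit 0x98a8a09081a) (nat_lit 0) (p (nat_lit 0x109080988879a) (nat_lit 0) (p (nat_lit 0x8878908071a) (nat_lit 0) (p (nat_lit 0x8000000000800080887868a) (nat_lit 0) (p (nat_lit 0x10888070602) (nat_lit 0) (p (nat_lit 0x807868582) (nat_lit 0) (p (nat_lit 0x10587060502) (nat_lit 0) (p (nat_lit 0x506858482) (nat_lit 0) (p (nat_lit 0x16000c) (nat_lit 0) (p (nat_lit 0x68612) (nat_lit 0) (p (nat_lit 0x50592) (nat_lit 0) (p (nat_lit 0x38512)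 (nat_lit 0) (p (nat_lit 0x50392) (nat_lit 0) (p (nat_lit 0x38312) (nat_lit 0) (p (nat_lit 0x20292) (nat_lit 0) (p (nat_lit 0x38112) (nat_lit 0) (p (nat_lit 0x20092) (nat_lit 0) (p (nat_lit 0x8012) (nat_lit 0) pn))))))))))))))))))))))))) :=
  Cl.node (nat_lit 0x111) (nat_lit 2) (by decide +kernel) (ClAll.succ (ClAll.succ ClAll.zero s170) n91)

def n126 : Cl (O (nat_lit 5)) (R (nat_lit 14465))
    (p (nat_lit 0x111) (nat_lit 0) (p (nat_lit 0x109) (nat_lit 0) (p (nat_lit 0x101) (nat_lit 0) (p (nat_lit 0xc1) (nat_lit 1) (p (nat_lit 0x81) (nat_lit 1) (p (nat_lit 0x41) (nat_lit 1) (p (nat_lit 0x10a0b0a89889a) (nat_lit 0) (p (nat_lit 0x98a8a09081a) (nat_lit 0) (p (nat_lit 0x109080988879a) (nat_lit 0) (p (nat_lit 0x8878908071a) (nat_lit 0) (p (nat_lit 0x8000000000800080887868a) (nat_lit 0) (p (nat_lit 0x10888070602) (nat_lit 0) (p (nat_lit 0x807868582) (nat_lit 0) (p (nat_lit 0x10587060502)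 (nat_lit 0) (p (nat_lit 0x506858482) (nat_lit 0) (p (nat_lit 0x16000c) (nat_lit 0) (p (nat_lit 0x68612) (nat_lit 0) (p (nat_lit 0x50592) (nat_lit 0) (p (nat_lit 0x38512) (nat_lit 0) (p (nat_lit 0x50392) (nat_lit 0) (p (nat_lit 0x38312) (nat_lit 0) (p (nat_lit 0x20292) (nat_lit 0) (p (nat_lit 0x38112) (nat_lit 0) (p (nat_lit 0x20092) (nat_lit 0) (p (nat_lit 0x8012) (nat_lit 0) pn))))))))))))))))))))))))) :=
  Cl.node (nat_lit 0x119) (nat_lit 2) (by decide +kernel) (ClAll.succ (ClAll.succ ClAll.zero s175) n92)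

def n127 : Cl (O (nat_lit 5)) (R (nat_lit 14465))
    (p (nat_lit 0x111) (nat_lit 1) (p (nat_lit 0x109) (nat_lit 0) (p (nat_lit 0x101) (nat_lit 0) (p (nat_lit 0xc1) (nat_lit 1) (p (nat_lit 0x81) (nat_lit 1) (p (nat_lit 0x41) (nat_lit 1) (p (nat_lit 0x10a0b0a89889a) (nat_lit 0) (p (nat_lit 0x98a8a09081a) (nat_lit 0) (p (nat_lit 0x109080988879a) (nat_lit 0) (p (nat_lit 0x8878908071a) (nat_lit 0) (p (nat_lit 0x8000000000800080887868a) (nat_lit 0) (p (nat_lit 0x10888070602) (nat_lit 0) (p (nat_lit 0x807868582) (nat_lit 0) (p (nat_lit 0x10587060502) (nat_lit 0) (p (nat_lit 0x506858482) (nat_lit 0) (p (nat_lit 0x16000c) (nat_lit 0) (p (nat_lit 0x68612) (nat_lit 0) (p (nat_lit 0x50592) (nat_lit 0) (p (nat_lit 0x38512) (nat_lit 0) (p (nat_lit 0x50392) (nat_lit 0) (p (nat_lit 0x38312) (nat_lit 0) (p (nat_lit 0x20292) (nat_lit 0) (p (nat_lit 0x38112) (nat_lit 0) (p (nat_lit 0x20092) (nat_lit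 0) (p (nat_lit 0x8012) (nat_lit 0) pn))))))))))))))))))))))))) :=
  Cl.node (nat_lit 0x200004) (nat_lit 2) (by decide +kernel) (ClAll.succ (ClAll.succ ClAll.zero s178) s179)

def n128 : Cl (O (nat_lit 5)) (R (nat_lit 14465))
    (p (nat_lit 0x101) (nat_lit 0) (p (nat_lit 0x119) (nat_lit 0) (p (nat_lit 0xd1) (nat_lit 0) (p (nat_lit 0x89) (nat_lit 0) (p (nat_lit 0x41) (nat_lit 0) (p (nat_lit 0x10a0b0a89889a) (nat_lit 0) (p (nat_lit 0x98a8a09081a) (nat_lit 0) (p (nat_lit 0x109080988879a) (nat_lit 0) (p (nat_lit 0x8878908071a) (nat_lit 0) (p (nat_lit 0x8000000000800080887868a) (nat_lit 0) (p (nat_lit 0x10888070602) (nat_lit 0) (p (nat_lit 0x807868582) (nat_lit 0) (p (nat_lit 0x10587060502) (nat_lit 0) (p (nat_lit 0x506858482) (nat_lit 0) (p (nat_lit 0x16000c) (nat_lit 0) (p (nat_lit 0x68612) (nat_lit 0) (p (nat_lit 0x50592) (nat_lit 0) (p (nat_lit 0x38512) (nat_lit 0) (p (nat_lit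 0x50392) (nat_lit 0) (p (nat_lit 0x38312) (nat_lit 0) (p (nat_lit 0x20292) (nat_lit 0) (p (nat_lit 0x38112) (nat_lit 0) (p (nat_lit 0x20092) (nat_lit 0) (p (nat_lit 0x8012) (nat_lit 0) pn)))))))))))))))))))))))) :=
  Cl.node (nat_lit 0x109) (nat_lit 2) (by decide +kernel) (ClAll.succ (ClAll.succ ClAll.zero s0) n93)

def n129 : Cl (O (nat_lit 5)) (R (nat_lit 14465))
    (p (nat_lit 0x101) (nat_lit 1) (p (nat_lit 0x119) (nat_lit 0) (p (nat_lit 0xd1) (nat_lit 0) (p (nat_lit 0x89) (nat_lit 0) (p (nat_lit 0x41) (nat_lit 0) (p (nat_lit 0x10a0b0a89889a) (nat_lit 0) (p (nat_lit 0x98a8a09081a) (nat_lit 0) (p (nat_lit 0x109080988879a) (nat_lit 0) (p (nat_lit 0x8878908071a) (nat_lit 0) (p (nat_lit 0x8000000000800080887868a) (nat_lit 0) (p (nat_lit 0x10888070602) (nat_lit 0) (p (nat_lit 0x807868582) (nat_lit 0) (p (nat_lit 0x10587060502) (nat_lit 0) (p (nat_lit 0x506858482) (nat_lit 0) (p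 (nat_lit 0x16000c) (nat_lit 0) (p (nat_lit 0x68612) (nat_lit 0) (p (nat_lit 0x50592) (nat_lit 0) (p (nat_lit 0x38512) (nat_lit 0) (p (nat_lit 0x50392) (nat_lit 0) (p (nat_lit 0x38312) (nat_lit 0) (p (nat_lit 0x20292) (nat_lit 0) (p (nat_lit 0x38112) (nat_lit 0) (p (nat_lit 0x20092) (nat_lit 0) (p (nat_lit 0x8012) (nat_lit 0) pn)))))))))))))))))))))))) :=
  Cl.node (nat_lit 0x81) (nat_lit 2) (by decide +kernel) (ClAll.succ (ClAll.succ ClAll.zero n94) n95)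

def n130 : Cl (O (nat_lit 5)) (R (nat_lit 14465))
    (p (nat_lit 0xc1) (nat_lit 0) (p (nat_lit 0x119) (nat_lit 1) (p (nat_lit 0xd1) (nat_lit 0) (p (nat_lit 0x89) (nat_lit 0) (p (nat_lit 0x41) (nat_lit 0) (p (nat_lit 0x10a0b0a89889a) (nat_lit 0) (p (nat_lit 0x98a8a09081a) (nat_lit 0) (p (nat_lit 0x109080988879a) (nat_lit 0) (p (nat_lit 0x8878908071a) (nat_lit 0) (p (nat_lit 0x8000000000800080887868a) (nat_lit 0) (p (nat_lit 0x10888070602) (nat_lit 0) (p (nat_lit 0x807868582) (nat_lit 0) (p (nat_lit 0x10587060502) (nat_lit 0) (p (nat_lit 0x506858482) (nat_lit 0) (p (nat_lit 0x16000c) (nat_lit 0) (p (nat_lit 0x68612) (nat_lit 0) (p (nat_lit 0x50592) (nat_lit 0) (p (nat_lit 0x38512) (nat_lit 0) (p (nat_lit 0x50392) (nat_lit 0) (p (nat_lit 0x38312) (nat_lit 0) (p (nat_lit 0x20292) (nat_lit 0) (p (nat_lit 0x38112) (nat_lit 0) (p (nat_lit 0x20092) (nat_lit 0) (p (nat_lit 0x8012) (nat_lit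 0) pn)))))))))))))))))))))))) :=
  Cl.node (nat_lit 0xc9) (nat_lit 2) (by decide +kernel) (ClAll.succ (ClAll.succ ClAll.zero s13) n96)

def n131 : Cl (O (nat_lit 5)) (R (nat_lit 14465))
    (p (nat_lit 0xc1) (nat_lit 1) (p (nat_lit 0x119) (nat_lit 1) (p (nat_lit 0xd1) (nat_lit 0) (p (nat_lit 0x89) (nat_lit 0) (p (nat_lit 0x41) (nat_lit 0) (p (nat_lit 0x10a0b0a89889a) (nat_lit 0) (p (nat_lit 0x98a8a09081a) (nat_lit 0) (p (nat_lit 0x109080988879a) (nat_lit 0) (p (nat_lit 0x8878908071a) (nat_lit 0) (p (nat_lit 0x8000000000800080887868a) (nat_lit 0) (p (nat_lit 0x10888070602) (nat_lit 0) (p (nat_lit 0x807868582) (nat_lit 0) (p (nat_lit 0x10587060502) (nat_lit 0) (p (nat_lit 0x506858482) (nat_lit 0) (p (nat_lit 0x16000c) (nat_lit 0) (p (nat_lit 0x68612) (nat_lit 0) (p (nat_lit 0x50592) (nat_lit 0) (p (nat_lit 0x38512) (nat_lit 0) (p (nat_lit 0x50392) (nat_lit 0) (p (nat_lit 0x38312)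 (nat_lit 0) (p (nat_lit 0x20292) (nat_lit 0) (p (nat_lit 0x38112) (nat_lit 0) (p (nat_lit 0x20092) (nat_lit 0) (p (nat_lit 0x8012) (nat_lit 0) pn)))))))))))))))))))))))) :=
  Cl.node (nat_lit 0x81) (nat_lit 2) (by decide +kernel) (ClAll.succ (ClAll.succ ClAll.zero n97) n98)

def n132 : Cl (O (nat_lit 5)) (R (nat_lit 14465))
    (p (nat_lit 0x101) (nat_lit 0) (p (nat_lit 0x111) (nat_lit 0) (p (nat_lit 0xd1) (nat_lit 1) (p (nat_lit 0x89) (nat_lit 0) (p (nat_lit 0x41) (nat_lit 0) (p (nat_lit 0x10a0b0a89889a) (nat_lit 0) (p (nat_lit 0x98a8a09081a) (nat_lit 0) (p (nat_lit 0x109080988879a) (nat_lit 0) (p (nat_lit 0x8878908071a) (nat_lit 0) (p (nat_lit 0x8000000000800080887868a) (nat_lit 0) (p (nat_lit 0x10888070602) (nat_lit 0) (p (nat_lit 0x807868582) (nat_lit 0) (p (nat_lit 0x10587060502) (nat_lit 0) (p (nat_lit 0x506858482) (nat_lit 0) (p (nat_lit 0x16000c) (nat_lit 0) (p (nat_lit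 0x68612) (nat_lit 0) (p (nat_lit 0x50592) (nat_lit 0) (p (nat_lit 0x38512) (nat_lit 0) (p (nat_lit 0x50392) (nat_lit 0) (p (nat_lit 0x38312) (nat_lit 0) (p (nat_lit 0x20292) (nat_lit 0) (p (nat_lit 0x38112) (nat_lit 0) (p (nat_lit 0x20092) (nat_lit 0) (p (nat_lit 0x8012) (nat_lit 0) pn)))))))))))))))))))))))) :=
  Cl.node (nat_lit 0x109) (nat_lit 2) (by decide +kernel) (ClAll.succ (ClAll.succ ClAll.zero s30) n99)

def n133 : Cl (O (nat_lit 5)) (R (nat_lit 14465))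
    (p (nat_lit 0x101) (nat_lit 1) (p (nat_lit 0x111) (nat_lit 0) (p (nat_lit 0xd1) (nat_lit 1) (p (nat_lit 0x89) (nat_lit 0) (p (nat_lit 0x41) (nat_lit 0) (p (nat_lit 0x10a0b0a89889a) (nat_lit 0) (p (nat_lit 0x98a8a09081a) (nat_lit 0) (p (nat_lit 0x109080988879a) (nat_lit 0) (p (nat_lit 0x8878908071a) (nat_lit 0) (p (nat_lit 0x8000000000800080887868a) (nat_lit 0) (p (nat_lit 0x10888070602) (nat_lit 0) (p (nat_lit 0x807868582) (nat_lit 0) (p (nat_lit 0x10587060502) (nat_lit 0) (p (nat_lit 0x506858482) (nat_lit 0) (p (nat_lit 0x16000c) (nat_lit 0) (p (nat_lit 0x68612) (nat_lit 0) (p (nat_lit 0x50592) (nat_lit 0) (p (nat_lit 0x38512) (nat_lit 0) (p (nat_lit 0x50392) (nat_lit 0) (p (nat_lit 0x38312) (nat_lit 0) (p (nat_lit 0x20292) (nat_lit 0) (p (nat_lit 0x38112) (nat_lit 0) (p (nat_lit 0x20092) (nat_lit 0) (p (nat_lit 0x8012) (nat_lit 0) pn)))))))))))))))))))))))) :=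
  Cl.node (nat_lit 0x81) (nat_lit 2) (by decide +kernel) (ClAll.succ (ClAll.succ ClAll.zero n100) n101)

def n134 : Cl (O (nat_lit 5)) (R (nat_lit 14465))
    (p (nat_lit 0x81) (nat_lit 1) (p (nat_lit 0x111) (nat_lit 1) (p (nat_lit 0xd1) (nat_lit 1) (p (nat_lit 0x89) (nat_lit 0) (p (nat_lit 0x41) (nat_lit 0) (p (nat_lit 0x10a0b0a89889a) (nat_lit 0) (p (nat_lit 0x98a8a09081a) (nat_lit 0) (p (nat_lit 0x109080988879a) (nat_lit 0) (p (nat_lit 0x8878908071a) (nat_lit 0) (p (nat_lit 0x8000000000800080887868a) (nat_lit 0) (p (nat_lit 0x10888070602) (nat_lit 0) (p (nat_lit 0x807868582) (nat_lit 0) (p (nat_lit 0x10587060502) (nat_lit 0) (p (nat_lit 0x506858482) (nat_lit 0) (p (nat_lit 0x16000c) (nat_lit 0) (p (nat_lit 0x68612) (nat_lit 0) (p (nat_lit 0x50592) (nat_lit 0) (p (nat_lit 0x38512) (nat_lit 0) (p (nat_lit 0x50392) (nat_lit 0) (p (nat_lit 0x38312) (nat_lit 0) (p (nat_lit 0x20292)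 (nat_lit 0) (p (nat_lit 0x38112) (nat_lit 0) (p (nat_lit 0x20092) (nat_lit 0) (p (nat_lit 0x8012) (nat_lit 0) pn)))))))))))))))))))))))) :=
  Cl.node (nat_lit 0xc1) (nat_lit 2) (by decide +kernel) (ClAll.succ (ClAll.succ ClAll.zero s49) n102)

def n135 : Cl (O (nat_lit 5)) (R (nat_lit 14465))
    (p (nat_lit 0x101) (nat_lit 0) (p (nat_lit 0x119) (nat_lit 0) (p (nat_lit 0xc9) (nat_lit 0) (p (nat_lit 0x89) (nat_lit 1) (p (nat_lit 0x41) (nat_lit 0) (p (nat_lit 0x10a0b0a89889a) (nat_lit 0) (p (nat_lit 0x98a8a09081a) (nat_lit 0) (p (nat_lit 0x109080988879a) (nat_lit 0) (p (nat_lit 0x8878908071a) (nat_lit 0) (p (nat_lit 0x8000000000800080887868a) (nat_lit 0) (p (nat_lit 0x10888070602) (nat_lit 0) (p (nat_lit 0x807868582) (nat_lit 0) (p (nat_lit 0x10587060502) (nat_lit 0) (p (nat_lit 0x506858482) (nat_lit 0) (p (nat_lit 0x16000c) (nat_lit 0) (p (nat_lit 0x68612) (nat_lit 0) (p (nat_lit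 0x50592) (nat_lit 0) (p (nat_lit 0x38512) (nat_lit 0) (p (nat_lit 0x50392) (nat_lit 0) (p (nat_lit 0x38312) (nat_lit 0) (p (nat_lit 0x20292) (nat_lit 0) (p (nat_lit 0x38112) (nat_lit 0) (p (nat_lit 0x20092) (nat_lit 0) (p (nat_lit 0x8012) (nat_lit 0) pn)))))))))))))))))))))))) :=
  Cl.node (nat_lit 0x109) (nat_lit 2) (by decide +kernel) (ClAll.succ (ClAll.succ ClAll.zero n103) n104)

def n136 : Cl (O (nat_lit 5)) (R (nat_lit 14465))
    (p (nat_lit 0x101) (nat_lit 1) (p (nat_lit 0x119) (nat_lit 0) (p (nat_lit 0xc9) (nat_lit 0) (p (nat_lit 0x89) (nat_lit 1) (p (nat_lit 0x41) (nat_lit 0) (p (nat_lit 0x10a0b0a89889a) (nat_lit 0) (p (nat_lit 0x98a8a09081a) (nat_lit 0) (p (nat_lit 0x109080988879a) (nat_lit 0) (p (nat_lit 0x8878908071a) (nat_lit 0) (p (nat_lit 0x8000000000800080887868a) (nat_lit 0) (p (nat_lit 0x10888070602) (nat_lit 0) (p (nat_lit 0x807868582) (nat_lit 0) (p (nat_lit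 0x10587060502) (nat_lit 0) (p (nat_lit 0x506858482) (nat_lit 0) (p (nat_lit 0x16000c) (nat_lit 0) (p (nat_lit 0x68612) (nat_lit 0) (p (nat_lit 0x50592) (nat_lit 0) (p (nat_lit 0x38512) (nat_lit 0) (p (nat_lit 0x50392) (nat_lit 0) (p (nat_lit 0x38312) (nat_lit 0) (p (nat_lit 0x20292) (nat_lit 0) (p (nat_lit 0x38112) (nat_lit 0) (p (nat_lit 0x20092) (nat_lit 0) (p (nat_lit 0x8012) (nat_lit 0) pn)))))))))))))))))))))))) :=
  Cl.node (nat_lit 0xc1) (nat_lit 2) (by decide +kernel) (ClAll.succ (ClAll.succ ClAll.zero n105) s76)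

def n137 : Cl (O (nat_lit 5)) (R (nat_lit 14465))
    (p (nat_lit 0xc1) (nat_lit 0) (p (nat_lit 0x119) (nat_lit 1) (p (nat_lit 0xc9) (nat_lit 0) (p (nat_lit 0x89) (nat_lit 1) (p (nat_lit 0x41) (nat_lit 0) (p (nat_lit 0x10a0b0a89889a) (nat_lit 0) (p (nat_lit 0x98a8a09081a) (nat_lit 0) (p (nat_lit 0x109080988879a) (nat_lit 0) (p (nat_lit 0x8878908071a) (nat_lit 0) (p (nat_lit 0x8000000000800080887868a) (nat_lit 0) (p (nat_lit 0x10888070602) (nat_lit 0) (p (nat_lit 0x807868582) (nat_lit 0) (p (nat_lit 0x10587060502) (nat_lit 0) (p (nat_lit 0x506858482) (nat_lit 0) (p (nat_lit 0x16000c) (nat_lit 0) (p (nat_lit 0x68612) (nat_lit 0) (p (nat_lit 0x50592) (nat_lit 0) (p (nat_lit 0x38512) (nat_lit 0) (p (nat_lit 0x50392) (nat_lit 0) (p (nat_lit 0x38312) (nat_lit 0) (p (nat_lit 0x20292) (nat_lit 0) (p (nat_lit 0x38112) (nat_lit 0) (p (nat_lit 0x20092) (nat_lit 0) (p (nat_lit 0x8012) (nat_lit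 0) pn)))))))))))))))))))))))) :=
  Cl.node (nat_lit 0xd1) (nat_lit 2) (by decide +kernel) (ClAll.succ (ClAll.succ ClAll.zero s77) n106)

def n138 : Cl (O (nat_lit 5)) (R (nat_lit 14465))
    (p (nat_lit 0xc1) (nat_lit 1) (p (nat_lit 0x119) (nat_lit 1) (p (nat_lit 0xc9) (nat_lit 0) (p (nat_lit 0x89) (nat_lit 1) (p (nat_lit 0x41) (nat_lit 0) (p (nat_lit 0x10a0b0a89889a) (nat_lit 0) (p (nat_lit 0x98a8a09081a) (nat_lit 0) (p (nat_lit 0x109080988879a) (nat_lit 0) (p (nat_lit 0x8878908071a) (nat_lit 0) (p (nat_lit 0x8000000000800080887868a) (nat_lit 0) (p (nat_lit 0x10888070602) (nat_lit 0) (p (nat_lit 0x807868582) (nat_lit 0) (p (nat_lit 0x10587060502) (nat_lit 0) (p (nat_lit 0x506858482) (nat_lit 0) (p (nat_lit 0x16000c) (nat_lit 0) (p (nat_lit 0x68612) (nat_lit 0) (p (nat_lit 0x50592) (nat_lit 0) (p (nat_lit 0x38512) (nat_lit 0) (p (nat_lit 0x50392) (nat_lit 0) (p (nat_lit 0x38312)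 (nat_lit 0) (p (nat_lit 0x20292) (nat_lit 0) (p (nat_lit 0x38112) (nat_lit 0) (p (nat_lit 0x20092) (nat_lit 0) (p (nat_lit 0x8012) (nat_lit 0) pn)))))))))))))))))))))))) :=
  Cl.node (nat_lit 0x101) (nat_lit 2) (by decide +kernel) (ClAll.succ (ClAll.succ ClAll.zero n107) n108)

def n139 : Cl (O (nat_lit 5)) (R (nat_lit 14465))
    (p (nat_lit 0x101) (nat_lit 0) (p (nat_lit 0x109) (nat_lit 0) (p (nat_lit 0xc9) (nat_lit 1) (p (nat_lit 0x89) (nat_lit 1) (p (nat_lit 0x41) (nat_lit 0) (p (nat_lit 0x10a0b0a89889a) (nat_lit 0) (p (nat_lit 0x98a8a09081a) (nat_lit 0) (p (nat_lit 0x109080988879a) (nat_lit 0) (p (nat_lit 0x8878908071a) (nat_lit 0) (p (nat_lit 0x8000000000800080887868a) (nat_lit 0) (p (nat_lit 0x10888070602) (nat_lit 0) (p (nat_lit 0x807868582) (nat_lit 0) (p (nat_lit 0x10587060502) (nat_lit 0) (p (nat_lit 0x506858482) (nat_lit 0) (p (nat_lit 0x16000c) (nat_lit 0) (p (nat_lit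 0x68612) (nat_lit 0) (p (nat_lit 0x50592) (nat_lit 0) (p (nat_lit 0x38512) (nat_lit 0) (p (nat_lit 0x50392) (nat_lit 0) (p (nat_lit 0x38312) (nat_lit 0) (p (nat_lit 0x20292) (nat_lit 0) (p (nat_lit 0x38112) (nat_lit 0) (p (nat_lit 0x20092) (nat_lit 0) (p (nat_lit 0x8012) (nat_lit 0) pn)))))))))))))))))))))))) :=
  Cl.node (nat_lit 0x111) (nat_lit 2) (by decide +kernel) (ClAll.succ (ClAll.succ ClAll.zero n109) s93)

def n140 : Cl (O (nat_lit 5)) (R (nat_lit 14465))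
    (p (nat_lit 0x101) (nat_lit 0) (p (nat_lit 0x119) (nat_lit 0) (p (nat_lit 0xd1) (nat_lit 0) (p (nat_lit 0x81) (nat_lit 0) (p (nat_lit 0x41) (nat_lit 1) (p (nat_lit 0x10a0b0a89889a) (nat_lit 0) (p (nat_lit 0x98a8a09081a) (nat_lit 0) (p (nat_lit 0x109080988879a) (nat_lit 0) (p (nat_lit 0x8878908071a) (nat_lit 0) (p (nat_lit 0x8000000000800080887868a) (nat_lit 0) (p (nat_lit 0x10888070602) (nat_lit 0) (p (nat_lit 0x807868582) (nat_lit 0) (p (nat_lit 0x10587060502) (nat_lit 0) (p (nat_lit 0x506858482) (nat_lit 0) (p (nat_lit 0x16000c) (nat_lit 0) (p (nat_lit 0x68612) (nat_lit 0) (p (nat_lit 0x50592) (nat_lit 0) (p (nat_lit 0x38512) (nat_lit 0) (p (nat_lit 0x50392) (nat_lit 0) (p (nat_lit 0x38312) (nat_lit 0) (p (nat_lit 0x20292) (nat_lit 0) (p (nat_lit 0x38112) (nat_lit 0) (p (nat_lit 0x20092) (nat_lit 0) (p (nat_lit 0x8012) (nat_lit 0) pn)))))))))))))))))))))))) :=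
  Cl.node (nat_lit 0x109) (nat_lit 2) (by decide +kernel) (ClAll.succ (ClAll.succ ClAll.zero s96) n110)

def n141 : Cl (O (nat_lit 5)) (R (nat_lit 14465))
    (p (nat_lit 0x101) (nat_lit 1) (p (nat_lit 0x119) (nat_lit 0) (p (nat_lit 0xd1) (nat_lit 0) (p (nat_lit 0x81) (nat_lit 0) (p (nat_lit 0x41) (nat_lit 1) (p (nat_lit 0x10a0b0a89889a) (nat_lit 0) (p (nat_lit 0x98a8a09081a) (nat_lit 0) (p (nat_lit 0x109080988879a) (nat_lit 0) (p (nat_lit 0x8878908071a) (nat_lit 0) (p (nat_lit 0x8000000000800080887868a) (nat_lit 0) (p (nat_lit 0x10888070602) (nat_lit 0) (p (nat_lit 0x807868582) (nat_lit 0) (p (nat_lit 0x10587060502) (nat_lit 0) (p (nat_lit 0x506858482) (nat_lit 0) (p (nat_lit 0x16000c) (nat_lit 0) (p (nat_lit 0x68612) (nat_lit 0) (p (nat_lit 0x50592) (nat_lit 0) (p (nat_lit 0x38512) (nat_lit 0) (p (nat_lit 0x50392) (nat_lit 0) (p (nat_lit 0x38312) (nat_lit 0) (p (nat_lit 0x20292)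 (nat_lit 0) (p (nat_lit 0x38112) (nat_lit 0) (p (nat_lit 0x20092) (nat_lit 0) (p (nat_lit 0x8012) (nat_lit 0) pn)))))))))))))))))))))))) :=
  Cl.node (nat_lit 0xc1) (nat_lit 2) (by decide +kernel) (ClAll.succ (ClAll.succ ClAll.zero n111) n112)

def n142 : Cl (O (nat_lit 5)) (R (nat_lit 14465))
    (p (nat_lit 0xc1) (nat_lit 0) (p (nat_lit 0x119) (nat_lit 1) (p (nat_lit 0xd1) (nat_lit 0) (p (nat_lit 0x81) (nat_lit 0) (p (nat_lit 0x41) (nat_lit 1) (p (nat_lit 0x10a0b0a89889a) (nat_lit 0) (p (nat_lit 0x98a8a09081a) (nat_lit 0) (p (nat_lit 0x109080988879a) (nat_lit 0) (p (nat_lit 0x8878908071a) (nat_lit 0) (p (nat_lit 0x8000000000800080887868a) (nat_lit 0) (p (nat_lit 0x10888070602) (nat_lit 0) (p (nat_lit 0x807868582) (nat_lit 0) (p (nat_lit 0x10587060502) (nat_lit 0) (p (nat_lit 0x506858482) (nat_lit 0) (p (nat_lit 0x16000c) (nat_lit 0) (p (nat_lit 0x68612) (nat_lit 0) (p (nat_lit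 0x50592) (nat_lit 0) (p (nat_lit 0x38512) (nat_lit 0) (p (nat_lit 0x50392) (nat_lit 0) (p (nat_lit 0x38312) (nat_lit 0) (p (nat_lit 0x20292) (nat_lit 0) (p (nat_lit 0x38112) (nat_lit 0) (p (nat_lit 0x20092) (nat_lit 0) (p (nat_lit 0x8012) (nat_lit 0) pn)))))))))))))))))))))))) :=
  Cl.node (nat_lit 0xc9) (nat_lit 2) (by decide +kernel) (ClAll.succ (ClAll.succ ClAll.zero s111) n113)

def n143 : Cl (O (nat_lit 5)) (R (nat_lit 14465))
    (p (nat_lit 0xc1) (nat_lit 1) (p (nat_lit 0x119) (nat_lit 1) (p (nat_lit 0xd1) (nat_lit 0) (p (nat_lit 0x81) (nat_lit 0) (p (nat_lit 0x41) (nat_lit 1) (p (nat_lit 0x10a0b0a89889a) (nat_lit 0) (p (nat_lit 0x98a8a09081a) (nat_lit 0) (p (nat_lit 0x109080988879a) (nat_lit 0) (p (nat_lit 0x8878908071a) (nat_lit 0) (p (nat_lit 0x8000000000800080887868a) (nat_lit 0) (p (nat_lit 0x10888070602) (nat_lit 0) (p (nat_lit 0x807868582) (nat_lit 0) (p (nat_lit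 0x10587060502) (nat_lit 0) (p (nat_lit 0x506858482) (nat_lit 0) (p (nat_lit 0x16000c) (nat_lit 0) (p (nat_lit 0x68612) (nat_lit 0) (p (nat_lit 0x50592) (nat_lit 0) (p (nat_lit 0x38512) (nat_lit 0) (p (nat_lit 0x50392) (nat_lit 0) (p (nat_lit 0x38312) (nat_lit 0) (p (nat_lit 0x20292) (nat_lit 0) (p (nat_lit 0x38112) (nat_lit 0) (p (nat_lit 0x20092) (nat_lit 0) (p (nat_lit 0x8012) (nat_lit 0) pn)))))))))))))))))))))))) :=
  Cl.node (nat_lit 0x101) (nat_lit 2) (by decide +kernel) (ClAll.succ (ClAll.succ ClAll.zero n114) n115)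

def n144 : Cl (O (nat_lit 5)) (R (nat_lit 14465))
    (p (nat_lit 0x101) (nat_lit 0) (p (nat_lit 0x111) (nat_lit 0) (p (nat_lit 0xd1) (nat_lit 1) (p (nat_lit 0x81) (nat_lit 0) (p (nat_lit 0x41) (nat_lit 1) (p (nat_lit 0x10a0b0a89889a) (nat_lit 0) (p (nat_lit 0x98a8a09081a) (nat_lit 0) (p (nat_lit 0x109080988879a) (nat_lit 0) (p (nat_lit 0x8878908071a) (nat_lit 0) (p (nat_lit 0x8000000000800080887868a) (nat_lit 0) (p (nat_lit 0x10888070602) (nat_lit 0) (p (nat_lit 0x807868582) (nat_lit 0) (p (nat_lit 0x10587060502) (nat_lit 0) (p (nat_lit 0x506858482) (nat_lit 0) (p (nat_lit 0x16000c) (nat_lit 0) (p (nat_lit 0x68612) (nat_lit 0) (p (nat_lit 0x50592) (nat_lit 0) (p (nat_lit 0x38512) (nat_lit 0) (p (nat_lit 0x50392) (nat_lit 0) (p (nat_lit 0x38312) (nat_lit 0) (p (nat_lit 0x20292) (nat_lit 0) (p (nat_lit 0x38112) (nat_lit 0) (p (nat_lit 0x20092) (nat_lit 0) (p (nat_lit 0x8012)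 (nat_lit 0) pn)))))))))))))))))))))))) :=
  Cl.node (nat_lit 0x109) (nat_lit 2) (by decide +kernel) (ClAll.succ (ClAll.succ ClAll.zero s131) n116)

def n145 : Cl (O (nat_lit 5)) (R (nat_lit 14465))
    (p (nat_lit 0x101) (nat_lit 1) (p (nat_lit 0x111) (nat_lit 0) (p (nat_lit 0xd1) (nat_lit 1) (p (nat_lit 0x81) (nat_lit 0) (p (nat_lit 0x41) (nat_lit 1) (p (nat_lit 0x10a0b0a89889a) (nat_lit 0) (p (nat_lit 0x98a8a09081a) (nat_lit 0) (p (nat_lit 0x109080988879a) (nat_lit 0) (p (nat_lit 0x8878908071a) (nat_lit 0) (p (nat_lit 0x8000000000800080887868a) (nat_lit 0) (p (nat_lit 0x10888070602) (nat_lit 0) (p (nat_lit 0x807868582) (nat_lit 0) (p (nat_lit 0x10587060502) (nat_lit 0) (p (nat_lit 0x506858482) (nat_lit 0) (p (nat_lit 0x16000c) (nat_lit 0) (p (nat_lit 0x68612) (nat_lit 0) (p (nat_lit 0x50592) (nat_lit 0) (p (nat_lit 0x38512) (nat_lit 0) (p (nat_lit 0x50392) (nat_lit 0) (p (nat_lit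 0x38312) (nat_lit 0) (p (nat_lit 0x20292) (nat_lit 0) (p (nat_lit 0x38112) (nat_lit 0) (p (nat_lit 0x20092) (nat_lit 0) (p (nat_lit 0x8012) (nat_lit 0) pn)))))))))))))))))))))))) :=
  Cl.node (nat_lit 0x89) (nat_lit 2) (by decide +kernel) (ClAll.succ (ClAll.succ ClAll.zero n117) n118)

def n146 : Cl (O (nat_lit 5)) (R (nat_lit 14465))
    (p (nat_lit 0x89) (nat_lit 1) (p (nat_lit 0x111) (nat_lit 1) (p (nat_lit 0xd1) (nat_lit 1) (p (nat_lit 0x81) (nat_lit 0) (p (nat_lit 0x41) (nat_lit 1) (p (nat_lit 0x10a0b0a89889a) (nat_lit 0) (p (nat_lit 0x98a8a09081a) (nat_lit 0) (p (nat_lit 0x109080988879a) (nat_lit 0) (p (nat_lit 0x8878908071a) (nat_lit 0) (p (nat_lit 0x8000000000800080887868a) (nat_lit 0) (p (nat_lit 0x10888070602) (nat_lit 0) (p (nat_lit 0x807868582) (nat_lit 0) (p (nat_lit 0x10587060502) (nat_lit 0) (p (nat_lit 0x506858482) (nat_lit 0) (p (nat_lit 0x16000c) (nat_lit 0)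 (p (nat_lit 0x68612) (nat_lit 0) (p (nat_lit 0x50592) (nat_lit 0) (p (nat_lit 0x38512) (nat_lit 0) (p (nat_lit 0x50392) (nat_lit 0) (p (nat_lit 0x38312) (nat_lit 0) (p (nat_lit 0x20292) (nat_lit 0) (p (nat_lit 0x38112) (nat_lit 0) (p (nat_lit 0x20092) (nat_lit 0) (p (nat_lit 0x8012) (nat_lit 0) pn)))))))))))))))))))))))) :=
  Cl.node (nat_lit 0xc9) (nat_lit 2) (by decide +kernel) (ClAll.succ (ClAll.succ ClAll.zero s147) n119)

def n147 : Cl (O (nat_lit 5)) (R (nat_lit 14465))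
    (p (nat_lit 0x101) (nat_lit 0) (p (nat_lit 0x119) (nat_lit 0) (p (nat_lit 0xc1) (nat_lit 0) (p (nat_lit 0x81) (nat_lit 1) (p (nat_lit 0x41) (nat_lit 1) (p (nat_lit 0x10a0b0a89889a) (nat_lit 0) (p (nat_lit 0x98a8a09081a) (nat_lit 0) (p (nat_lit 0x109080988879a) (nat_lit 0) (p (nat_lit 0x8878908071a) (nat_lit 0) (p (nat_lit 0x8000000000800080887868a) (nat_lit 0) (p (nat_lit 0x10888070602) (nat_lit 0) (p (nat_lit 0x807868582) (nat_lit 0) (p (nat_lit 0x10587060502) (nat_lit 0) (p (nat_lit 0x506858482) (nat_lit 0) (p (nat_lit 0x16000c) (nat_lit 0) (p (nat_lit 0x68612) (nat_lit 0) (p (nat_lit 0x50592) (nat_lit 0) (p (nat_lit 0x38512) (nat_lit 0) (p (nat_lit 0x50392) (nat_lit 0) (p (nat_lit 0x38312) (nat_lit 0) (p (nat_lit 0x20292) (nat_lit 0) (p (nat_lit 0x38112) (nat_lit 0) (p (nat_lit 0x20092) (nat_lit 0) (p (nat_lit 0x8012) (nat_lit 0) pn)))))))))))))))))))))))) :=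
  Cl.node (nat_lit 0x109) (nat_lit 2) (by decide +kernel) (ClAll.succ (ClAll.succ ClAll.zero n120) n121)

def n148 : Cl (O (nat_lit 5)) (R (nat_lit 14465))
    (p (nat_lit 0x101) (nat_lit 1) (p (nat_lit 0x119) (nat_lit 0) (p (nat_lit 0xc1) (nat_lit 0) (p (nat_lit 0x81) (nat_lit 1) (p (nat_lit 0x41) (nat_lit 1) (p (nat_lit 0x10a0b0a89889a) (nat_lit 0) (p (nat_lit 0x98a8a09081a) (nat_lit 0) (p (nat_lit 0x109080988879a) (nat_lit 0) (p (nat_lit 0x8878908071a) (nat_lit 0) (p (nat_lit 0x8000000000800080887868a) (nat_lit 0) (p (nat_lit 0x10888070602) (nat_lit 0) (p (nat_lit 0x807868582) (nat_lit 0) (p (nat_lit 0x10587060502) (nat_lit 0) (p (nat_lit 0x506858482) (nat_lit 0) (p (nat_lit 0x16000c) (nat_lit 0) (p (nat_lit 0x68612) (nat_lit 0) (p (nat_lit 0x50592) (nat_lit 0) (p (nat_lit 0x38512) (nat_lit 0) (p (nat_lit 0x50392) (nat_lit 0) (p (nat_lit 0x38312) (nat_lit 0) (p (nat_lit 0x20292)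 (nat_lit 0) (p (nat_lit 0x38112) (nat_lit 0) (p (nat_lit 0x20092) (nat_lit 0) (p (nat_lit 0x8012) (nat_lit 0) pn)))))))))))))))))))))))) :=
  Cl.node (nat_lit 0xc9) (nat_lit 2) (by decide +kernel) (ClAll.succ (ClAll.succ ClAll.zero n122) n123)

def n149 : Cl (O (nat_lit 5)) (R (nat_lit 14465))
    (p (nat_lit 0xc9) (nat_lit 0) (p (nat_lit 0x119) (nat_lit 1) (p (nat_lit 0xc1) (nat_lit 0) (p (nat_lit 0x81) (nat_lit 1) (p (nat_lit 0x41) (nat_lit 1) (p (nat_lit 0x10a0b0a89889a) (nat_lit 0) (p (nat_lit 0x98a8a09081a) (nat_lit 0) (p (nat_lit 0x109080988879a) (nat_lit 0) (p (nat_lit 0x8878908071a) (nat_lit 0) (p (nat_lit 0x8000000000800080887868a) (nat_lit 0) (p (nat_lit 0x10888070602) (nat_lit 0) (p (nat_lit 0x807868582) (nat_lit 0) (p (nat_lit 0x10587060502) (nat_lit 0) (p (nat_lit 0x506858482) (nat_lit 0) (p (nat_lit 0x16000c) (nat_lit 0) (p (nat_lit 0x68612) (nat_lit 0) (p (nat_lit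 0x50592) (nat_lit 0) (p (nat_lit 0x38512) (nat_lit 0) (p (nat_lit 0x50392) (nat_lit 0) (p (nat_lit 0x38312) (nat_lit 0) (p (nat_lit 0x20292) (nat_lit 0) (p (nat_lit 0x38112) (nat_lit 0) (p (nat_lit 0x20092) (nat_lit 0) (p (nat_lit 0x8012) (nat_lit 0) pn)))))))))))))))))))))))) :=
  Cl.node (nat_lit 0xd1) (nat_lit 2) (by decide +kernel) (ClAll.succ (ClAll.succ ClAll.zero s166) n124)

def n150 : Cl (O (nat_lit 5)) (R (nat_lit 14465))
    (p (nat_lit 0xc9) (nat_lit 1) (p (nat_lit 0x119) (nat_lit 1) (p (nat_lit 0xc1) (nat_lit 0) (p (nat_lit 0x81) (nat_lit 1) (p (nat_lit 0x41) (nat_lit 1) (p (nat_lit 0x10a0b0a89889a) (nat_lit 0) (p (nat_lit 0x98a8a09081a) (nat_lit 0) (p (nat_lit 0x109080988879a) (nat_lit 0) (p (nat_lit 0x8878908071a) (nat_lit 0) (p (nat_lit 0x8000000000800080887868a) (nat_lit 0) (p (nat_lit 0x10888070602) (nat_lit 0) (p (nat_lit 0x807868582) (nat_lit 0) (p (nat_lit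 0x10587060502) (nat_lit 0) (p (nat_lit 0x506858482) (nat_lit 0) (p (nat_lit 0x16000c) (nat_lit 0) (p (nat_lit 0x68612) (nat_lit 0) (p (nat_lit 0x50592) (nat_lit 0) (p (nat_lit 0x38512) (nat_lit 0) (p (nat_lit 0x50392) (nat_lit 0) (p (nat_lit 0x38312) (nat_lit 0) (p (nat_lit 0x20292) (nat_lit 0) (p (nat_lit 0x38112) (nat_lit 0) (p (nat_lit 0x20092) (nat_lit 0) (p (nat_lit 0x8012) (nat_lit 0) pn)))))))))))))))))))))))) :=
  Cl.node (nat_lit 0x109) (nat_lit 2) (by decide +kernel) (ClAll.succ (ClAll.succ ClAll.zero n125) s174)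

def n151 : Cl (O (nat_lit 5)) (R (nat_lit 14465))
    (p (nat_lit 0x109) (nat_lit 0) (p (nat_lit 0x101) (nat_lit 0) (p (nat_lit 0xc1) (nat_lit 1) (p (nat_lit 0x81) (nat_lit 1) (p (nat_lit 0x41) (nat_lit 1) (p (nat_lit 0x10a0b0a89889a) (nat_lit 0) (p (nat_lit 0x98a8a09081a) (nat_lit 0) (p (nat_lit 0x109080988879a) (nat_lit 0) (p (nat_lit 0x8878908071a) (nat_lit 0) (p (nat_lit 0x8000000000800080887868a) (nat_lit 0) (p (nat_lit 0x10888070602) (nat_lit 0) (p (nat_lit 0x807868582) (nat_lit 0) (p (nat_lit 0x10587060502) (nat_lit 0) (p (nat_lit 0x506858482) (nat_lit 0) (p (nat_lit 0x16000c) (nat_lit 0) (p (nat_lit 0x68612) (nat_lit 0) (p (nat_lit 0x50592) (nat_lit 0) (p (nat_lit 0x38512) (nat_lit 0) (p (nat_lit 0x50392) (nat_lit 0) (p (nat_lit 0x38312) (nat_lit 0) (p (nat_lit 0x20292) (nat_lit 0) (p (nat_lit 0x38112) (nat_lit 0) (p (nat_lit 0x20092) (nat_lit 0) (p (nat_lit 0x8012)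 (nat_lit 0) pn)))))))))))))))))))))))) :=
  Cl.node (nat_lit 0x111) (nat_lit 2) (by decide +kernel) (ClAll.succ (ClAll.succ ClAll.zero n126) n127)

def n152 : Cl (O (nat_lit 5)) (R (nat_lit 14465))
    (p (nat_lit 0x119) (nat_lit 0) (p (nat_lit 0xd1) (nat_lit 0) (p (nat_lit 0x89) (nat_lit 0) (p (nat_lit 0x41) (nat_lit 0) (p (nat_lit 0x10a0b0a89889a) (nat_lit 0) (p (nat_lit 0x98a8a09081a) (nat_lit 0) (p (nat_lit 0x109080988879a) (nat_lit 0) (p (nat_lit 0x8878908071a) (nat_lit 0) (p (nat_lit 0x8000000000800080887868a) (nat_lit 0) (p (nat_lit 0x10888070602) (nat_lit 0) (p (nat_lit 0x807868582) (nat_lit 0) (p (nat_lit 0x10587060502) (nat_lit 0) (p (nat_lit 0x506858482) (nat_lit 0) (p (nat_lit 0x16000c) (nat_lit 0) (p (nat_lit 0x68612) (nat_lit 0) (p (nat_lit 0x50592) (nat_lit 0) (p (nat_lit 0x38512) (nat_lit 0) (p (nat_lit 0x50392) (nat_lit 0) (p (nat_lit 0x38312) (nat_lit 0) (p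 (nat_lit 0x20292) (nat_lit 0) (p (nat_lit 0x38112) (nat_lit 0) (p (nat_lit 0x20092) (nat_lit 0) (p (nat_lit 0x8012) (nat_lit 0) pn))))))))))))))))))))))) :=
  Cl.node (nat_lit 0x101) (nat_lit 2) (by decide +kernel) (ClAll.succ (ClAll.succ ClAll.zero n128) n129)

def n153 : Cl (O (nat_lit 5)) (R (nat_lit 14465))
    (p (nat_lit 0x119) (nat_lit 1) (p (nat_lit 0xd1) (nat_lit 0) (p (nat_lit 0x89) (nat_lit 0) (p (nat_lit 0x41) (nat_lit 0) (p (nat_lit 0x10a0b0a89889a) (nat_lit 0) (p (nat_lit 0x98a8a09081a) (nat_lit 0) (p (nat_lit 0x109080988879a) (nat_lit 0) (p (nat_lit 0x8878908071a) (nat_lit 0) (p (nat_lit 0x8000000000800080887868a) (nat_lit 0) (p (nat_lit 0x10888070602) (nat_lit 0) (p (nat_lit 0x807868582) (nat_lit 0) (p (nat_lit 0x10587060502) (nat_lit 0) (p (nat_lit 0x506858482) (nat_lit 0) (p (nat_lit 0x16000c) (nat_lit 0) (p (nat_lit 0x68612) (nat_lit 0) (p (nat_lit 0x50592)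 (nat_lit 0) (p (nat_lit 0x38512) (nat_lit 0) (p (nat_lit 0x50392) (nat_lit 0) (p (nat_lit 0x38312) (nat_lit 0) (p (nat_lit 0x20292) (nat_lit 0) (p (nat_lit 0x38112) (nat_lit 0) (p (nat_lit 0x20092) (nat_lit 0) (p (nat_lit 0x8012) (nat_lit 0) pn))))))))))))))))))))))) :=
  Cl.node (nat_lit 0xc1) (nat_lit 2) (by decide +kernel) (ClAll.succ (ClAll.succ ClAll.zero n130) n131)

def n154 : Cl (O (nat_lit 5)) (R (nat_lit 14465))
    (p (nat_lit 0x111) (nat_lit 0) (p (nat_lit 0xd1) (nat_lit 1) (p (nat_lit 0x89) (nat_lit 0) (p (nat_lit 0x41) (nat_lit 0) (p (nat_lit 0x10a0b0a89889a) (nat_lit 0) (p (nat_lit 0x98a8a09081a) (nat_lit 0) (p (nat_lit 0x109080988879a) (nat_lit 0) (p (nat_lit 0x8878908071a) (nat_lit 0) (p (nat_lit 0x8000000000800080887868a) (nat_lit 0) (p (nat_lit 0x10888070602) (nat_lit 0) (p (nat_lit 0x807868582) (nat_lit 0) (p (nat_lit 0x10587060502) (nat_lit 0) (p (nat_lit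 0x506858482) (nat_lit 0) (p (nat_lit 0x16000c) (nat_lit 0) (p (nat_lit 0x68612) (nat_lit 0) (p (nat_lit 0x50592) (nat_lit 0) (p (nat_lit 0x38512) (nat_lit 0) (p (nat_lit 0x50392) (nat_lit 0) (p (nat_lit 0x38312) (nat_lit 0) (p (nat_lit 0x20292) (nat_lit 0) (p (nat_lit 0x38112) (nat_lit 0) (p (nat_lit 0x20092) (nat_lit 0) (p (nat_lit 0x8012) (nat_lit 0) pn))))))))))))))))))))))) :=
  Cl.node (nat_lit 0x101) (nat_lit 2) (by decide +kernel) (ClAll.succ (ClAll.succ ClAll.zero n132) n133)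

def n155 : Cl (O (nat_lit 5)) (R (nat_lit 14465))
    (p (nat_lit 0x111) (nat_lit 1) (p (nat_lit 0xd1) (nat_lit 1) (p (nat_lit 0x89) (nat_lit 0) (p (nat_lit 0x41) (nat_lit 0) (p (nat_lit 0x10a0b0a89889a) (nat_lit 0) (p (nat_lit 0x98a8a09081a) (nat_lit 0) (p (nat_lit 0x109080988879a) (nat_lit 0) (p (nat_lit 0x8878908071a) (nat_lit 0) (p (nat_lit 0x8000000000800080887868a) (nat_lit 0) (p (nat_lit 0x10888070602) (nat_lit 0) (p (nat_lit 0x807868582) (nat_lit 0) (p (nat_lit 0x10587060502) (nat_lit 0) (p (nat_lit 0x506858482) (nat_lit 0) (p (nat_lit 0x16000c) (nat_lit 0) (p (nat_lit 0x68612) (nat_lit 0) (p (nat_lit 0x50592) (nat_lit 0) (p (nat_lit 0x38512) (nat_lit 0) (p (nat_lit 0x50392) (nat_lit 0) (p (nat_lit 0x38312) (nat_lit 0) (p (nat_lit 0x20292) (nat_lit 0) (p (nat_lit 0x38112) (nat_lit 0) (p (nat_lit 0x20092) (nat_lit 0) (p (nat_lit 0x8012) (nat_lit 0) pn)))))))))))))))))))))))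 :=
  Cl.node (nat_lit 0x81) (nat_lit 2) (by decide +kernel) (ClAll.succ (ClAll.succ ClAll.zero s48) n134)

def n156 : Cl (O (nat_lit 5)) (R (nat_lit 14465))
    (p (nat_lit 0x119) (nat_lit 0) (p (nat_lit 0xc9) (nat_lit 0) (p (nat_lit 0x89) (nat_lit 1) (p (nat_lit 0x41) (nat_lit 0) (p (nat_lit 0x10a0b0a89889a) (nat_lit 0) (p (nat_lit 0x98a8a09081a) (nat_lit 0) (p (nat_lit 0x109080988879a) (nat_lit 0) (p (nat_lit 0x8878908071a) (nat_lit 0) (p (nat_lit 0x8000000000800080887868a) (nat_lit 0) (p (nat_lit 0x10888070602) (nat_lit 0) (p (nat_lit 0x807868582) (nat_lit 0) (p (nat_lit 0x10587060502) (nat_lit 0) (p (nat_lit 0x506858482) (nat_lit 0) (p (nat_lit 0x16000c) (nat_lit 0) (p (nat_lit 0x68612) (nat_lit 0) (p (nat_lit 0x50592) (nat_lit 0) (p (nat_lit 0x38512) (nat_lit 0) (p (nat_lit 0x50392) (nat_lit 0) (p (nat_lit 0x38312) (nat_lit 0) (p (nat_lit 0x20292) (nat_lit 0) (p (nat_lit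 0x38112) (nat_lit 0) (p (nat_lit 0x20092) (nat_lit 0) (p (nat_lit 0x8012) (nat_lit 0) pn))))))))))))))))))))))) :=
  Cl.node (nat_lit 0x101) (nat_lit 2) (by decide +kernel) (ClAll.succ (ClAll.succ ClAll.zero n135) n136)

def n157 : Cl (O (nat_lit 5)) (R (nat_lit 14465))
    (p (nat_lit 0x119) (nat_lit 1) (p (nat_lit 0xc9) (nat_lit 0) (p (nat_lit 0x89) (nat_lit 1) (p (nat_lit 0x41) (nat_lit 0) (p (nat_lit 0x10a0b0a89889a) (nat_lit 0) (p (nat_lit 0x98a8a09081a) (nat_lit 0) (p (nat_lit 0x109080988879a) (nat_lit 0) (p (nat_lit 0x8878908071a) (nat_lit 0) (p (nat_lit 0x8000000000800080887868a) (nat_lit 0) (p (nat_lit 0x10888070602) (nat_lit 0) (p (nat_lit 0x807868582) (nat_lit 0) (p (nat_lit 0x10587060502) (nat_lit 0) (p (nat_lit 0x506858482) (nat_lit 0) (p (nat_lit 0x16000c) (nat_lit 0) (p (nat_lit 0x68612) (nat_lit 0) (p (nat_lit 0x50592) (nat_lit 0) (p (nat_lit 0x38512) (nat_lit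 0) (p (nat_lit 0x50392) (nat_lit 0) (p (nat_lit 0x38312) (nat_lit 0) (p (nat_lit 0x20292) (nat_lit 0) (p (nat_lit 0x38112) (nat_lit 0) (p (nat_lit 0x20092) (nat_lit 0) (p (nat_lit 0x8012) (nat_lit 0) pn))))))))))))))))))))))) :=
  Cl.node (nat_lit 0xc1) (nat_lit 2) (by decide +kernel) (ClAll.succ (ClAll.succ ClAll.zero n137) n138)

def n158 : Cl (O (nat_lit 5)) (R (nat_lit 14465))
    (p (nat_lit 0x109) (nat_lit 0) (p (nat_lit 0xc9) (nat_lit 1) (p (nat_lit 0x89) (nat_lit 1) (p (nat_lit 0x41) (nat_lit 0) (p (nat_lit 0x10a0b0a89889a) (nat_lit 0) (p (nat_lit 0x98a8a09081a) (nat_lit 0) (p (nat_lit 0x109080988879a) (nat_lit 0) (p (nat_lit 0x8878908071a) (nat_lit 0) (p (nat_lit 0x8000000000800080887868a) (nat_lit 0) (p (nat_lit 0x10888070602) (nat_lit 0) (p (nat_lit 0x807868582) (nat_lit 0) (p (nat_lit 0x10587060502) (nat_lit 0) (p (nat_lit 0x506858482) (nat_lit 0) (p (nat_lit 0x16000c)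 (nat_lit 0) (p (nat_lit 0x68612) (nat_lit 0) (p (nat_lit 0x50592) (nat_lit 0) (p (nat_lit 0x38512) (nat_lit 0) (p (nat_lit 0x50392) (nat_lit 0) (p (nat_lit 0x38312) (nat_lit 0) (p (nat_lit 0x20292) (nat_lit 0) (p (nat_lit 0x38112) (nat_lit 0) (p (nat_lit 0x20092) (nat_lit 0) (p (nat_lit 0x8012) (nat_lit 0) pn))))))))))))))))))))))) :=
  Cl.node (nat_lit 0x101) (nat_lit 2) (by decide +kernel) (ClAll.succ (ClAll.succ ClAll.zero n139) s94)

def n159 : Cl (O (nat_lit 5)) (R (nat_lit 14465))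
    (p (nat_lit 0x119) (nat_lit 0) (p (nat_lit 0xd1) (nat_lit 0) (p (nat_lit 0x81) (nat_lit 0) (p (nat_lit 0x41) (nat_lit 1) (p (nat_lit 0x10a0b0a89889a) (nat_lit 0) (p (nat_lit 0x98a8a09081a) (nat_lit 0) (p (nat_lit 0x109080988879a) (nat_lit 0) (p (nat_lit 0x8878908071a) (nat_lit 0) (p (nat_lit 0x8000000000800080887868a) (nat_lit 0) (p (nat_lit 0x10888070602) (nat_lit 0) (p (nat_lit 0x807868582) (nat_lit 0) (p (nat_lit 0x10587060502) (nat_lit 0) (p (nat_lit 0x506858482) (nat_lit 0) (p (nat_lit 0x16000c) (nat_lit 0) (p (nat_lit 0x68612) (nat_lit 0) (p (nat_lit 0x50592) (nat_lit 0) (p (nat_lit 0x38512) (nat_lit 0) (p (nat_lit 0x50392) (nat_lit 0) (p (nat_lit 0x38312) (nat_lit 0) (p (nat_lit 0x20292) (nat_lit 0) (p (nat_lit 0x38112) (nat_lit 0) (p (nat_lit 0x20092) (nat_lit 0) (p (nat_lit 0x8012) (nat_lit 0) pn))))))))))))))))))))))) :=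
  Cl.node (nat_lit 0x101) (nat_lit 2) (by decide +kernel) (ClAll.succ (ClAll.succ ClAll.zero n140) n141)

def n160 : Cl (O (nat_lit 5)) (R (nat_lit 14465))
    (p (nat_lit 0x119) (nat_lit 1) (p (nat_lit 0xd1) (nat_lit 0) (p (nat_lit 0x81) (nat_lit 0) (p (nat_lit 0x41) (nat_lit 1) (p (nat_lit 0x10a0b0a89889a) (nat_lit 0) (p (nat_lit 0x98a8a09081a) (nat_lit 0) (p (nat_lit 0x109080988879a) (nat_lit 0) (p (nat_lit 0x8878908071a) (nat_lit 0) (p (nat_lit 0x8000000000800080887868a) (nat_lit 0) (p (nat_lit 0x10888070602) (nat_lit 0) (p (nat_lit 0x807868582) (nat_lit 0) (p (nat_lit 0x10587060502) (nat_lit 0) (p (nat_lit 0x506858482) (nat_lit 0) (p (nat_lit 0x16000c) (nat_lit 0) (p (nat_lit 0x68612) (nat_lit 0) (p (nat_lit 0x50592) (nat_lit 0) (p (nat_lit 0x38512) (nat_lit 0) (p (nat_lit 0x50392) (nat_lit 0) (p (nat_lit 0x38312) (nat_lit 0) (p (nat_lit 0x20292) (nat_lit 0) (p (nat_lit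 0x38112) (nat_lit 0) (p (nat_lit 0x20092) (nat_lit 0) (p (nat_lit 0x8012) (nat_lit 0) pn))))))))))))))))))))))) :=
  Cl.node (nat_lit 0xc1) (nat_lit 2) (by decide +kernel) (ClAll.succ (ClAll.succ ClAll.zero n142) n143)

def n161 : Cl (O (nat_lit 5)) (R (nat_lit 14465))
    (p (nat_lit 0x111) (nat_lit 0) (p (nat_lit 0xd1) (nat_lit 1) (p (nat_lit 0x81) (nat_lit 0) (p (nat_lit 0x41) (nat_lit 1) (p (nat_lit 0x10a0b0a89889a) (nat_lit 0) (p (nat_lit 0x98a8a09081a) (nat_lit 0) (p (nat_lit 0x109080988879a) (nat_lit 0) (p (nat_lit 0x8878908071a) (nat_lit 0) (p (nat_lit 0x8000000000800080887868a) (nat_lit 0) (p (nat_lit 0x10888070602) (nat_lit 0) (p (nat_lit 0x807868582) (nat_lit 0) (p (nat_lit 0x10587060502) (nat_lit 0) (p (nat_lit 0x506858482) (nat_lit 0) (p (nat_lit 0x16000c) (nat_lit 0) (p (nat_lit 0x68612) (nat_lit 0) (p (nat_lit 0x50592) (nat_lit 0) (p (nat_lit 0x38512) (nat_lit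 0) (p (nat_lit 0x50392) (nat_lit 0) (p (nat_lit 0x38312) (nat_lit 0) (p (nat_lit 0x20292) (nat_lit 0) (p (nat_lit 0x38112) (nat_lit 0) (p (nat_lit 0x20092) (nat_lit 0) (p (nat_lit 0x8012) (nat_lit 0) pn))))))))))))))))))))))) :=
  Cl.node (nat_lit 0x101) (nat_lit 2) (by decide +kernel) (ClAll.succ (ClAll.succ ClAll.zero n144) n145)

def n162 : Cl (O (nat_lit 5)) (R (nat_lit 14465))
    (p (nat_lit 0x111) (nat_lit 1) (p (nat_lit 0xd1) (nat_lit 1) (p (nat_lit 0x81) (nat_lit 0) (p (nat_lit 0x41) (nat_lit 1) (p (nat_lit 0x10a0b0a89889a) (nat_lit 0) (p (nat_lit 0x98a8a09081a) (nat_lit 0) (p (nat_lit 0x109080988879a) (nat_lit 0) (p (nat_lit 0x8878908071a) (nat_lit 0) (p (nat_lit 0x8000000000800080887868a) (nat_lit 0) (p (nat_lit 0x10888070602) (nat_lit 0) (p (nat_lit 0x807868582) (nat_lit 0) (p (nat_lit 0x10587060502) (nat_lit 0) (p (nat_lit 0x506858482) (nat_lit 0) (p (nat_lit 0x16000c)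 (nat_lit 0) (p (nat_lit 0x68612) (nat_lit 0) (p (nat_lit 0x50592) (nat_lit 0) (p (nat_lit 0x38512) (nat_lit 0) (p (nat_lit 0x50392) (nat_lit 0) (p (nat_lit 0x38312) (nat_lit 0) (p (nat_lit 0x20292) (nat_lit 0) (p (nat_lit 0x38112) (nat_lit 0) (p (nat_lit 0x20092) (nat_lit 0) (p (nat_lit 0x8012) (nat_lit 0) pn))))))))))))))))))))))) :=
  Cl.node (nat_lit 0x89) (nat_lit 2) (by decide +kernel) (ClAll.succ (ClAll.succ ClAll.zero s146) n146)

def n163 : Cl (O (nat_lit 5)) (R (nat_lit 14465))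
    (p (nat_lit 0x119) (nat_lit 0) (p (nat_lit 0xc1) (nat_lit 0) (p (nat_lit 0x81) (nat_lit 1) (p (nat_lit 0x41) (nat_lit 1) (p (nat_lit 0x10a0b0a89889a) (nat_lit 0) (p (nat_lit 0x98a8a09081a) (nat_lit 0) (p (nat_lit 0x109080988879a) (nat_lit 0) (p (nat_lit 0x8878908071a) (nat_lit 0) (p (nat_lit 0x8000000000800080887868a) (nat_lit 0) (p (nat_lit 0x10888070602) (nat_lit 0) (p (nat_lit 0x807868582) (nat_lit 0) (p (nat_lit 0x10587060502) (nat_lit 0) (p (nat_lit 0x506858482) (nat_lit 0) (p (nat_lit 0x16000c) (nat_lit 0) (p (nat_lit 0x68612) (nat_lit 0) (p (nat_lit 0x50592) (nat_lit 0) (p (nat_lit 0x38512) (nat_lit 0) (p (nat_lit 0x50392) (nat_lit 0) (p (nat_lit 0x38312) (nat_lit 0) (p (nat_lit 0x20292) (nat_lit 0) (p (nat_lit 0x38112) (nat_lit 0) (p (nat_lit 0x20092) (nat_lit 0) (p (nat_lit 0x8012) (nat_lit 0) pn))))))))))))))))))))))) :=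
  Cl.node (nat_lit 0x101) (nat_lit 2) (by decide +kernel) (ClAll.succ (ClAll.succ ClAll.zero n147) n148)

def n164 : Cl (O (nat_lit 5)) (R (nat_lit 14465))
    (p (nat_lit 0x119) (nat_lit 1) (p (nat_lit 0xc1) (nat_lit 0) (p (nat_lit 0x81) (nat_lit 1) (p (nat_lit 0x41) (nat_lit 1) (p (nat_lit 0x10a0b0a89889a) (nat_lit 0) (p (nat_lit 0x98a8a09081a) (nat_lit 0) (p (nat_lit 0x109080988879a) (nat_lit 0) (p (nat_lit 0x8878908071a) (nat_lit 0) (p (nat_lit 0x8000000000800080887868a) (nat_lit 0) (p (nat_lit 0x10888070602) (nat_lit 0) (p (nat_lit 0x807868582) (nat_lit 0) (p (nat_lit 0x10587060502) (nat_lit 0) (p (nat_lit 0x506858482) (nat_lit 0) (p (nat_lit 0x16000c) (nat_lit 0) (p (nat_lit 0x68612) (nat_lit 0) (p (nat_lit 0x50592) (nat_lit 0) (p (nat_lit 0x38512) (nat_lit 0) (p (nat_lit 0x50392) (nat_lit 0) (p (nat_lit 0x38312) (nat_lit 0) (p (nat_lit 0x20292) (nat_lit 0) (p (nat_lit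 0x38112) (nat_lit 0) (p (nat_lit 0x20092) (nat_lit 0) (p (nat_lit 0x8012) (nat_lit 0) pn))))))))))))))))))))))) :=
  Cl.node (nat_lit 0xc9) (nat_lit 2) (by decide +kernel) (ClAll.succ (ClAll.succ ClAll.zero n149) n150)

def n165 : Cl (O (nat_lit 5)) (R (nat_lit 14465))
    (p (nat_lit 0x101) (nat_lit 0) (p (nat_lit 0xc1) (nat_lit 1) (p (nat_lit 0x81) (nat_lit 1) (p (nat_lit 0x41) (nat_lit 1) (p (nat_lit 0x10a0b0a89889a) (nat_lit 0) (p (nat_lit 0x98a8a09081a) (nat_lit 0) (p (nat_lit 0x109080988879a) (nat_lit 0) (p (nat_lit 0x8878908071a) (nat_lit 0) (p (nat_lit 0x8000000000800080887868a) (nat_lit 0) (p (nat_lit 0x10888070602) (nat_lit 0) (p (nat_lit 0x807868582) (nat_lit 0) (p (nat_lit 0x10587060502) (nat_lit 0) (p (nat_lit 0x506858482) (nat_lit 0) (p (nat_lit 0x16000c) (nat_lit 0) (p (nat_lit 0x68612) (nat_lit 0) (p (nat_lit 0x50592) (nat_lit 0) (p (nat_lit 0x38512) (nat_lit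 0) (p (nat_lit 0x50392) (nat_lit 0) (p (nat_lit 0x38312) (nat_lit 0) (p (nat_lit 0x20292) (nat_lit 0) (p (nat_lit 0x38112) (nat_lit 0) (p (nat_lit 0x20092) (nat_lit 0) (p (nat_lit 0x8012) (nat_lit 0) pn))))))))))))))))))))))) :=
  Cl.node (nat_lit 0x109) (nat_lit 2) (by decide +kernel) (ClAll.succ (ClAll.succ ClAll.zero n151) s180)

def n166 : Cl (O (nat_lit 5)) (R (nat_lit 14465))
    (p (nat_lit 0xd1) (nat_lit 0) (p (nat_lit 0x89) (nat_lit 0) (p (nat_lit 0x41) (nat_lit 0) (p (nat_lit 0x10a0b0a89889a) (nat_lit 0) (p (nat_lit 0x98a8a09081a) (nat_lit 0) (p (nat_lit 0x109080988879a) (nat_lit 0) (p (nat_lit 0x8878908071a) (nat_lit 0) (p (nat_lit 0x8000000000800080887868a) (nat_lit 0) (p (nat_lit 0x10888070602) (nat_lit 0) (p (nat_lit 0x807868582) (nat_lit 0) (p (nat_lit 0x10587060502) (nat_lit 0) (p (nat_lit 0x506858482) (nat_lit 0) (p (nat_lit 0x16000c) (nat_lit 0) (p (nat_lit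 0x68612) (nat_lit 0) (p (nat_lit 0x50592) (nat_lit 0) (p (nat_lit 0x38512) (nat_lit 0) (p (nat_lit 0x50392) (nat_lit 0) (p (nat_lit 0x38312) (nat_lit 0) (p (nat_lit 0x20292) (nat_lit 0) (p (nat_lit 0x38112) (nat_lit 0) (p (nat_lit 0x20092) (nat_lit 0) (p (nat_lit 0x8012) (nat_lit 0) pn)))))))))))))))))))))) :=
  Cl.node (nat_lit 0x119) (nat_lit 2) (by decide +kernel) (ClAll.succ (ClAll.succ ClAll.zero n152) n153)

def n167 : Cl (O (nat_lit 5)) (R (nat_lit 14465))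
    (p (nat_lit 0xd1) (nat_lit 1) (p (nat_lit 0x89) (nat_lit 0) (p (nat_lit 0x41) (nat_lit 0) (p (nat_lit 0x10a0b0a89889a) (nat_lit 0) (p (nat_lit 0x98a8a09081a) (nat_lit 0) (p (nat_lit 0x109080988879a) (nat_lit 0) (p (nat_lit 0x8878908071a) (nat_lit 0) (p (nat_lit 0x8000000000800080887868a) (nat_lit 0) (p (nat_lit 0x10888070602) (nat_lit 0) (p (nat_lit 0x807868582) (nat_lit 0) (p (nat_lit 0x10587060502) (nat_lit 0) (p (nat_lit 0x506858482) (nat_lit 0) (p (nat_lit 0x16000c) (nat_lit 0) (p (nat_lit 0x68612) (nat_lit 0) (p (nat_lit 0x50592) (nat_lit 0) (p (nat_lit 0x38512) (nat_lit 0) (p (nat_lit 0x50392) (nat_lit 0) (p (nat_lit 0x38312) (nat_lit 0) (p (nat_lit 0x20292) (nat_lit 0) (p (nat_lit 0x38112) (nat_lit 0) (p (nat_lit 0x20092) (nat_lit 0) (p (nat_lit 0x8012) (nat_lit 0) pn)))))))))))))))))))))) :=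
  Cl.node (nat_lit 0x111) (nat_lit 2) (by decide +kernel) (ClAll.succ (ClAll.succ ClAll.zero n154) n155)

def n168 : Cl (O (nat_lit 5)) (R (nat_lit 14465))
    (p (nat_lit 0xc9) (nat_lit 0) (p (nat_lit 0x89) (nat_lit 1) (p (nat_lit 0x41) (nat_lit 0) (p (nat_lit 0x10a0b0a89889a) (nat_lit 0) (p (nat_lit 0x98a8a09081a) (nat_lit 0) (p (nat_lit 0x109080988879a) (nat_lit 0) (p (nat_lit 0x8878908071a) (nat_lit 0) (p (nat_lit 0x8000000000800080887868a) (nat_lit 0) (p (nat_lit 0x10888070602) (nat_lit 0) (p (nat_lit 0x807868582) (nat_lit 0) (p (nat_lit 0x10587060502) (nat_lit 0) (p (nat_lit 0x506858482) (nat_lit 0) (p (nat_lit 0x16000c) (nat_lit 0) (p (nat_lit 0x68612) (nat_lit 0) (p (nat_lit 0x50592) (nat_lit 0) (p (nat_lit 0x38512) (nat_lit 0) (p (nat_lit 0x50392) (nat_lit 0) (p (nat_lit 0x38312) (nat_lit 0) (p (nat_lit 0x20292) (nat_lit 0) (p (nat_lit 0x38112) (nat_lit 0) (p (nat_lit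 0x20092) (nat_lit 0) (p (nat_lit 0x8012) (nat_lit 0) pn)))))))))))))))))))))) :=
  Cl.node (nat_lit 0x119) (nat_lit 2) (by decide +kernel) (ClAll.succ (ClAll.succ ClAll.zero n156) n157)

def n169 : Cl (O (nat_lit 5)) (R (nat_lit 14465))
    (p (nat_lit 0xc9) (nat_lit 1) (p (nat_lit 0x89) (nat_lit 1) (p (nat_lit 0x41) (nat_lit 0) (p (nat_lit 0x10a0b0a89889a) (nat_lit 0) (p (nat_lit 0x98a8a09081a) (nat_lit 0) (p (nat_lit 0x109080988879a) (nat_lit 0) (p (nat_lit 0x8878908071a) (nat_lit 0) (p (nat_lit 0x8000000000800080887868a) (nat_lit 0) (p (nat_lit 0x10888070602) (nat_lit 0) (p (nat_lit 0x807868582) (nat_lit 0) (p (nat_lit 0x10587060502) (nat_lit 0) (p (nat_lit 0x506858482) (nat_lit 0) (p (nat_lit 0x16000c) (nat_lit 0) (p (nat_lit 0x68612) (nat_lit 0) (p (nat_lit 0x50592) (nat_lit 0) (p (nat_lit 0x38512) (nat_lit 0) (p (nat_lit 0x50392) (nat_lit 0) (p (nat_lit 0x38312) (nat_lit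 0) (p (nat_lit 0x20292) (nat_lit 0) (p (nat_lit 0x38112) (nat_lit 0) (p (nat_lit 0x20092) (nat_lit 0) (p (nat_lit 0x8012) (nat_lit 0) pn)))))))))))))))))))))) :=
  Cl.node (nat_lit 0x109) (nat_lit 2) (by decide +kernel) (ClAll.succ (ClAll.succ ClAll.zero n158) s95)

def n170 : Cl (O (nat_lit 5)) (R (nat_lit 14465))
    (p (nat_lit 0xd1) (nat_lit 0) (p (nat_lit 0x81) (nat_lit 0) (p (nat_lit 0x41) (nat_lit 1) (p (nat_lit 0x10a0b0a89889a) (nat_lit 0) (p (nat_lit 0x98a8a09081a) (nat_lit 0) (p (nat_lit 0x109080988879a) (nat_lit 0) (p (nat_lit 0x8878908071a) (nat_lit 0) (p (nat_lit 0x8000000000800080887868a) (nat_lit 0) (p (nat_lit 0x10888070602) (nat_lit 0) (p (nat_lit 0x807868582) (nat_lit 0) (p (nat_lit 0x10587060502) (nat_lit 0) (p (nat_lit 0x506858482) (nat_lit 0) (p (nat_lit 0x16000c) (nat_lit 0) (p (nat_lit 0x68612) (nat_lit 0) (p (nat_lit 0x50592) (nat_lit 0) (p (nat_lit 0x38512)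 (nat_lit 0) (p (nat_lit 0x50392) (nat_lit 0) (p (nat_lit 0x38312) (nat_lit 0) (p (nat_lit 0x20292) (nat_lit 0) (p (nat_lit 0x38112) (nat_lit 0) (p (nat_lit 0x20092) (nat_lit 0) (p (nat_lit 0x8012) (nat_lit 0) pn)))))))))))))))))))))) :=
  Cl.node (nat_lit 0x119) (nat_lit 2) (by decide +kernel) (ClAll.succ (ClAll.succ ClAll.zero n159) n160)

def n171 : Cl (O (nat_lit 5)) (R (nat_lit 14465))
    (p (nat_lit 0xd1) (nat_lit 1) (p (nat_lit 0x81) (nat_lit 0) (p (nat_lit 0x41) (nat_lit 1) (p (nat_lit 0x10a0b0a89889a) (nat_lit 0) (p (nat_lit 0x98a8a09081a) (nat_lit 0) (p (nat_lit 0x109080988879a) (nat_lit 0) (p (nat_lit 0x8878908071a) (nat_lit 0) (p (nat_lit 0x8000000000800080887868a) (nat_lit 0) (p (nat_lit 0x10888070602) (nat_lit 0) (p (nat_lit 0x807868582) (nat_lit 0) (p (nat_lit 0x10587060502) (nat_lit 0) (p (nat_lit 0x506858482) (nat_lit 0) (p (nat_lit 0x16000c) (nat_lit 0) (p (nat_lit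 0x68612) (nat_lit 0) (p (nat_lit 0x50592) (nat_lit 0) (p (nat_lit 0x38512) (nat_lit 0) (p (nat_lit 0x50392) (nat_lit 0) (p (nat_lit 0x38312) (nat_lit 0) (p (nat_lit 0x20292) (nat_lit 0) (p (nat_lit 0x38112) (nat_lit 0) (p (nat_lit 0x20092) (nat_lit 0) (p (nat_lit 0x8012) (nat_lit 0) pn)))))))))))))))))))))) :=
  Cl.node (nat_lit 0x111) (nat_lit 2) (by decide +kernel) (ClAll.succ (ClAll.succ ClAll.zero n161) n162)

def n172 : Cl (O (nat_lit 5)) (R (nat_lit 14465))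
    (p (nat_lit 0xc1) (nat_lit 0) (p (nat_lit 0x81) (nat_lit 1) (p (nat_lit 0x41) (nat_lit 1) (p (nat_lit 0x10a0b0a89889a) (nat_lit 0) (p (nat_lit 0x98a8a09081a) (nat_lit 0) (p (nat_lit 0x109080988879a) (nat_lit 0) (p (nat_lit 0x8878908071a) (nat_lit 0) (p (nat_lit 0x8000000000800080887868a) (nat_lit 0) (p (nat_lit 0x10888070602) (nat_lit 0) (p (nat_lit 0x807868582) (nat_lit 0) (p (nat_lit 0x10587060502) (nat_lit 0) (p (nat_lit 0x506858482) (nat_lit 0) (p (nat_lit 0x16000c) (nat_lit 0) (p (nat_lit 0x68612) (nat_lit 0) (p (nat_lit 0x50592) (nat_lit 0) (p (nat_lit 0x38512) (nat_lit 0) (p (nat_lit 0x50392) (nat_lit 0) (p (nat_lit 0x38312) (nat_lit 0) (p (nat_lit 0x20292) (nat_lit 0) (p (nat_lit 0x38112) (nat_lit 0) (p (nat_lit 0x20092) (nat_lit 0) (p (nat_lit 0x8012) (nat_lit 0) pn)))))))))))))))))))))) :=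
  Cl.node (nat_lit 0x119) (nat_lit 2) (by decide +kernel) (ClAll.succ (ClAll.succ ClAll.zero n163) n164)

def n173 : Cl (O (nat_lit 5)) (R (nat_lit 14465))
    (p (nat_lit 0xc1) (nat_lit 1) (p (nat_lit 0x81) (nat_lit 1) (p (nat_lit 0x41) (nat_lit 1) (p (nat_lit 0x10a0b0a89889a) (nat_lit 0) (p (nat_lit 0x98a8a09081a) (nat_lit 0) (p (nat_lit 0x109080988879a) (nat_lit 0) (p (nat_lit 0x8878908071a) (nat_lit 0) (p (nat_lit 0x8000000000800080887868a) (nat_lit 0) (p (nat_lit 0x10888070602) (nat_lit 0) (p (nat_lit 0x807868582) (nat_lit 0) (p (nat_lit 0x10587060502) (nat_lit 0) (p (nat_lit 0x506858482) (nat_lit 0) (p (nat_lit 0x16000c) (nat_lit 0) (p (nat_lit 0x68612) (nat_lit 0) (p (nat_lit 0x50592) (nat_lit 0) (p (nat_lit 0x38512) (nat_lit 0) (p (nat_lit 0x50392) (nat_lit 0) (p (nat_lit 0x38312) (nat_lit 0) (p (nat_lit 0x20292) (nat_lit 0) (p (nat_lit 0x38112) (nat_lit 0) (p (nat_lit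 0x20092) (nat_lit 0) (p (nat_lit 0x8012) (nat_lit 0) pn)))))))))))))))))))))) :=
  Cl.node (nat_lit 0x101) (nat_lit 2) (by decide +kernel) (ClAll.succ (ClAll.succ ClAll.zero n165) s181)

def n174 : Cl (O (nat_lit 5)) (R (nat_lit 14465))
    (p (nat_lit 0x89) (nat_lit 0) (p (nat_lit 0x41) (nat_lit 0) (p (nat_lit 0x10a0b0a89889a) (nat_lit 0) (p (nat_lit 0x98a8a09081a) (nat_lit 0) (p (nat_lit 0x109080988879a) (nat_lit 0) (p (nat_lit 0x8878908071a) (nat_lit 0) (p (nat_lit 0x8000000000800080887868a) (nat_lit 0) (p (nat_lit 0x10888070602) (nat_lit 0) (p (nat_lit 0x807868582) (nat_lit 0) (p (nat_lit 0x10587060502) (nat_lit 0) (p (nat_lit 0x506858482) (nat_lit 0) (p (nat_lit 0x16000c) (nat_lit 0) (p (nat_lit 0x68612) (nat_lit 0) (p (nat_lit 0x50592) (nat_lit 0) (p (nat_lit 0x38512) (nat_lit 0) (p (nat_lit 0x50392) (nat_lit 0) (p (nat_lit 0x38312) (nat_lit 0) (p (nat_lit 0x20292) (nat_lit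 0) (p (nat_lit 0x38112) (nat_lit 0) (p (nat_lit 0x20092) (nat_lit 0) (p (nat_lit 0x8012) (nat_lit 0) pn))))))))))))))))))))) :=
  Cl.node (nat_lit 0xd1) (nat_lit 2) (by decide +kernel) (ClAll.succ (ClAll.succ ClAll.zero n166) n167)

def n175 : Cl (O (nat_lit 5)) (R (nat_lit 14465))
    (p (nat_lit 0x89) (nat_lit 1) (p (nat_lit 0x41) (nat_lit 0) (p (nat_lit 0x10a0b0a89889a) (nat_lit 0) (p (nat_lit 0x98a8a09081a) (nat_lit 0) (p (nat_lit 0x109080988879a) (nat_lit 0) (p (nat_lit 0x8878908071a) (nat_lit 0) (p (nat_lit 0x8000000000800080887868a) (nat_lit 0) (p (nat_lit 0x10888070602) (nat_lit 0) (p (nat_lit 0x807868582) (nat_lit 0) (p (nat_lit 0x10587060502) (nat_lit 0) (p (nat_lit 0x506858482) (nat_lit 0) (p (nat_lit 0x16000c) (nat_lit 0) (p (nat_lit 0x68612) (nat_lit 0) (p (nat_lit 0x50592) (nat_lit 0) (p (nat_lit 0x38512) (nat_lit 0) (p (nat_lit 0x50392) (nat_lit 0) (p (nat_lit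 0x38312) (nat_lit 0) (p (nat_lit 0x20292) (nat_lit 0) (p (nat_lit 0x38112) (nat_lit 0) (p (nat_lit 0x20092) (nat_lit 0) (p (nat_lit 0x8012) (nat_lit 0) pn))))))))))))))))))))) :=
  Cl.node (nat_lit 0xc9) (nat_lit 2) (by decide +kernel) (ClAll.succ (ClAll.succ ClAll.zero n168) n169)

def n176 : Cl (O (nat_lit 5)) (R (nat_lit 14465))
    (p (nat_lit 0x81) (nat_lit 0) (p (nat_lit 0x41) (nat_lit 1) (p (nat_lit 0x10a0b0a89889a) (nat_lit 0) (p (nat_lit 0x98a8a09081a) (nat_lit 0) (p (nat_lit 0x109080988879a) (nat_lit 0) (p (nat_lit 0x8878908071a) (nat_lit 0) (p (nat_lit 0x8000000000800080887868a) (nat_lit 0) (p (nat_lit 0x10888070602) (nat_lit 0) (p (nat_lit 0x807868582) (nat_lit 0) (p (nat_lit 0x10587060502) (nat_lit 0) (p (nat_lit 0x506858482) (nat_lit 0) (p (nat_lit 0x16000c) (nat_lit 0) (p (nat_lit 0x68612) (nat_lit 0) (p (nat_lit 0x50592) (nat_lit 0) (p (nat_lit 0x38512) (nat_lit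 0) (p (nat_lit 0x50392) (nat_lit 0) (p (nat_lit 0x38312) (nat_lit 0) (p (nat_lit 0x20292) (nat_lit 0) (p (nat_lit 0x38112) (nat_lit 0) (p (nat_lit 0x20092) (nat_lit 0) (p (nat_lit 0x8012) (nat_lit 0) pn))))))))))))))))))))) :=
  Cl.node (nat_lit 0xd1) (nat_lit 2) (by decide +kernel) (ClAll.succ (ClAll.succ ClAll.zero n170) n171)

def n177 : Cl (O (nat_lit 5)) (R (nat_lit 14465))
    (p (nat_lit 0x81) (nat_lit 1) (p (nat_lit 0x41) (nat_lit 1) (p (nat_lit 0x10a0b0a89889a) (nat_lit 0) (p (nat_lit 0x98a8a09081a) (nat_lit 0) (p (nat_lit 0x109080988879a) (nat_lit 0) (p (nat_lit 0x8878908071a) (nat_lit 0) (p (nat_lit 0x8000000000800080887868a) (nat_lit 0) (p (nat_lit 0x10888070602) (nat_lit 0) (p (nat_lit 0x807868582) (nat_lit 0) (p (nat_lit 0x10587060502) (nat_lit 0) (p (nat_lit 0x506858482) (nat_lit 0) (p (nat_lit 0x16000c) (nat_lit 0) (p (nat_lit 0x68612) (nat_lit 0) (p (nat_lit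 0x50592) (nat_lit 0) (p (nat_lit 0x38512) (nat_lit 0) (p (nat_lit 0x50392) (nat_lit 0) (p (nat_lit 0x38312) (nat_lit 0) (p (nat_lit 0x20292) (nat_lit 0) (p (nat_lit 0x38112) (nat_lit 0) (p (nat_lit 0x20092) (nat_lit 0) (p (nat_lit 0x8012) (nat_lit 0) pn))))))))))))))))))))) :=
  Cl.node (nat_lit 0xc1) (nat_lit 2) (by decide +kernel) (ClAll.succ (ClAll.succ ClAll.zero n172) n173)

def n178 : Cl (O (nat_lit 5)) (R (nat_lit 14465))
    (p (nat_lit 0x41) (nat_lit 0) (p (nat_lit 0x10a0b0a89889a) (nat_lit 0) (p (nat_lit 0x98a8a09081a) (nat_lit 0) (p (nat_lit 0x109080988879a) (nat_lit 0) (p (nat_lit 0x8878908071a) (nat_lit 0) (p (nat_lit 0x8000000000800080887868a) (nat_lit 0) (p (nat_lit 0x10888070602) (nat_lit 0) (p (nat_lit 0x807868582) (nat_lit 0) (p (nat_lit 0x10587060502) (nat_lit 0) (p (nat_lit 0x506858482) (nat_lit 0) (p (nat_lit 0x16000c) (nat_lit 0) (p (nat_lit 0x68612) (nat_lit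 0) (p (nat_lit 0x50592) (nat_lit 0) (p (nat_lit 0x38512) (nat_lit 0) (p (nat_lit 0x50392) (nat_lit 0) (p (nat_lit 0x38312) (nat_lit 0) (p (nat_lit 0x20292) (nat_lit 0) (p (nat_lit 0x38112) (nat_lit 0) (p (nat_lit 0x20092) (nat_lit 0) (p (nat_lit 0x8012) (nat_lit 0) pn)))))))))))))))))))) :=
  Cl.node (nat_lit 0x89) (nat_lit 2) (by decide +kernel) (ClAll.succ (ClAll.succ ClAll.zero n174) n175)

def n179 : Cl (O (nat_lit 5)) (R (nat_lit 14465))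
    (p (nat_lit 0x41) (nat_lit 1) (p (nat_lit 0x10a0b0a89889a) (nat_lit 0) (p (nat_lit 0x98a8a09081a) (nat_lit 0) (p (nat_lit 0x109080988879a) (nat_lit 0) (p (nat_lit 0x8878908071a) (nat_lit 0) (p (nat_lit 0x8000000000800080887868a) (nat_lit 0) (p (nat_lit 0x10888070602) (nat_lit 0) (p (nat_lit 0x807868582) (nat_lit 0) (p (nat_lit 0x10587060502) (nat_lit 0) (p (nat_lit 0x506858482) (nat_lit 0) (p (nat_lit 0x16000c) (nat_lit 0) (p (nat_lit 0x68612) (nat_lit 0) (p (nat_lit 0x50592) (nat_lit 0) (p (nat_lit 0x38512) (nat_lit 0) (p (nat_lit 0x50392) (nat_lit 0) (p (nat_lit 0x38312) (nat_lit 0) (p (nat_lit 0x20292) (nat_lit 0) (p (nat_lit 0x38112) (nat_lit 0) (p (nat_lit 0x20092) (nat_lit 0) (p (nat_lit 0x8012) (nat_lit 0) pn)))))))))))))))))))) :=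
  Cl.node (nat_lit 0x81) (nat_lit 2) (by decide +kernel) (ClAll.succ (ClAll.succ ClAll.zero n176) n177)

def n180 : Cl (O (nat_lit 5)) (R (nat_lit 14465))
    (p (nat_lit 0x10a0b0a89889a) (nat_lit 0) (p (nat_lit 0x98a8a09081a) (nat_lit 0) (p (nat_lit 0x109080988879a) (nat_lit 0) (p (nat_lit 0x8878908071a) (nat_lit 0) (p (nat_lit 0x8000000000800080887868a) (nat_lit 0) (p (nat_lit 0x10888070602) (nat_lit 0) (p (nat_lit 0x807868582) (nat_lit 0) (p (nat_lit 0x10587060502) (nat_lit 0) (p (nat_lit 0x506858482) (nat_lit 0) (p (nat_lit 0x16000c) (nat_lit 0) (p (nat_lit 0x68612) (nat_lit 0) (p (nat_lit 0x50592) (nat_lit 0) (p (nat_lit 0x38512) (nat_lit 0) (p (nat_lit 0x50392) (nat_lit 0) (p (nat_lit 0x38312) (nat_lit 0) (p (nat_lit 0x20292) (nat_lit 0) (p (nat_lit 0x38112) (nat_lit 0) (p (nat_lit 0x20092) (nat_lit 0) (p (nat_lit 0x8012) (nat_lit 0) pn))))))))))))))))))) :=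
  Cl.node (nat_lit 0x41) (nat_lit 2) (by decide +kernel) (ClAll.succ (ClAll.succ ClAll.zero n178) n179)

def n181 : Cl (O (nat_lit 5)) (R (nat_lit 14465))
    (p (nat_lit 0x98a8a09081a) (nat_lit 0) (p (nat_lit 0x109080988879a) (nat_lit 0) (p (nat_lit 0x8878908071a) (nat_lit 0) (p (nat_lit 0x8000000000800080887868a) (nat_lit 0) (p (nat_lit 0x10888070602) (nat_lit 0) (p (nat_lit 0x807868582) (nat_lit 0) (p (nat_lit 0x10587060502) (nat_lit 0) (p (nat_lit 0x506858482) (nat_lit 0) (p (nat_lit 0x16000c) (nat_lit 0) (p (nat_lit 0x68612) (nat_lit 0) (p (nat_lit 0x50592) (nat_lit 0) (p (nat_lit 0x38512) (nat_lit 0) (p (nat_lit 0x50392) (nat_lit 0) (p (nat_lit 0x38312) (nat_lit 0) (p (nat_lit 0x20292) (nat_lit 0) (p (nat_lit 0x38112) (nat_lit 0) (p (nat_lit 0x20092) (nat_lit 0) (p (nat_lit 0x8012) (nat_lit 0) pn)))))))))))))))))) :=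
  Cl.node (nat_lit 0x10a0b0a89889a) (nat_lit 1) (by decide +kernel) (ClAll.succ ClAll.zero n180)

def n182 : Cl (O (nat_lit 5)) (R (nat_lit 14465))
    (p (nat_lit 0x109080988879a) (nat_lit 0) (p (nat_lit 0x8878908071a) (nat_lit 0) (p (nat_lit 0x8000000000800080887868a) (nat_lit 0) (p (nat_lit 0x10888070602) (nat_lit 0) (p (nat_lit 0x807868582) (nat_lit 0) (p (nat_lit 0x10587060502) (nat_lit 0) (p (nat_lit 0x506858482) (nat_lit 0) (p (nat_lit 0x16000c) (nat_lit 0) (p (nat_lit 0x68612) (nat_lit 0) (p (nat_lit 0x50592) (nat_lit 0) (p (nat_lit 0x38512) (nat_lit 0) (p (nat_lit 0x50392) (nat_lit 0) (p (nat_lit 0x38312) (nat_lit 0) (p (nat_lit 0x20292) (nat_lit 0) (p (nat_lit 0x38112) (nat_lit 0) (p (nat_lit 0x20092) (nat_lit 0) (p (nat_lit 0x8012) (nat_lit 0) pn))))))))))))))))) :=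
  Cl.node (nat_lit 0x98a8a09081a) (nat_lit 1) (by decide +kernel) (ClAll.succ ClAll.zero n181)

def n183 : Cl (O (nat_lit 5)) (R (nat_lit 14465))
    (p (nat_lit 0x8878908071a) (nat_lit 0) (p (nat_lit 0x8000000000800080887868a) (nat_lit 0) (p (nat_lit 0x10888070602) (nat_lit 0) (p (nat_lit 0x807868582) (nat_lit 0) (p (nat_lit 0x10587060502) (nat_lit 0) (p (nat_lit 0x506858482) (nat_lit 0) (p (nat_lit 0x16000c) (nat_lit 0) (p (nat_lit 0x68612) (nat_lit 0) (p (nat_lit 0x50592) (nat_lit 0) (p (nat_lit 0x38512) (nat_lit 0) (p (nat_lit 0x50392) (nat_lit 0) (p (nat_lit 0x38312) (nat_lit 0) (p (nat_lit 0x20292) (nat_lit 0) (p (nat_lit 0x38112) (nat_lit 0) (p (nat_lit 0x20092) (nat_lit 0) (p (nat_lit 0x8012) (nat_lit 0) pn)))))))))))))))) :=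
  Cl.node (nat_lit 0x109080988879a) (nat_lit 1) (by decide +kernel) (ClAll.succ ClAll.zero n182)

def n184 : Cl (O (nat_lit 5)) (R (nat_lit 14465))
    (p (nat_lit 0x8000000000800080887868a) (nat_lit 0) (p (nat_lit 0x10888070602) (nat_lit 0) (p (nat_lit 0x807868582) (nat_lit 0) (p (nat_lit 0x10587060502) (nat_lit 0) (p (nat_lit 0x506858482) (nat_lit 0) (p (nat_lit 0x16000c) (nat_lit 0) (p (nat_lit 0x68612) (nat_lit 0) (p (nat_lit 0x50592) (nat_lit 0) (p (nat_lit 0x38512) (nat_lit 0) (p (nat_lit 0x50392) (nat_lit 0) (p (nat_lit 0x38312) (nat_lit 0) (p (nat_lit 0x20292) (nat_lit 0) (p (nat_lit 0x38112) (nat_lit 0) (p (nat_lit 0x20092) (nat_lit 0) (p (nat_lit 0x8012) (nat_lit 0) pn))))))))))))))) :=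
  Cl.node (nat_lit 0x8878908071a) (nat_lit 1) (by decide +kernel) (ClAll.succ ClAll.zero n183)

def n185 : Cl (O (nat_lit 5)) (R (nat_lit 14465))
    (p (nat_lit 0x10888070602) (nat_lit 0) (p (nat_lit 0x807868582) (nat_lit 0) (p (nat_lit 0x10587060502) (nat_lit 0) (p (nat_lit 0x506858482) (nat_lit 0) (p (nat_lit 0x16000c) (nat_lit 0) (p (nat_lit 0x68612) (nat_lit 0) (p (nat_lit 0x50592) (nat_lit 0) (p (nat_lit 0x38512) (nat_lit 0) (p (nat_lit 0x50392) (nat_lit 0) (p (nat_lit 0x38312) (nat_lit 0) (p (nat_lit 0x20292) (nat_lit 0) (p (nat_lit 0x38112) (nat_lit 0) (p (nat_lit 0x20092) (nat_lit 0) (p (nat_lit 0x8012) (nat_lit 0) pn)))))))))))))) :=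
  Cl.node (nat_lit 0x8000000000800080887868a) (nat_lit 1) (by decide +kernel) (ClAll.succ ClAll.zero n184)

def n186 : Cl (O (nat_lit 5)) (R (nat_lit 14465))
    (p (nat_lit 0x807868582) (nat_lit 0) (p (nat_lit 0x10587060502) (nat_lit 0) (p (nat_lit 0x506858482) (nat_lit 0) (p (nat_lit 0x16000c) (nat_lit 0) (p (nat_lit 0x68612) (nat_lit 0) (p (nat_lit 0x50592) (nat_lit 0) (p (nat_lit 0x38512) (nat_lit 0) (p (nat_lit 0x50392) (nat_lit 0) (p (nat_lit 0x38312) (nat_lit 0) (p (nat_lit 0x20292) (nat_lit 0) (p (nat_lit 0x38112) (nat_lit 0) (p (nat_lit 0x20092) (nat_lit 0) (p (nat_lit 0x8012) (nat_lit 0) pn))))))))))))) :=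
  Cl.node (nat_lit 0x10888070602) (nat_lit 1) (by decide +kernel) (ClAll.succ ClAll.zero n185)

def n187 : Cl (O (nat_lit 5)) (R (nat_lit 14465))
    (p (nat_lit 0x10587060502) (nat_lit 0) (p (nat_lit 0x506858482) (nat_lit 0) (p (nat_lit 0x16000c) (nat_lit 0) (p (nat_lit 0x68612) (nat_lit 0) (p (nat_lit 0x50592) (nat_lit 0) (p (nat_lit 0x38512) (nat_lit 0) (p (nat_lit 0x50392) (nat_lit 0) (p (nat_lit 0x38312) (nat_lit 0) (p (nat_lit 0x20292) (nat_lit 0) (p (nat_lit 0x38112) (nat_lit 0) (p (nat_lit 0x20092) (nat_lit 0) (p (nat_lit 0x8012) (nat_lit 0) pn)))))))))))) :=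
  Cl.node (nat_lit 0x807868582) (nat_lit 1) (by decide +kernel) (ClAll.succ ClAll.zero n186)

def n188 : Cl (O (nat_lit 5)) (R (nat_lit 14465))
    (p (nat_lit 0x506858482) (nat_lit 0) (p (nat_lit 0x16000c) (nat_lit 0) (p (nat_lit 0x68612) (nat_lit 0) (p (nat_lit 0x50592) (nat_lit 0) (p (nat_lit 0x38512) (nat_lit 0) (p (nat_lit 0x50392) (nat_lit 0) (p (nat_lit 0x38312) (nat_lit 0) (p (nat_lit 0x20292) (nat_lit 0) (p (nat_lit 0x38112) (nat_lit 0) (p (nat_lit 0x20092) (nat_lit 0) (p (nat_lit 0x8012) (nat_lit 0) pn))))))))))) :=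
  Cl.node (nat_lit 0x10587060502) (nat_lit 1) (by decide +kernel) (ClAll.succ ClAll.zero n187)

def n189 : Cl (O (nat_lit 5)) (R (nat_lit 14465))
    (p (nat_lit 0x16000c) (nat_lit 0) (p (nat_lit 0x68612) (nat_lit 0) (p (nat_lit 0x50592) (nat_lit 0) (p (nat_lit 0x38512) (nat_lit 0) (p (nat_lit 0x50392) (nat_lit 0) (p (nat_lit 0x38312) (nat_lit 0) (p (nat_lit 0x20292) (nat_lit 0) (p (nat_lit 0x38112) (nat_lit 0) (p (nat_lit 0x20092) (nat_lit 0) (p (nat_lit 0x8012) (nat_lit 0) pn)))))))))) :=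
  Cl.node (nat_lit 0x506858482) (nat_lit 1) (by decide +kernel) (ClAll.succ ClAll.zero n188)

def n190 : Cl (O (nat_lit 5)) (R (nat_lit 14465))
    (p (nat_lit 0x68612) (nat_lit 0) (p (nat_lit 0x50592) (nat_lit 0) (p (nat_lit 0x38512) (nat_lit 0) (p (nat_lit 0x50392) (nat_lit 0) (p (nat_lit 0x38312) (nat_lit 0) (p (nat_lit 0x20292) (nat_lit 0) (p (nat_lit 0x38112) (nat_lit 0) (p (nat_lit 0x20092) (nat_lit 0) (p (nat_lit 0x8012) (nat_lit 0) pn))))))))) :=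
  Cl.node (nat_lit 0x16000c) (nat_lit 2) (by decide +kernel) (ClAll.succ (ClAll.succ ClAll.zero n189) s182)

def n191 : Cl (O (nat_lit 5)) (R (nat_lit 14465))
    (p (nat_lit 0x50592) (nat_lit 0) (p (nat_lit 0x38512) (nat_lit 0) (p (nat_lit 0x50392) (nat_lit 0) (p (nat_lit 0x38312) (nat_lit 0) (p (nat_lit 0x20292) (nat_lit 0) (p (nat_lit 0x38112) (nat_lit 0) (p (nat_lit 0x20092) (nat_lit 0) (p (nat_lit 0x8012) (nat_lit 0) pn)))))))) :=
  Cl.node (nat_lit 0x68612) (nat_lit 1) (by decide +kernel) (ClAll.succ ClAll.zero n190)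

def n192 : Cl (O (nat_lit 5)) (R (nat_lit 14465))
    (p (nat_lit 0x38512) (nat_lit 0) (p (nat_lit 0x50392) (nat_lit 0) (p (nat_lit 0x38312) (nat_lit 0) (p (nat_lit 0x20292) (nat_lit 0) (p (nat_lit 0x38112) (nat_lit 0) (p (nat_lit 0x20092) (nat_lit 0) (p (nat_lit 0x8012) (nat_lit 0) pn))))))) :=
  Cl.node (nat_lit 0x50592) (nat_lit 1) (by decide +kernel) (ClAll.succ ClAll.zero n191)

def n193 : Cl (O (nat_lit 5)) (R (nat_lit 14465))
    (p (nat_lit 0x50392) (nat_lit 0) (p (nat_lit 0x38312) (nat_lit 0) (p (nat_lit 0x20292) (nat_lit 0) (p (nat_lit 0x38112) (nat_lit 0) (p (nat_lit 0x20092) (nat_lit 0) (p (nat_lit 0x8012) (nat_lit 0) pn)))))) :=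
  Cl.node (nat_lit 0x38512) (nat_lit 1) (by decide +kernel) (ClAll.succ ClAll.zero n192)

def n194 : Cl (O (nat_lit 5)) (R (nat_lit 14465))
    (p (nat_lit 0x38312) (nat_lit 0) (p (nat_lit 0x20292) (nat_lit 0) (p (nat_lit 0x38112) (nat_lit 0) (p (nat_lit 0x20092) (nat_lit 0) (p (nat_lit 0x8012) (nat_lit 0) pn))))) :=
  Cl.node (nat_lit 0x50392) (nat_lit 1) (by decide +kernel) (ClAll.succ ClAll.zero n193)

def n195 : Cl (O (nat_lit 5)) (R (nat_lit 14465))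
    (p (nat_lit 0x20292) (nat_lit 0) (p (nat_lit 0x38112) (nat_lit 0) (p (nat_lit 0x20092) (nat_lit 0) (p (nat_lit 0x8012) (nat_lit 0) pn)))) :=
  Cl.node (nat_lit 0x38312) (nat_lit 1) (by decide +kernel) (ClAll.succ ClAll.zero n194)

def n196 : Cl (O (nat_lit 5)) (R (nat_lit 14465))
    (p (nat_lit 0x38112) (nat_lit 0) (p (nat_lit 0x20092) (nat_lit 0) (p (nat_lit 0x8012) (nat_lit 0) pn))) :=
  Cl.node (nat_lit 0x20292) (nat_lit 1) (by decide +kernel) (ClAll.succ ClAll.zero n195)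

def n197 : Cl (O (nat_lit 5)) (R (nat_lit 14465))
    (p (nat_lit 0x20092) (nat_lit 0) (p (nat_lit 0x8012) (nat_lit 0) pn)) :=
  Cl.node (nat_lit 0x38112) (nat_lit 1) (by decide +kernel) (ClAll.succ ClAll.zero n196)

def n198 : Cl (O (nat_lit 5)) (R (nat_lit 14465))
    (p (nat_lit 0x8012) (nat_lit 0) pn) :=
  Cl.node (nat_lit 0x20092) (nat_lit 1) (by decide +kernel) (ClAll.succ ClAll.zero n197)

def n199 : Cl (O (nat_lit 5)) (R (nat_lit 14465))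
    pn :=
  Cl.node (nat_lit 0x8012) (nat_lit 1) (by decide +kernel) (ClAll.succ ClAll.zero n198)

theorem top : Cl (O (nat_lit 5)) (R (nat_lit 14465)) pn := n199

end Pool.Agent.Gen.F5.X1C2D3Cm5
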